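import Mathlib

/-!
# Exponentials of nilpotent elements
-/

set_option autoImplicit false
set_option linter.unusedSimpArgs false
set_option linter.style.haveILetI false

namespace Pool.Agent.Q8.HK

variable {K : Type} [Field K]

/-- The truncated exponential series `∑_{i < N} a^i / i!`. -/
noncomputable def ex (K : Type) [Field K] {R : Type} [Ring R] [Algebra K R] (N : ℕ) (a : R) : R :=
  ∑ i ∈ Finset.range N, ((i.factorial : K)⁻¹) • a ^ i

variable [CharZero K] {R : Type} [Ring R] [Algebra K R]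

theorem ex_eq_exp {N : ℕ} {a : R} (h : a ^ N = 0) :
    ex K N a = @IsNilpotent.exp R _ (Module.compHom R (algebraMap ℚ K)) a := by
  letI : Module ℚ R := Module.compHom R (algebraMap ℚ K)
  rw [IsNilpotent.exp_eq_sum h, ex]
  refine Finset.sum_congr rfl fun i _ => ?_
  show _ = (algebraMap ℚ K) ((i.factorial : ℚ)⁻¹) • a ^ i
  rw [map_inv₀, map_natCast]

theorem ex_eq {N k : ℕ} {a : R} (h : a ^ N = 0) (h' : a ^ k = 0) : ex K N a = ex K k a := by
  rw [ex_eq_exp h, ex_eq_exp h']

theorem neg_pow_zero {N : ℕ} {a : R} (h : a ^ N = 0) : (-a) ^ N = 0 := by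
  rw [neg_pow, h, mul_zero]

theorem ex_mul_neg {N : ℕ} {a : R} (h : a ^ N = 0) : ex K N a * ex K N (-a) = 1 := by
  letI : Module ℚ R := Module.compHom R (algebraMap ℚ K)
  rw [ex_eq_exp h, ex_eq_exp (neg_pow_zero h)]
  exact IsNilpotent.exp_mul_exp_neg_self ⟨N, h⟩

theorem ex_neg_mul {N : ℕ} {a : R} (h : a ^ N = 0) : ex K N (-a) * ex K N a = 1 := by
  have := ex_mul_neg (K := K) (neg_pow_zero h)
  rwa [neg_neg] at this

theorem ex_add {N : ℕ} {a b : R} (hab : Commute a b) (ha : a ^ N = 0) (hb : b ^ N = 0) :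
    ex K (2 * N) (a + b) = ex K N a * ex K N b := by
  letI : Module ℚ R := Module.compHom R (algebraMap ℚ K)
  have h : (a + b) ^ (2 * N) = 0 :=
    Commute.add_pow_eq_zero_of_add_le_succ_of_pow_eq_zero hab ha hb (by omega)
  rw [ex_eq_exp h, ex_eq_exp ha, ex_eq_exp hb]
  exact IsNilpotent.exp_add_of_commute hab ⟨N, ha⟩ ⟨N, hb⟩

/-- the adjoint action of `a` on `R` -/
def adR (K : Type) [Field K] {R : Type} [Ring R] [Algebra K R] (a : R) : Module.End K R :=
  LinearMap.mulLeft K a - LinearMap.mulRight K a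

omit [CharZero K] in
theorem adR_apply (a m : R) : adR K a m = a * m - m * a := rfl

omit [CharZero K] in
theorem adR_pow {N : ℕ} {a : R} (h : a ^ N = 0) : (adR K a) ^ (2 * N) = 0 := by
  have h1 : (LinearMap.mulLeft K a) ^ N = 0 := by
    rw [LinearMap.pow_mulLeft, h]; ext; simp
  have h2 : (LinearMap.mulRight K (-a)) ^ N = 0 := by
    rw [LinearMap.pow_mulRight, neg_pow_zero h]; ext; simp
  have hc : Commute (LinearMap.mulLeft K a) (LinearMap.mulRight K (-a)) :=
    LinearMap.ext fun m => by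
      simp [Module.End.mul_apply, mul_assoc]
  have h4 : LinearMap.mulLeft K a + LinearMap.mulRight K (-a) = adR K a := by
    refine LinearMap.ext fun m => ?_
    simp [adR, sub_eq_add_neg]
  rw [← h4]
  exact Commute.add_pow_eq_zero_of_add_le_succ_of_pow_eq_zero hc h1 h2 (by omega)

theorem ex_conj {N : ℕ} {a : R} (h : a ^ N = 0) (m : R) :
    ex K N a * m * ex K N (-a) =
      ∑ i ∈ Finset.range (2 * N), ((i.factorial : K)⁻¹) • ((adR K a) ^ i) m := by
  have h1 : (LinearMap.mulLeft K a) ^ N = 0 := by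
    rw [LinearMap.pow_mulLeft, h]; ext; simp
  have h2 : (LinearMap.mulRight K (-a)) ^ N = 0 := by
    rw [LinearMap.pow_mulRight, neg_pow_zero h]; ext; simp
  have hc : Commute (LinearMap.mulLeft K a) (LinearMap.mulRight K (-a)) :=
    LinearMap.ext fun m => by
      simp [Module.End.mul_apply, mul_assoc]
  have h3 := ex_add (K := K) hc h1 h2
  have h4 : LinearMap.mulLeft K a + LinearMap.mulRight K (-a) = adR K a := by
    refine LinearMap.ext fun m => ?_
    simp [adR, sub_eq_add_neg]
  rw [h4] at h3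
  have h5 := LinearMap.congr_fun h3 m
  rw [Module.End.mul_apply] at h5
  have h6 : ex K N (LinearMap.mulRight K (-a)) m = m * ex K N (-a) := by
    simp only [ex, LinearMap.sum_apply, LinearMap.smul_apply, LinearMap.pow_mulRight,
      LinearMap.mulRight_apply, Finset.mul_sum, mul_smul_comm]
  have h7 : ∀ x, ex K N (LinearMap.mulLeft K a) x = ex K N a * x := by
    intro x
    simp only [ex, LinearMap.sum_apply, LinearMap.smul_apply, LinearMap.pow_mulLeft,
      LinearMap.mulLeft_apply, Finset.sum_mul, smul_mul_assoc]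
  rw [h6, h7] at h5
  rw [mul_assoc, ← h5, ex, LinearMap.sum_apply]
  rfl

/-- a submodule stable under `ad a` is stable under conjugation by `exp a` -/
theorem conj_mem {N : ℕ} {a : R} (h : a ^ N = 0) {M : Submodule K R}
    (hM : ∀ m ∈ M, a * m - m * a ∈ M) {m : R} (hm : m ∈ M) :
    ex K N a * m * ex K N (-a) ∈ M := by
  rw [ex_conj h]
  refine Submodule.sum_mem _ fun i hi => Submodule.smul_mem _ _ ?_
  clear hi
  induction i with
  | zero => exact hm
  | succ i ih =>
    rw [pow_succ', Module.End.mul_apply, adR_apply]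
    exact hM _ ih

/-- compatibility of exponentials with Lie homomorphisms -/
theorem conj_map {R' : Type} [Ring R'] [Algebra K R'] (ρ : R →ₗ[K] R') (P : R → Prop)
    (hP : ∀ a b, P a → P b → P (a * b - b * a))
    (hρ : ∀ a b, P a → P b → ρ (a * b - b * a) = ρ a * ρ b - ρ b * ρ a)
    {N : ℕ} {a m : R} (ha : a ^ N = 0) (ha' : (ρ a) ^ N = 0) (hPa : P a) (hPm : P m) :
    ex K N (ρ a) * ρ m * ex K N (-ρ a) = ρ (ex K N a * m * ex K N (-a)) := by
  have h : ∀ i, P (((adR K a) ^ i) m) ∧ ρ (((adR K a) ^ i) m) = ((adR K (ρ a)) ^ i) (ρ m) := by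
    intro i
    induction i with
    | zero => exact ⟨hPm, rfl⟩
    | succ i ih =>
      rw [pow_succ', Module.End.mul_apply, adR_apply, pow_succ', Module.End.mul_apply, adR_apply,
        hρ _ _ hPa ih.1, ih.2]
      exact ⟨hP _ _ hPa ih.1, rfl⟩
  rw [ex_conj ha, ex_conj ha', map_sum]
  refine Finset.sum_congr rfl fun i _ => ?_
  rw [map_smul, (h i).2]

end Pool.Agent.Q8.HK
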