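import Mathlib

/-!
# The extended Mukai space

`K × V × K` with the form `q(v,v') − a b' − a' b`, its skew endomorphisms and the standard
operators.
-/

set_option autoImplicit false
set_option linter.unusedSimpArgs false

namespace Pool.Agent.Q8.HK

variable {K : Type} [Field K] {V : Type} [AddCommGroup V] [Module K V]

/-- The Mukai form `q(v,v') − a b' − b a'` on `K × V × K`. -/
def bil (q : V →ₗ[K] V →ₗ[K] K) : (K × V × K) →ₗ[K] (K × V × K) →ₗ[K] K :=
  LinearMap.mk₂ K (fun x y => q x.2.1 y.2.1 - x.1 * y.2.2 - x.2.2 * y.1)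
    (fun x y z => by simp only [Prod.fst_add, Prod.snd_add, map_add, LinearMap.add_apply]; ring)
    (fun c x y => by
      simp only [Prod.smul_fst, Prod.smul_snd, map_smul, LinearMap.smul_apply, smul_eq_mul]; ring)
    (fun x y z => by simp only [Prod.fst_add, Prod.snd_add, map_add]; ring)
    (fun c x y => by
      simp only [Prod.smul_fst, Prod.smul_snd, map_smul, smul_eq_mul]; ring)

theorem bil_apply (q : V →ₗ[K] V →ₗ[K] K) (x y : K × V × K) :
    bil q x y = q x.2.1 y.2.1 - x.1 * y.2.2 - x.2.2 * y.1 := rfl

/-- Skew endomorphisms of the extended Mukai space. -/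
def Skew (q : V →ₗ[K] V →ₗ[K] K) (a : Module.End K (K × V × K)) : Prop :=
  ∀ x y, bil q (a x) y = - bil q x (a y)

/-- The operator `e_x : (a, v, b) ↦ (0, a x, q(x,v))`. -/
def E (q : V →ₗ[K] V →ₗ[K] K) (x : V) : Module.End K (K × V × K) where
  toFun z := (0, z.1 • x, q x z.2.1)
  map_add' a b := by
    simp only [Prod.fst_add, Prod.snd_add, map_add, add_smul, Prod.mk_add_mk, add_zero]
  map_smul' c a := by
    simp only [Prod.smul_fst, Prod.smul_snd, map_smul, smul_eq_mul, mul_smul, Prod.smul_mk,
      smul_zero, RingHom.id_apply, mul_zero]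

/-- The operator `f_y : (a, v, b) ↦ (2 q(y,v), 2 b y, 0)`. -/
def F (q : V →ₗ[K] V →ₗ[K] K) (y : V) : Module.End K (K × V × K) where
  toFun z := (2 * q y z.2.1, (2 * z.2.2) • y, 0)
  map_add' a b := by
    simp only [Prod.fst_add, Prod.snd_add, map_add, mul_add, add_smul, Prod.mk_add_mk, add_zero]
  map_smul' c a := by
    simp only [Prod.smul_fst, Prod.smul_snd, map_smul, smul_eq_mul, Prod.smul_mk,
      smul_zero, RingHom.id_apply, mul_zero, Prod.mk.injEq]
    refine ⟨by ring, ?_, trivial⟩
    rw [smul_smul]; congr 1; ring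

/-- The degree operator `h : (a, v, b) ↦ (−2a, 0, 2b)`. -/
def H (K V : Type) [Field K] [AddCommGroup V] [Module K V] : Module.End K (K × V × K) where
  toFun z := (-2 * z.1, 0, 2 * z.2.2)
  map_add' a b := by
    simp only [Prod.fst_add, Prod.snd_add, mul_add, Prod.mk_add_mk, add_zero]
  map_smul' c a := by
    simp only [Prod.smul_fst, Prod.smul_snd, smul_eq_mul, Prod.smul_mk,
      smul_zero, RingHom.id_apply, Prod.mk.injEq]
    refine ⟨by ring, trivial, by ring⟩

/-- An endomorphism of `V`, extended by zero. -/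
def S (s : Module.End K V) : Module.End K (K × V × K) where
  toFun z := (0, s z.2.1, 0)
  map_add' a b := by
    simp only [Prod.fst_add, Prod.snd_add, map_add, Prod.mk_add_mk, add_zero]
  map_smul' c a := by
    simp only [Prod.smul_snd, Prod.smul_fst, map_smul, Prod.smul_mk, smul_zero, RingHom.id_apply,
      mul_zero, smul_eq_mul]

/-- The endomorphism `z ↦ (y,z) x − (x,z) y`. -/
def W (q : V →ₗ[K] V →ₗ[K] K) (x y : K × V × K) : Module.End K (K × V × K) where
  toFun z := bil q y z • x - bil q x z • y
  map_add' a b := by simp only [map_add, add_smul]; abel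
  map_smul' c a := by
    simp only [map_smul, smul_eq_mul, mul_smul, smul_sub, RingHom.id_apply]

/-- The vector `α = (1,0,0)`. -/
def al (K V : Type) [Field K] [AddCommGroup V] [Module K V] : K × V × K := (1, 0, 0)

/-- The vector `β = (0,0,1)`. -/
def be (K V : Type) [Field K] [AddCommGroup V] [Module K V] : K × V × K := (0, 0, 1)

/-- The inclusion of `V`. -/
def vv (K : Type) {V : Type} [Field K] [AddCommGroup V] [Module K V] (v : V) : K × V × K :=
  (0, v, 0)

theorem E_apply (q : V →ₗ[K] V →ₗ[K] K) (x : V) (z : K × V × K) :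
    E q x z = (0, z.1 • x, q x z.2.1) := rfl

theorem F_apply (q : V →ₗ[K] V →ₗ[K] K) (y : V) (z : K × V × K) :
    F q y z = (2 * q y z.2.1, (2 * z.2.2) • y, 0) := rfl

theorem H_apply (z : K × V × K) : H K V z = (-2 * z.1, 0, 2 * z.2.2) := rfl

theorem S_apply (s : Module.End K V) (z : K × V × K) : S s z = (0, s z.2.1, 0) := rfl

theorem W_apply (q : V →ₗ[K] V →ₗ[K] K) (x y z : K × V × K) :
    W q x y z = bil q y z • x - bil q x z • y := rfl

theorem ext_eta (z : K × V × K) : z = z.1 • al K V + vv K z.2.1 + z.2.2 • be K V := by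
  obtain ⟨a, v, b⟩ := z
  simp [al, vv, be]

section sym

variable {q : V →ₗ[K] V →ₗ[K] K} (hq : ∀ x y, q x y = q y x)

include hq

theorem bil_symm (x y : K × V × K) : bil q x y = bil q y x := by
  rw [bil_apply, bil_apply, hq]; ring

theorem skew_W (x y : K × V × K) : Skew q (W q x y) := by
  intro z w
  simp only [W_apply, map_sub, map_smul, LinearMap.sub_apply, LinearMap.smul_apply, smul_eq_mul]
  rw [bil_symm hq z x, bil_symm hq z y]
  ring

theorem skew_E (x : V) : Skew q (E q x) := by
  intro z w
  simp only [bil_apply, E_apply, map_smul, LinearMap.smul_apply, smul_eq_mul]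
  rw [hq z.2.1 x]; ring

theorem skew_F (x : V) : Skew q (F q x) := by
  intro z w
  simp only [bil_apply, F_apply, map_smul, LinearMap.smul_apply, smul_eq_mul]
  rw [hq z.2.1 x]; ring

omit hq in
theorem skew_H : Skew q (H K V) := by
  intro z w
  simp only [bil_apply, H_apply, map_zero, LinearMap.zero_apply]
  ring

omit hq in
theorem skew_S {s : Module.End K V} (hs : ∀ x y, q (s x) y = - q x (s y)) : Skew q (S s) := by
  intro z w
  simp only [bil_apply, S_apply, hs]
  ring

omit hq in
theorem Skew.lie {a b : Module.End K (K × V × K)} (ha : Skew q a) (hb : Skew q b) :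
    Skew q (a * b - b * a) := by
  intro x y
  simp only [LinearMap.sub_apply, Module.End.mul_apply, map_sub]
  rw [ha (b x), hb x, hb (a x), ha x]
  ring

omit hq in
theorem Skew.add {a b : Module.End K (K × V × K)} (ha : Skew q a) (hb : Skew q b) :
    Skew q (a + b) := by
  intro x y
  simp only [LinearMap.add_apply, map_add]
  rw [ha, hb]; ring

omit hq in
theorem Skew.smul {a : Module.End K (K × V × K)} (c : K) (ha : Skew q a) :
    Skew q (c • a) := by
  intro x y
  simp only [LinearMap.smul_apply, map_smul, smul_eq_mul]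
  rw [ha]; ring

/-- every skew endomorphism is `e_x + f_y + c h + s` -/
theorem skew_decomp [NeZero (2 : K)] {a : Module.End K (K × V × K)} (ha : Skew q a) :
    ∃ (x y : V) (c : K) (s : Module.End K V), (∀ u v, q (s u) v = - q u (s v)) ∧
      a = E q x + F q y + c • H K V + S s := by
  have h2 : (2 : K) ≠ 0 := NeZero.ne 2
  set s : Module.End K V :=
    LinearMap.fst K V K ∘ₗ LinearMap.snd K K (V × K) ∘ₗ a ∘ₗ
      LinearMap.inr K K (V × K) ∘ₗ LinearMap.inl K V K with hs
  have hsv : ∀ v, s v = (a (vv K v)).2.1 := fun v => rfl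
  set p := (a (al K V)).1 with hp
  set u := (a (al K V)).2.1 with hu
  set w := (a (be K V)).2.1 with hw
  have e1 : (a (al K V)).2.2 = 0 := by
    have h := ha (al K V) (al K V)
    simp only [bil_apply, al, map_zero, LinearMap.zero_apply] at h
    have h' : 2 * (a (1, 0, 0)).2.2 = 0 := by linear_combination -h
    exact (mul_eq_zero.1 h').resolve_left h2
  have e2 : (a (be K V)).1 = 0 := by
    have h := ha (be K V) (be K V)
    simp only [bil_apply, be, map_zero, LinearMap.zero_apply] at h
    have h' : 2 * (a (0, 0, 1)).1 = 0 := by linear_combination -h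
    exact (mul_eq_zero.1 h').resolve_left h2
  have e3 : (a (be K V)).2.2 = - p := by
    have h := ha (al K V) (be K V)
    simp only [bil_apply, al, be, map_zero, LinearMap.zero_apply] at h
    rw [hp]; simp only [al, be]
    linear_combination -h
  have e4 : ∀ v, (a (vv K v)).1 = q w v := by
    intro v
    have h := ha (vv K v) (be K V)
    simp only [bil_apply, vv, be, map_zero] at h
    rw [hw, hq]; simp only [vv, be]
    linear_combination -h
  have e5 : ∀ v, (a (vv K v)).2.2 = q u v := by
    intro v
    have h := ha (vv K v) (al K V)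
    simp only [bil_apply, vv, al, map_zero] at h
    rw [hu, hq]; simp only [vv, al]
    linear_combination -h
  refine ⟨u, (2 : K)⁻¹ • w, -(2 : K)⁻¹ * p, s, ?_, ?_⟩
  · intro x y
    have h := ha (vv K x) (vv K y)
    simp only [bil_apply, vv] at h
    rw [hsv, hsv]; simp only [vv]
    linear_combination h
  · refine LinearMap.ext fun z => ?_
    have hz : a z = z.1 • a (al K V) + a (vv K z.2.1) + z.2.2 • a (be K V) := by
      conv_lhs => rw [ext_eta z]
      rw [map_add, map_add, map_smul, map_smul]
    rw [hz]
    simp only [LinearMap.add_apply, E_apply, F_apply, LinearMap.smul_apply, H_apply, S_apply]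
    refine Prod.ext ?_ (Prod.ext ?_ ?_)
    · simp only [Prod.fst_add, Prod.smul_fst, smul_eq_mul, e2, e4, map_smul,
        LinearMap.smul_apply, ← hp]
      field_simp
      ring
    · simp only [Prod.snd_add, Prod.fst_add, Prod.smul_snd, Prod.smul_fst, smul_zero, hsv,
        ← hu, ← hw, smul_smul]
      have : 2 * z.2.2 * (2 : K)⁻¹ = z.2.2 := by field_simp
      rw [this]; abel
    · simp only [Prod.snd_add, Prod.smul_snd, smul_eq_mul, e1, e5, e3]
      field_simp
      ring

end sym

end Pool.Agent.Q8.HK
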