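import Mathlib
import Pool.Agent.Q8.HK.Ext
import Pool.Agent.Q8.HK.Exp

/-!
# Cohomological data of a hyper-Kähler variety
-/

set_option autoImplicit false
set_option linter.unusedSimpArgs false
set_option linter.style.haveILetI false

open Module

namespace Pool.Agent.Q8.HK

section base

variable {A : Type} [Ring A] [Algebra ℂ A] {m : ℕ}

/-- Elements of degree `k`, for a basis `b` of homogeneous elements with degrees `d`. -/
def grade (b : Basis (Fin m) ℂ A) (d : Fin m → ℕ) (k : ℕ) : Submodule ℂ A where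
  carrier := {x | ∀ j, d j ≠ k → b.repr x j = 0}
  add_mem' {x y} hx hy j hj := by
    rw [map_add, Finsupp.add_apply, hx j hj, hy j hj, add_zero]
  zero_mem' j _ := by rw [map_zero, Finsupp.zero_apply]
  smul_mem' c x hx j hj := by
    rw [map_smul, Finsupp.smul_apply, hx j hj, smul_zero]

/-- Rational elements: all coordinates in the basis `b` are rational. -/
def IsRat (b : Basis (Fin m) ℂ A) (x : A) : Prop := ∀ j, ∃ r : ℚ, b.repr x j = (r : ℂ)

end base

/-- The cohomology of a projective hyper-Kähler variety `X` of dimension `2n`: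
`A = H^*(X, ℂ)`, `V = H²(X, ℂ)`. -/
structure Coh (n : ℕ) (A V : Type) [Ring A] [Algebra ℂ A] [AddCommGroup V] [Module ℂ V] where
  /-- the total Betti number -/
  m : ℕ
  /-- a homogeneous basis of `H^*(X, ℚ)` -/
  b : Basis (Fin m) ℂ A
  /-- degrees of the basis vectors -/
  d : Fin m → ℕ
  n_pos : 0 < n
  one_mem : (1 : A) ∈ grade b d 0
  one_rat : IsRat b (1 : A)
  mul_mem : ∀ i j x y, x ∈ grade b d i → y ∈ grade b d j → x * y ∈ grade b d (i + j)
  mul_rat : ∀ x y, IsRat b x → IsRat b y → IsRat b (x * y)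
  comm : ∀ i j x y, x ∈ grade b d i → y ∈ grade b d j → x * y = (-1 : ℂ) ^ (i * j) • (y * x)
  connected : ∀ x ∈ grade b d 0, ∃ c : ℂ, x = c • (1 : A)
  /-- integration over `X` -/
  int : A →ₗ[ℂ] ℂ
  int_grade : ∀ k, k ≠ 4 * n → ∀ x ∈ grade b d k, int x = 0
  int_rat : ∀ x, IsRat b x → ∃ r : ℚ, int x = (r : ℂ)
  duality : ∀ x, (∀ y, int (x * y) = 0) → x = 0
  /-- the inclusion `H²(X, ℂ) ⊂ H^*(X, ℂ)` -/
  i : V →ₗ[ℂ] A
  i_inj : Function.Injective i
  i_range : ∀ x, x ∈ grade b d 2 ↔ ∃ v, i v = x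
  /-- the Beauville–Bogomolov–Fujiki form -/
  q : V →ₗ[ℂ] V →ₗ[ℂ] ℂ
  q_symm : ∀ x y, q x y = q y x
  q_nondeg : ∀ x, (∀ y, q x y = 0) → x = 0
  q_rat : ∀ x y, IsRat b (i x) → IsRat b (i y) → ∃ r : ℚ, q x y = (r : ℂ)
  /-- the Fujiki constant -/
  c : ℚ
  c_ne : c ≠ 0
  fujiki : ∀ x, int (i x ^ (2 * n)) = (c : ℂ) * q x x ^ n
  /-- the Looijenga–Lunts–Verbitsky representation of the orthogonal algebra of the extended
  Mukai space; only its values on skew endomorphisms matter -/
  rho : Module.End ℂ (ℂ × V × ℂ) →ₗ[ℂ] Module.End ℂ A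
  rho_lie : ∀ a a', Skew q a → Skew q a' → rho (a * a' - a' * a) = rho a * rho a' - rho a' * rho a
  rho_E : ∀ x y, rho (E q x) y = i x * y
  rho_H : ∀ k, ∀ x ∈ grade b d k, rho (H ℂ V) x = ((k : ℂ) - 2 * n) • x
  rho_S : ∀ t : Module.End ℂ V, (∀ x y, q (t x) y = - q x (t y)) →
    ∀ x y, rho (S t) (x * y) = rho (S t) x * y + x * rho (S t) y
  rho_rat : ∀ v x, IsRat b (i v) → IsRat b x → IsRat b (rho (F q v) x)
  /-- the class of a holomorphic symplectic form -/
  s : V
  /-- its complex conjugate -/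
  s' : V
  s_iso : q s s = 0
  s'_iso : q s' s' = 0
  s_s' : q s s' ≠ 0
  /-- an ample class -/
  l : V
  l_rat : IsRat b (i l)
  l_s : q l s = 0
  l_s' : q l s' = 0
  l_l : q l l ≠ 0
  /-- Hodge index theorem -/
  index : ∀ v, IsRat b (i v) → q v s = 0 → q v s' = 0 → q l v = 0 → q v v = 0 → v = 0

namespace Coh

variable {n : ℕ} {A V : Type} [Ring A] [Algebra ℂ A] [AddCommGroup V] [Module ℂ V]
variable (X : Coh n A V)

include X in
theorem fin : Module.Finite ℂ A := Module.Finite.of_basis X.b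

include X in
theorem finV : Module.Finite ℂ V :=
  haveI := X.fin
  Module.Finite.of_injective X.i X.i_inj

theorem b_mem (j : Fin X.m) : X.b j ∈ grade X.b X.d (X.d j) := by
  intro k hk
  rw [Basis.repr_self, Finsupp.single_apply, if_neg]
  rintro rfl
  exact hk rfl

theorem b_rat (j : Fin X.m) : IsRat X.b (X.b j) := by
  intro k
  rw [Basis.repr_self, Finsupp.single_apply]
  split_ifs
  · exact ⟨1, by simp⟩
  · exact ⟨0, by simp⟩

theorem ext_b {f g : Module.End ℂ A} (h : ∀ j, f (X.b j) = g (X.b j)) : f = g :=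
  X.b.ext h

theorem expand (f : Module.End ℂ A) (x : A) (j : Fin X.m) :
    X.b.repr (f x) j = ∑ k, X.b.repr x k * X.b.repr (f (X.b k)) j := by
  conv_lhs => rw [← X.b.sum_repr x]
  rw [map_sum, map_sum, Finsupp.finsetSum_apply]
  refine Finset.sum_congr rfl fun k _ => ?_
  rw [map_smul, map_smul, Finsupp.smul_apply, smul_eq_mul]

theorem H_repr (x : A) (j : Fin X.m) :
    X.b.repr (X.rho (H ℂ V) x) j = ((X.d j : ℂ) - 2 * n) * X.b.repr x j := by
  rw [X.expand, Finset.sum_eq_single j]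
  · rw [X.rho_H _ _ (X.b_mem j), map_smul, Finsupp.smul_apply, Basis.repr_self,
      Finsupp.single_eq_same, smul_eq_mul]
    ring
  · intro k _ hk
    rw [X.rho_H _ _ (X.b_mem k), map_smul, Finsupp.smul_apply, Basis.repr_self,
      Finsupp.single_apply, if_neg hk]
    simp
  · intro h
    exact absurd (Finset.mem_univ j) h

theorem mem_grade_iff (x : A) (k : ℕ) :
    x ∈ grade X.b X.d k ↔ X.rho (H ℂ V) x = ((k : ℂ) - 2 * n) • x := by
  refine ⟨X.rho_H k x, fun h j hj => ?_⟩
  have h1 := X.H_repr x j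
  rw [h, map_smul, Finsupp.smul_apply, smul_eq_mul] at h1
  have h2 : ((k : ℂ) - X.d j) * X.b.repr x j = 0 := by linear_combination h1
  refine (mul_eq_zero.1 h2).resolve_left (sub_ne_zero.2 ?_)
  exact_mod_cast Ne.symm hj

/-- operators of degree `e` -/
def DegOp (e : ℤ) (f : Module.End ℂ A) : Prop :=
  ∀ j k, (X.d j : ℤ) ≠ X.d k + e → X.b.repr (f (X.b k)) j = 0

theorem DegOp.of_comm {e : ℤ} {f : Module.End ℂ A}
    (h : X.rho (H ℂ V) * f - f * X.rho (H ℂ V) = (e : ℂ) • f) : X.DegOp e f := by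
  intro j k hjk
  have h1 := congrArg (fun x => X.b.repr x j) (LinearMap.congr_fun h (X.b k))
  simp only [LinearMap.sub_apply, Module.End.mul_apply, LinearMap.smul_apply, map_sub,
    Finsupp.sub_apply, H_repr, map_smul, Finsupp.smul_apply, smul_eq_mul] at h1
  rw [X.rho_H _ _ (X.b_mem k), map_smul, map_smul, Finsupp.smul_apply, smul_eq_mul] at h1
  have h2 : ((X.d j : ℂ) - (X.d k + e)) * X.b.repr (f (X.b k)) j = 0 := by
    linear_combination h1
  refine (mul_eq_zero.1 h2).resolve_left (sub_ne_zero.2 ?_)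
  exact_mod_cast hjk

variable {X}

theorem DegOp.mul {e e' : ℤ} {f g : Module.End ℂ A} (hf : X.DegOp e f) (hg : X.DegOp e' g) :
    X.DegOp (e + e') (f * g) := by
  intro j k hjk
  rw [Module.End.mul_apply, X.expand]
  refine Finset.sum_eq_zero fun p _ => ?_
  by_cases h1 : (X.d j : ℤ) = X.d p + e
  · by_cases h2 : (X.d p : ℤ) = X.d k + e'
    · exfalso; apply hjk; rw [h1, h2]; ring
    · rw [hg p k h2, zero_mul]
  · rw [hf j p h1, mul_zero]

theorem DegOp.smul {e : ℤ} {f : Module.End ℂ A} (c : ℂ) (hf : X.DegOp e f) :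
    X.DegOp e (c • f) := by
  intro j k hjk
  rw [LinearMap.smul_apply, map_smul, Finsupp.smul_apply, hf j k hjk, smul_zero]

theorem DegOp.pow {e : ℤ} {f : Module.End ℂ A} (hf : X.DegOp e f) (N : ℕ) :
    X.DegOp (N * e) (f ^ N) := by
  induction N with
  | zero =>
    intro j k hjk
    rw [pow_zero, Module.End.one_apply, Basis.repr_self, Finsupp.single_apply, if_neg]
    rintro rfl
    apply hjk
    simp
  | succ N ih =>
    rw [pow_succ]
    have := ih.mul hf
    have h : (N * e + e : ℤ) = (N + 1 : ℕ) * e := by push_cast; ring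
    rwa [h] at this

variable (X)

theorem d_le (j : Fin X.m) : X.d j ≤ 4 * n := by
  by_contra hj
  push Not at hj
  have h1 : X.b j = 0 := by
    refine X.duality _ fun y => ?_
    rw [← X.b.sum_repr y, Finset.mul_sum, map_sum]
    refine Finset.sum_eq_zero fun k _ => ?_
    rw [mul_smul_comm, map_smul,
      X.int_grade (X.d j + X.d k) (by omega) _ (X.mul_mem _ _ _ _ (X.b_mem j) (X.b_mem k)),
      smul_zero]
  exact X.b.ne_zero j h1

variable {X}

theorem DegOp.eq_zero {e : ℤ} {f : Module.End ℂ A} (hf : X.DegOp e f)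
    (he : e < -(4 * n) ∨ (4 * n : ℤ) < e) : f = 0 := by
  refine X.ext_b fun k => ?_
  rw [LinearMap.zero_apply, ← X.b.repr.map_eq_zero_iff]
  refine Finsupp.ext fun j => ?_
  rw [Finsupp.zero_apply]
  apply hf
  have h1 := X.d_le j
  have h2 := X.d_le k
  omega

variable (X)

theorem EH (x : V) : H ℂ V * E X.q x - E X.q x * H ℂ V = (2 : ℂ) • E X.q x := by
  refine LinearMap.ext fun z => ?_
  simp only [LinearMap.sub_apply, Module.End.mul_apply, LinearMap.smul_apply, E_apply, H_apply,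
    map_zero, Prod.mk_sub_mk, Prod.smul_mk, smul_zero, Prod.mk.injEq, smul_eq_mul]
  refine ⟨by ring, ?_, by ring⟩
  module

theorem FH (x : V) : H ℂ V * F X.q x - F X.q x * H ℂ V = (-2 : ℂ) • F X.q x := by
  refine LinearMap.ext fun z => ?_
  simp only [LinearMap.sub_apply, Module.End.mul_apply, LinearMap.smul_apply, F_apply, H_apply,
    map_zero, Prod.mk_sub_mk, Prod.smul_mk, smul_zero, Prod.mk.injEq, smul_eq_mul]
  refine ⟨by ring, ?_, by ring⟩
  module

theorem degE (x : V) : X.DegOp 2 (X.rho (E X.q x)) := by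
  refine DegOp.of_comm X ?_
  rw [← X.rho_lie _ _ skew_H (skew_E X.q_symm x), X.EH, map_smul]
  norm_num

theorem degF (x : V) : X.DegOp (-2) (X.rho (F X.q x)) := by
  refine DegOp.of_comm X ?_
  rw [← X.rho_lie _ _ skew_H (skew_F X.q_symm x), X.FH, map_smul]
  norm_num

theorem degH : X.DegOp 0 (X.rho (H ℂ V)) := by
  refine DegOp.of_comm X ?_
  simp

theorem nilE (x : V) : (X.rho (E X.q x)) ^ (2 * n + 1) = 0 := by
  refine ((X.degE x).pow (2 * n + 1)).eq_zero (Or.inr ?_)
  push_cast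
  omega

theorem nilF (x : V) : (X.rho (F X.q x)) ^ (2 * n + 1) = 0 := by
  refine ((X.degF x).pow (2 * n + 1)).eq_zero (Or.inl ?_)
  push_cast
  omega

end Coh

end Pool.Agent.Q8.HK
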