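import Mathlib
import Pool.Agent.Helper462.Cb.L1
import Pool.Agent.Helper462.Cb.L2
import Pool.Agent.Helper462.Cb.L4
import Pool.Agent.Q8.HK.Ext

/-!
# Complete reducibility for the orthogonal algebra of the extended Mukai space
-/

set_option autoImplicit false
set_option linter.unusedSimpArgs false
set_option linter.style.haveILetI false

open Module LieAlgebra

namespace Pool.Agent.Q8.HK

section

attribute [local instance 100] LieRing.ofAssociativeRing

/-- brackets with elements of the radical act nilpotently (copied from `Q50.SS.Weyl`) -/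
theorem nil {C : Type} [Field C] [CharZero C] [IsAlgClosed C]
    {L : Type} [LieRing L] [LieAlgebra C L] [FiniteDimensional C L] (z x y : L)
    (hz : z ∈ radical C L) (n : ℕ) : ∀ (V : Type) [AddCommGroup V] [Module C V]
      [LieRingModule L V] [LieModule C L V] [FiniteDimensional C V], finrank C V = n →
      ∃ k : ℕ, ∀ v : V, (fun v : V => ⁅⁅z, x⁆, ⁅y, v⁆⁆)^[k] v = 0 := by
  induction n using Nat.strong_induction_on with
  | _ n ih =>
    intro V _ _ _ _ _ hn
    have : IsAtomic (LieSubmodule C L V) := inferInstance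
    rcases IsAtomic.eq_bot_or_exists_atom_le (⊤ : LieSubmodule C L V) with h | ⟨S, hS, -⟩
    · refine ⟨0, fun v => ?_⟩
      have h1 : v ∈ (⊤ : LieSubmodule C L V) := trivial
      rw [h, LieSubmodule.mem_bot] at h1
      exact h1
    · obtain ⟨c, hc⟩ := Cb.a19237_R S hS z hz
      have hlt : finrank C (V ⧸ S.toSubmodule) < n := by
        have h1 := Submodule.finrank_quotient_add_finrank S.toSubmodule
        have h2 : 0 < finrank C S.toSubmodule := by
          rw [Module.finrank_pos_iff, Submodule.nontrivial_iff_ne_bot]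
          intro h3
          apply hS.1
          rw [← LieSubmodule.toSubmodule_inj, h3]
          rfl
        omega
      obtain ⟨k, hk⟩ := ih _ hlt (V ⧸ S) rfl
      refine ⟨k + 1, fun v => ?_⟩
      have h1 : ∀ (j : ℕ) (v : V), (LieSubmodule.Quotient.mk
          ((fun v : V => ⁅⁅z, x⁆, ⁅y, v⁆⁆)^[j] v) : V ⧸ S) =
          (fun v : V ⧸ S => ⁅⁅z, x⁆, ⁅y, v⁆⁆)^[j] (LieSubmodule.Quotient.mk v) := by
        intro j
        induction j with
        | zero => intro v; rfl
        | succ j ih' =>
          intro v
          rw [Function.iterate_succ_apply, Function.iterate_succ_apply, ih']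
          rfl
      have h2 : (fun v : V => ⁅⁅z, x⁆, ⁅y, v⁆⁆)^[k] v ∈ S := by
        rw [← LieSubmodule.Quotient.mk_eq_zero', h1, hk]
      rw [Function.iterate_succ_apply']
      set s := (fun v : V => ⁅⁅z, x⁆, ⁅y, v⁆⁆)^[k] v with hs
      have h3 : ⁅y, s⁆ ∈ S := S.lie_mem h2
      show ⁅⁅z, x⁆, ⁅y, s⁆⁆ = 0
      rw [lie_lie, hc _ (S.lie_mem h3), hc _ h3, lie_smul, sub_self]

variable {K : Type} [Field K] {V : Type} [AddCommGroup V] [Module K V]

/-- the Lie algebra of skew endomorphisms -/
def so (q : V →ₗ[K] V →ₗ[K] K) : LieSubalgebra K (Module.End K (K × V × K)) where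
  carrier := {a | Skew q a}
  add_mem' ha hb := ha.add hb
  zero_mem' := by
    intro x y
    simp
  smul_mem' c a ha := Skew.smul c ha
  lie_mem' := fun {x y} hx hy => by
    rw [Ring.lie_def]
    exact Skew.lie hx hy

theorem mem_so (q : V →ₗ[K] V →ₗ[K] K) (a : Module.End K (K × V × K)) :
    a ∈ so q ↔ Skew q a := Iff.rfl

theorem trace_W [FiniteDimensional K V] {q : V →ₗ[K] V →ₗ[K] K} (hq : ∀ x y, q x y = q y x)
    {a : Module.End K (K × V × K)} (ha : Skew q a) (x y : K × V × K) :
    LinearMap.trace K _ (a * W q x y) = 2 * bil q (a x) y := by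
  have h : a * W q x y = (bil q y).smulRight (a x) - (bil q x).smulRight (a y) := by
    ext z
    all_goals
      simp [W_apply]
  rw [h, map_sub, LinearMap.trace_smulRight, LinearMap.trace_smulRight, bil_symm hq y (a x),
    ← neg_eq_iff_eq_neg.2 (ha x y)]
  ring

theorem bil_nondeg {q : V →ₗ[K] V →ₗ[K] K} (hn : ∀ x, (∀ y, q x y = 0) → x = 0)
    (x : K × V × K) (h : ∀ y, bil q x y = 0) : x = 0 := by
  obtain ⟨a, v, b⟩ := x
  have h1 := h (0, 0, 1)
  have h2 := h (1, 0, 0)
  simp only [bil_apply, map_zero] at h1 h2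
  have ha : a = 0 := by linear_combination -h1
  have hb : b = 0 := by linear_combination -h2
  have hv : v = 0 := by
    refine hn v fun y => ?_
    have h3 := h (0, y, 0)
    simp only [bil_apply] at h3
    linear_combination h3
  rw [ha, hb, hv]
  rfl

/-- the radical of the orthogonal algebra is trivial -/
theorem so_rad [CharZero K] [IsAlgClosed K] [FiniteDimensional K V]
    {q : V →ₗ[K] V →ₗ[K] K} (hq : ∀ x y, q x y = q y x)
    (hn : ∀ x, (∀ y, q x y = 0) → x = 0) (hV : ∃ x y, q x y ≠ 0) :
    HasTrivialRadical K (so q) := by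
  haveI : FiniteDimensional K (so q) :=
    inferInstanceAs (FiniteDimensional K (so q).toSubmodule)
  have h2 : (2 : K) ≠ 0 := two_ne_zero
  constructor
  rw [LieSubmodule.eq_bot_iff]
  intro z hz
  -- commutation
  have hcomm : ∀ X : Module.End K (K × V × K), Skew q X →
      (z : Module.End K (K × V × K)) * X = X * z := by
    intro X hX
    rw [← sub_eq_zero]
    have hs : Skew q ((z : Module.End K (K × V × K)) * X - X * z) := Skew.lie z.2 hX
    refine LinearMap.ext fun u => ?_
    refine bil_nondeg hn _ fun v => ?_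
    have hY : Skew q (W q u v) := skew_W hq u v
    obtain ⟨k, hk⟩ := nil z (⟨X, hX⟩ : so q) (⟨W q u v, hY⟩ : so q) hz _ (K × V × K) rfl
    have h1 : (((z : Module.End K (K × V × K)) * X - X * z) * W q u v) ^ k = 0 := by
      refine LinearMap.ext fun w => ?_
      have h2 : ∀ (j : ℕ) (w : K × V × K),
          ((((z : Module.End K (K × V × K)) * X - X * z) * W q u v) ^ j) w =
          (fun w : K × V × K => ⁅⁅z, (⟨X, hX⟩ : so q)⁆, ⁅(⟨W q u v, hY⟩ : so q), w⁆⁆)^[j] w := by
        intro j
        induction j with
        | zero => intro w; rfl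
        | succ j ih =>
          intro w
          rw [pow_succ, Module.End.mul_apply, ih, Function.iterate_succ_apply]
          rfl
      rw [h2, hk]
      rfl
    have h3 := (LinearMap.isNilpotent_trace_of_isNilpotent ⟨k, h1⟩).eq_zero
    rw [trace_W hq hs] at h3
    exact (mul_eq_zero.1 h3).resolve_left h2
  obtain ⟨z, hzs⟩ := z
  have hzs' : Skew q z := hzs
  have hz' : z = 0 := by
    -- `z` is scalar on the three parts
    obtain ⟨x, y, c, s, hs, hdec⟩ := skew_decomp hq hzs'
    have hH := hcomm _ (skew_H (q := q))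
    have hHa := LinearMap.congr_fun hH (al K V)
    have hHb := LinearMap.congr_fun hH (be K V)
    have hx : x = 0 := by
      have h3 := congrArg (fun t : K × V × K => t.2.1) hHa
      simp only [hdec, Module.End.mul_apply, LinearMap.add_apply, E_apply, F_apply, H_apply,
        LinearMap.smul_apply, S_apply, al] at h3
      simp at h3
      exact h3
    have hy : y = 0 := by
      have h3 := congrArg (fun t : K × V × K => t.2.1) hHb
      simp only [hdec, Module.End.mul_apply, LinearMap.add_apply, E_apply, F_apply, H_apply,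
        LinearMap.smul_apply, S_apply, be] at h3
      simp at h3
      exact h3
    have hE : ∀ u v : V, (-2 * c) • u = s u := by
      intro u v
      have h3 := congrArg (fun t : K × V × K => t.2.1)
        (LinearMap.congr_fun (hcomm _ (skew_E hq u)) (al K V))
      simp only [hdec, Module.End.mul_apply, LinearMap.add_apply, E_apply, F_apply, H_apply,
        LinearMap.smul_apply, S_apply, al, hx, hy] at h3
      simp at h3
      rw [h3]
      module
    obtain ⟨u, v, huv⟩ := hV
    have hc : c = 0 := by
      have h3 := hs u v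
      rw [← hE u v, ← hE v u, map_smul, LinearMap.smul_apply, map_smul, smul_eq_mul] at h3
      have h4 : 4 * (c * q u v) = 0 := by linear_combination -h3
      have h5 := (mul_eq_zero.1 h4).resolve_left (by norm_num)
      exact (mul_eq_zero.1 h5).resolve_right huv
    have hs0 : s = 0 := by
      refine LinearMap.ext fun u => ?_
      rw [← hE u u, hc]
      simp
    rw [hdec, hx, hy, hc, hs0]
    refine LinearMap.ext fun t => ?_
    simp [E_apply, F_apply, S_apply]
  exact Subtype.ext hz'

/-- complements of subrepresentations of endomorphisms -/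
theorem exists_compl [CharZero K] [IsAlgClosed K] [FiniteDimensional K V]
    {q : V →ₗ[K] V →ₗ[K] K} (hq : ∀ x y, q x y = q y x)
    (hn : ∀ x, (∀ y, q x y = 0) → x = 0) (hV : ∃ x y, q x y ≠ 0)
    {A : Type} [AddCommGroup A] [Module K A] [FiniteDimensional K A]
    (ρ : Module.End K (K × V × K) →ₗ[K] Module.End K A)
    (hρ : ∀ a b, Skew q a → Skew q b → ρ (a * b - b * a) = ρ a * ρ b - ρ b * ρ a)
    (N : Submodule K (Module.End K A))
    (hN : ∀ a, Skew q a → ∀ m ∈ N, ρ a * m - m * ρ a ∈ N) :
    ∃ C : Submodule K (Module.End K A),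
      (∀ a, Skew q a → ∀ m ∈ C, ρ a * m - m * ρ a ∈ C) ∧ IsCompl N C := by
  haveI : FiniteDimensional K (so q) :=
    inferInstanceAs (FiniteDimensional K (so q).toSubmodule)
  haveI := so_rad hq hn hV
  let f : so q →ₗ⁅K⁆ Module.End K A :=
    { toFun := fun a => ρ a
      map_add' := fun a b => by
        show ρ ((a : Module.End K (K × V × K)) + b) = _
        rw [map_add]
      map_smul' := fun c a => by
        show ρ (c • (a : Module.End K (K × V × K))) = _
        rw [map_smul]; rfl
      map_lie' := fun {a b} => by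
        show ρ (⁅(a : Module.End K (K × V × K)), (b : Module.End K (K × V × K))⁆) = _
        rw [Ring.lie_def, hρ _ _ a.2 b.2, Ring.lie_def] }
  letI i1 : LieRingModule (so q) (Module.End K A) :=
    LieRingModule.compLieHom (Module.End K A) f
  letI i2 : LieModule K (so q) (Module.End K A) :=
    LieModule.compLieHom (Module.End K A) f
  have hbr : ∀ (a : so q) (m : Module.End K A), ⁅a, m⁆ = ρ a * m - m * ρ a := by
    intro a m
    show ⁅f a, m⁆ = _
    rw [Ring.lie_def]
    rfl
  have hsplit : Cb.a19237_split K := fun L _ _ _ _ V _ _ _ _ _ V₁ h1 h2 =>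
    Cb.splitting (C := K) (L := L) (fun _ => Cb.casimir) V V₁ h1 h2
  let N' : LieSubmodule K (so q) (Module.End K A) :=
    { N with
      lie_mem := by
        intro a m hm
        rw [hbr]
        exact hN a a.2 m hm }
  obtain ⟨C, hC⟩ := Cb.a19237_B hsplit (so q) (Module.End K A) (by
    intro z hz
    rw [HasTrivialRadical.radical_eq_bot, LieSubmodule.mem_bot] at hz
    exact ⟨0, fun v => by rw [hz, zero_lie, zero_smul]⟩) N'
  refine ⟨C.toSubmodule, ?_, ?_⟩
  · intro a ha m hm
    have h1 : ⁅(⟨a, ha⟩ : so q), m⁆ ∈ C := C.lie_mem hm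
    rw [hbr] at h1
    exact h1
  · have h1 := hC.inf_eq_bot
    have h2 := hC.sup_eq_top
    constructor
    · rw [disjoint_iff, eq_bot_iff]
      rintro v ⟨hv1, hv2⟩
      have h3 : v ∈ N' ⊓ C := by
        rw [LieSubmodule.mem_inf]
        exact ⟨hv1, hv2⟩
      rw [h1, LieSubmodule.mem_bot] at h3
      rw [Submodule.mem_bot]
      exact h3
    · rw [codisjoint_iff, eq_top_iff]
      intro v _
      have h3 : v ∈ N' ⊔ C := by
        rw [h2]; trivial
      rw [LieSubmodule.mem_sup] at h3
      rw [Submodule.mem_sup]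
      exact h3

end

end Pool.Agent.Q8.HK
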