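import Mathlib
import Pool.Agent.Q8.HK.Data
import Pool.Agent.Q8.HK.Weyl

/-!
# The representation generated by the multiplication operators
-/

set_option autoImplicit false
set_option linter.unusedSimpArgs false
set_option linter.style.haveILetI false

open Module

namespace Pool.Agent.Q8.HK

/-! ### The operators `W` -/

section Wop

variable {K : Type} [Field K] {V : Type} [AddCommGroup V] [Module K V]
variable (q : V →ₗ[K] V →ₗ[K] K)

theorem W_E (x : V) : W q (be K V) (vv K x) = E q x := by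
  refine LinearMap.ext fun z => ?_
  simp only [W_apply, E_apply, be, vv, bil_apply]
  simp

theorem W_F (x : V) : (2 : K) • W q (al K V) (vv K x) = F q x := by
  refine LinearMap.ext fun z => ?_
  simp only [W_apply, LinearMap.smul_apply, F_apply, al, vv, bil_apply]
  simp [smul_smul]

theorem W_H : (2 : K) • W q (al K V) (be K V) = H K V := by
  refine LinearMap.ext fun z => ?_
  simp only [W_apply, LinearMap.smul_apply, H_apply, al, be, bil_apply]
  simp

/-- the rotation `z ↦ q(y,z) x − q(x,z) y` -/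
def rot (x y : V) : Module.End K V := (q y).smulRight x - (q x).smulRight y

theorem rot_apply (x y z : V) : rot q x y z = q y z • x - q x z • y := rfl

theorem W_V (x y : V) : W q (vv K x) (vv K y) = S (rot q x y) := by
  refine LinearMap.ext fun z => ?_
  simp only [W_apply, S_apply, vv, bil_apply, rot_apply]
  simp

theorem rot_skew (hq : ∀ x y, q x y = q y x) (x y u v : V) :
    q (rot q x y u) v = - q u (rot q x y v) := by
  simp only [rot_apply, map_sub, map_smul, LinearMap.sub_apply, LinearMap.smul_apply, smul_eq_mul]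
  rw [hq u x, hq u y]; ring

theorem W_swap (x y : K × V × K) : W q x y = - W q y x := by
  refine LinearMap.ext fun z => ?_
  simp only [W_apply, LinearMap.neg_apply, neg_sub]

theorem W_add_left (x x' y : K × V × K) : W q (x + x') y = W q x y + W q x' y := by
  refine LinearMap.ext fun z => ?_
  simp only [W_apply, LinearMap.add_apply, map_add, smul_add, add_smul]
  abel

theorem W_add_right (x y y' : K × V × K) : W q x (y + y') = W q x y + W q x y' := by
  refine LinearMap.ext fun z => ?_
  simp only [W_apply, LinearMap.add_apply, map_add, smul_add, add_smul]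
  abel

theorem W_smul_left (c : K) (x y : K × V × K) : W q (c • x) y = c • W q x y := by
  refine LinearMap.ext fun z => ?_
  simp only [W_apply, LinearMap.smul_apply, map_smul, smul_sub, smul_smul, smul_eq_mul,
    mul_comm c]

theorem W_smul_right (c : K) (x y : K × V × K) : W q x (c • y) = c • W q x y := by
  refine LinearMap.ext fun z => ?_
  simp only [W_apply, LinearMap.smul_apply, map_smul, smul_sub, smul_smul, smul_eq_mul,
    mul_comm c]

theorem W_lie {a : Module.End K (K × V × K)} (ha : Skew q a) (x y : K × V × K) :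
    a * W q x y - W q x y * a = W q (a x) y + W q x (a y) := by
  refine LinearMap.ext fun z => ?_
  have h1 : bil q x (a z) = - bil q (a x) z := by rw [ha x z, neg_neg]
  have h2 : bil q y (a z) = - bil q (a y) z := by rw [ha y z, neg_neg]
  simp only [W_apply, LinearMap.sub_apply, LinearMap.add_apply, Module.End.mul_apply, map_sub,
    map_smul, h1, h2, neg_smul]
  abel

theorem EF (hq : ∀ x y, q x y = q y x) (x y : V) :
    E q x * F q y - F q y * E q x = q x y • H K V + (2 : K) • S (rot q x y) := by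
  have h1 : E q x (al K V) = vv K x := by simp [E_apply, al, vv]
  have h2 : E q x (vv K y) = q x y • be K V := by simp [E_apply, be, vv]
  have h3 : E q x * F q y - F q y * E q x =
      (2 : K) • (E q x * W q (al K V) (vv K y) - W q (al K V) (vv K y) * E q x) := by
    rw [← W_F, mul_smul_comm, smul_mul_assoc]
    exact (smul_sub _ _ _).symm
  rw [h3, W_lie q (skew_E hq x), h1, h2, W_V, W_smul_right, smul_add, smul_comm, W_H, add_comm]

end Wop

namespace Coh

variable {n : ℕ} {A V : Type} [Ring A] [Algebra ℂ A] [AddCommGroup V] [Module ℂ V]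
variable (X : Coh n A V)

/-- multiplication operators -/
def LA (A : Type) [Ring A] [Algebra ℂ A] : Submodule ℂ (Module.End ℂ A) :=
  LinearMap.range (LinearMap.mul ℂ A)

theorem mem_LA (m : Module.End ℂ A) : m ∈ LA A ↔ ∃ y : A, ∀ x, m x = y * x := by
  constructor
  · rintro ⟨y, rfl⟩
    exact ⟨y, fun x => rfl⟩
  · rintro ⟨y, hy⟩
    exact ⟨y, (LinearMap.ext hy).symm⟩

theorem central (v : V) (y : A) : X.i v * y = y * X.i v := by
  have hv : X.i v ∈ grade X.b X.d 2 := (X.i_range _).2 ⟨v, rfl⟩
  rw [← X.b.sum_repr y, Finset.mul_sum, Finset.sum_mul]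
  refine Finset.sum_congr rfl fun j _ => ?_
  rw [mul_smul_comm, smul_mul_assoc, X.comm 2 (X.d j) _ _ hv (X.b_mem j)]
  rw [pow_mul]
  norm_num

/-- the lowering operators -/
noncomputable def La (y : V) : Module.End ℂ A := X.rho (F X.q y)

/-- the smallest subspace containing `B` and stable under the lowering operators -/
def gen (B : Submodule ℂ (Module.End ℂ A)) : Submodule ℂ (Module.End ℂ A) :=
  sInf {N | B ≤ N ∧ ∀ y, ∀ m ∈ N, X.La y * m - m * X.La y ∈ N}

theorem le_gen (B : Submodule ℂ (Module.End ℂ A)) : B ≤ X.gen B :=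
  le_sInf fun _ hN => hN.1

theorem gen_le {B N : Submodule ℂ (Module.End ℂ A)} (h : B ≤ N)
    (h' : ∀ y, ∀ m ∈ N, X.La y * m - m * X.La y ∈ N) : X.gen B ≤ N :=
  sInf_le ⟨h, h'⟩

theorem gen_F (B : Submodule ℂ (Module.End ℂ A)) (y : V) {m : Module.End ℂ A}
    (hm : m ∈ X.gen B) : X.La y * m - m * X.La y ∈ X.gen B := by
  rw [gen, Submodule.mem_sInf] at hm ⊢
  exact fun N hN => hN.2 y m (hm N hN)

/-- the span of the brackets with lowering operators -/
def FN (N : Submodule ℂ (Module.End ℂ A)) : Submodule ℂ (Module.End ℂ A) :=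
  Submodule.span ℂ {f | ∃ y, ∃ m ∈ N, f = X.La y * m - m * X.La y}

theorem FN_mono {N N' : Submodule ℂ (Module.End ℂ A)} (h : N ≤ N') : X.FN N ≤ X.FN N' := by
  refine Submodule.span_mono ?_
  rintro f ⟨y, m, hm, rfl⟩
  exact ⟨y, m, h hm, rfl⟩

theorem gen_eq (B : Submodule ℂ (Module.End ℂ A)) : X.gen B ≤ B ⊔ X.FN (X.gen B) := by
  refine X.gen_le le_sup_left fun y m hm => ?_
  refine Submodule.mem_sup_right (Submodule.subset_span ⟨y, m, ?_, rfl⟩)
  have h : B ⊔ X.FN (X.gen B) ≤ X.gen B := by
    refine sup_le (X.le_gen B) (Submodule.span_le.2 ?_)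
    rintro f ⟨y, m, hm, rfl⟩
    exact X.gen_F B y hm
  exact h hm

/-- the bracket with `ρ a` -/
theorem jac (a b m : Module.End ℂ A) :
    a * (b * m - m * b) - (b * m - m * b) * a =
      ((a * b - b * a) * m - m * (a * b - b * a)) + (b * (a * m - m * a) - (a * m - m * a) * b) := by
  simp only [mul_sub, sub_mul, mul_assoc]
  abel

/-- `gen B` is stable under the orthogonal algebra -/
theorem gen_skew {B : Submodule ℂ (Module.End ℂ A)}
    (hE : ∀ x, ∀ m ∈ B, X.rho (E X.q x) * m - m * X.rho (E X.q x) = 0)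
    (hH : ∀ m ∈ B, X.rho (H ℂ V) * m - m * X.rho (H ℂ V) ∈ B)
    (hS : ∀ t : Module.End ℂ V, (∀ x y, X.q (t x) y = - X.q x (t y)) → ∀ m ∈ B,
      X.rho (S t) * m - m * X.rho (S t) ∈ B)
    (a : Module.End ℂ (ℂ × V × ℂ)) (ha : Skew X.q a) (m : Module.End ℂ A) (hm : m ∈ X.gen B) :
    X.rho a * m - m * X.rho a ∈ X.gen B := by
  let N : Submodule ℂ (Module.End ℂ A) :=
    { carrier := {m | m ∈ X.gen B ∧ ∀ a, Skew X.q a → X.rho a * m - m * X.rho a ∈ X.gen B}
      add_mem' := by
        rintro m m' ⟨h1, h2⟩ ⟨h1', h2'⟩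
        refine ⟨add_mem h1 h1', fun a ha => ?_⟩
        have := add_mem (h2 a ha) (h2' a ha)
        have e : X.rho a * (m + m') - (m + m') * X.rho a =
          (X.rho a * m - m * X.rho a) + (X.rho a * m' - m' * X.rho a) := by noncomm_ring
        rwa [e]
      zero_mem' := ⟨zero_mem _, fun a _ => by simp⟩
      smul_mem' := by
        rintro c m ⟨h1, h2⟩
        refine ⟨Submodule.smul_mem _ c h1, fun a ha => ?_⟩
        rw [mul_smul_comm, smul_mul_assoc, ← smul_sub]
        exact Submodule.smul_mem _ c (h2 a ha) }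
  have hN : X.gen B ≤ N := by
    refine X.gen_le ?_ ?_
    · intro m hm
      refine ⟨X.le_gen B hm, fun a ha => ?_⟩
      obtain ⟨x, y, c, t, ht, rfl⟩ := skew_decomp X.q_symm ha
      have e : X.rho (E X.q x + F X.q y + c • H ℂ V + S t) * m -
          m * X.rho (E X.q x + F X.q y + c • H ℂ V + S t) =
          (X.rho (E X.q x) * m - m * X.rho (E X.q x)) +
          (X.La y * m - m * X.La y) +
          c • (X.rho (H ℂ V) * m - m * X.rho (H ℂ V)) +
          (X.rho (S t) * m - m * X.rho (S t)) := by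
        rw [map_add, map_add, map_add, map_smul, La]
        simp only [add_mul, mul_add, smul_mul_assoc, mul_smul_comm, smul_sub]
        abel
      rw [e, hE x m hm, zero_add]
      exact add_mem (add_mem (X.gen_F B y (X.le_gen B hm))
        (Submodule.smul_mem _ c (X.le_gen B (hH m hm)))) (X.le_gen B (hS t ht m hm))
    · rintro y m ⟨h1, h2⟩
      refine ⟨X.gen_F B y h1, fun a ha => ?_⟩
      rw [jac (X.rho a) (X.La y) m]
      refine add_mem ?_ (X.gen_F B y (h2 a ha))
      rw [La, ← X.rho_lie _ _ ha (skew_F X.q_symm y)]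
      exact h2 _ (Skew.lie ha (skew_F X.q_symm y))
  exact (hN hm).2 a ha

/-- matrix entries vanish above the `k`-th diagonal -/
def Fil (k : ℤ) : Submodule ℂ (Module.End ℂ A) where
  carrier := {m | ∀ j l, (X.d l : ℤ) + k < X.d j → X.b.repr (m (X.b l)) j = 0}
  add_mem' {f g} hf hg j l h := by
    rw [LinearMap.add_apply, map_add, Finsupp.add_apply, hf j l h, hg j l h, add_zero]
  zero_mem' j l _ := by rw [LinearMap.zero_apply, map_zero, Finsupp.zero_apply]
  smul_mem' c f hf j l h := by
    rw [LinearMap.smul_apply, map_smul, Finsupp.smul_apply, hf j l h, smul_zero]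

theorem FN_zero {N : Submodule ℂ (Module.End ℂ A)} (h : N ≤ X.FN N) : N = ⊥ := by
  have h1 : ∀ t : ℕ, N ≤ X.Fil (4 * n - 2 * t) := by
    intro t
    induction t with
    | zero =>
      intro m _ j l hjl
      exfalso
      have := X.d_le j
      push_cast at hjl
      omega
    | succ t ih =>
      refine h.trans (Submodule.span_le.2 ?_)
      rintro f ⟨y, m, hm, rfl⟩ j l hjl
      have hm' := ih hm
      have hF := X.degF y
      rw [LinearMap.sub_apply, map_sub, Finsupp.sub_apply, Module.End.mul_apply,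
        Module.End.mul_apply, X.expand (X.La y), X.expand m (X.La y (X.b l))]
      rw [Finset.sum_eq_zero, Finset.sum_eq_zero, sub_zero]
      · intro p _
        by_cases hp : (X.d p : ℤ) = X.d l + -2
        · rw [hm' j p, mul_zero]
          push_cast at hjl
          omega
        · rw [La, hF p l hp, zero_mul]
      · intro p _
        by_cases hp : (X.d j : ℤ) = X.d p + -2
        · rw [hm' p l, zero_mul]
          push_cast at hjl
          omega
        · rw [La, hF j p hp, mul_zero]
  rw [eq_bot_iff]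
  intro m hm
  have h2 := h1 (4 * n + 1) hm
  rw [Submodule.mem_bot]
  refine X.ext_b fun l => ?_
  rw [LinearMap.zero_apply, ← X.b.repr.map_eq_zero_iff]
  refine Finsupp.ext fun j => ?_
  rw [Finsupp.zero_apply]
  apply h2
  have := X.d_le l
  push_cast
  omega

theorem q_ne : ∃ x y, X.q x y ≠ 0 := ⟨X.s, X.s', X.s_s'⟩

/-- Endomorphisms in the representation generated by `B` which commute with the raising
operators lie in `B`. -/
theorem fix_mem {B : Submodule ℂ (Module.End ℂ A)}
    (hE : ∀ x, ∀ m ∈ B, X.rho (E X.q x) * m - m * X.rho (E X.q x) = 0)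
    (hH : ∀ m ∈ B, X.rho (H ℂ V) * m - m * X.rho (H ℂ V) ∈ B)
    (hS : ∀ t : Module.End ℂ V, (∀ x y, X.q (t x) y = - X.q x (t y)) → ∀ m ∈ B,
      X.rho (S t) * m - m * X.rho (S t) ∈ B)
    {m : Module.End ℂ A} (hm : m ∈ X.gen B)
    (hmE : ∀ x, X.rho (E X.q x) * m - m * X.rho (E X.q x) = 0) : m ∈ B := by
  haveI := X.fin
  haveI := X.finV
  set M := X.gen B with hM
  have hMs := X.gen_skew hE hH hS
  -- the subspace of fixed vectors in the image of the lowering operators
  let Z : Submodule ℂ (Module.End ℂ A) :=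
    { carrier := {m | (m ∈ M ∧ m ∈ X.FN M) ∧
        ∀ x, X.rho (E X.q x) * m - m * X.rho (E X.q x) = 0}
      add_mem' := by
        rintro m m' ⟨h1, h2⟩ ⟨h1', h2'⟩
        refine ⟨⟨add_mem h1.1 h1'.1, add_mem h1.2 h1'.2⟩, fun x => ?_⟩
        have e : X.rho (E X.q x) * (m + m') - (m + m') * X.rho (E X.q x) =
          (X.rho (E X.q x) * m - m * X.rho (E X.q x)) +
          (X.rho (E X.q x) * m' - m' * X.rho (E X.q x)) := by noncomm_ring
        rw [e, h2, h2', add_zero]
      zero_mem' := ⟨⟨zero_mem _, zero_mem _⟩, fun x => by simp⟩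
      smul_mem' := by
        rintro c m ⟨h1, h2⟩
        refine ⟨⟨Submodule.smul_mem _ c h1.1, Submodule.smul_mem _ c h1.2⟩, fun x => ?_⟩
        rw [mul_smul_comm, smul_mul_assoc, ← smul_sub, h2, smul_zero] }
  -- operators of degree zero preserve `Z`
  have hZ0 : ∀ a, Skew X.q a → (∀ y, ∃ y', a * F X.q y - F X.q y * a = F X.q y') →
      (∀ x, ∃ x', E X.q x * a - a * E X.q x = E X.q x') →
      ∀ m ∈ Z, X.rho a * m - m * X.rho a ∈ Z := by
    intro a ha haF haE m hm
    refine ⟨⟨hMs a ha m hm.1.1, ?_⟩, fun x => ?_⟩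
    · have h1 : X.FN M ≤ (X.FN M).comap (adR ℂ (X.rho a)) := by
        refine Submodule.span_le.2 ?_
        rintro f ⟨y, m', hm', rfl⟩
        show X.rho a * _ - _ * X.rho a ∈ X.FN M
        rw [jac (X.rho a) (X.La y) m']
        obtain ⟨y', hy'⟩ := haF y
        refine add_mem ?_ ?_
        · rw [La, ← X.rho_lie _ _ ha (skew_F X.q_symm y), hy']
          exact Submodule.subset_span ⟨y', m', hm', rfl⟩
        · exact Submodule.subset_span ⟨y, _, hMs a ha m' hm', rfl⟩
      exact h1 hm.1.2
    · rw [jac (X.rho (E X.q x)) (X.rho a) m, hm.2 x]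
      obtain ⟨x', hx'⟩ := haE x
      rw [← X.rho_lie _ _ (skew_E X.q_symm x) ha, hx', hm.2 x']
      simp
  have hZH : ∀ m ∈ Z, X.rho (H ℂ V) * m - m * X.rho (H ℂ V) ∈ Z := by
    refine hZ0 _ skew_H (fun y => ⟨-2 • y, ?_⟩) (fun x => ⟨-2 • x, ?_⟩)
    · rw [X.FH]
      refine LinearMap.ext fun z => ?_
      simp [F_apply, smul_smul]
      module
    · have := X.EH x
      rw [← neg_sub, this]
      refine LinearMap.ext fun z => ?_
      simp [E_apply, smul_smul]
      module
  have hZS : ∀ t : Module.End ℂ V, (∀ x y, X.q (t x) y = - X.q x (t y)) → ∀ m ∈ Z,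
      X.rho (S t) * m - m * X.rho (S t) ∈ Z := by
    intro t ht
    refine hZ0 _ (skew_S ht) (fun y => ⟨t y, ?_⟩) (fun x => ⟨-t x, ?_⟩)
    · refine LinearMap.ext fun z => ?_
      simp [F_apply, S_apply, ht]
    · refine LinearMap.ext fun z => ?_
      simp [E_apply, S_apply, ht]
  have hgZ := X.gen_skew (B := Z) (fun x m hm => hm.2 x) hZH hZS
  obtain ⟨C, hC, hcompl⟩ := exists_compl X.q_symm X.q_nondeg X.q_ne X.rho X.rho_lie
    (X.gen Z) hgZ
  -- `Z` lies in the image of the lowering operators on `gen Z`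
  have hZF : Z ≤ X.FN (X.gen Z) := by
    intro z hz
    have h1 : X.FN M ≤ X.FN (X.gen Z) ⊔ C := by
      refine Submodule.span_le.2 ?_
      rintro f ⟨y, m', _, rfl⟩
      have h2 : m' ∈ X.gen Z ⊔ C := by rw [hcompl.sup_eq_top]; trivial
      obtain ⟨g, hg, c, hc, rfl⟩ := Submodule.mem_sup.1 h2
      have e : X.La y * (g + c) - (g + c) * X.La y =
        (X.La y * g - g * X.La y) + (X.La y * c - c * X.La y) := by noncomm_ring
      show X.La y * (g + c) - (g + c) * X.La y ∈ _
      rw [e]
      refine add_mem (Submodule.mem_sup_left (Submodule.subset_span ⟨y, g, hg, rfl⟩))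
        (Submodule.mem_sup_right (hC _ (skew_F X.q_symm y) c hc))
    obtain ⟨z1, hz1, z2, hz2, hz12⟩ := Submodule.mem_sup.1 (h1 hz.1.2)
    have hFg : X.FN (X.gen Z) ≤ X.gen Z := by
      refine Submodule.span_le.2 ?_
      rintro f ⟨y, m, hm, rfl⟩
      exact X.gen_F Z y hm
    have h3 : z2 ∈ X.gen Z := by
      have : z2 = z - z1 := by rw [← hz12]; abel
      rw [this]
      exact sub_mem (X.le_gen Z hz) (hFg hz1)
    have h4 : z2 = 0 := by
      have : z2 ∈ X.gen Z ⊓ C := ⟨h3, hz2⟩
      rwa [hcompl.inf_eq_bot, Submodule.mem_bot] at this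
    rw [← hz12, h4, add_zero]
    exact hz1
  have hgZ0 : X.gen Z = ⊥ := by
    refine X.FN_zero ((X.gen_eq Z).trans (sup_le hZF le_rfl))
  have hZ : Z = ⊥ := by
    rw [eq_bot_iff, ← hgZ0]
    exact X.le_gen Z
  obtain ⟨l, hl, f, hf, hlf⟩ := Submodule.mem_sup.1 (X.gen_eq B hm)
  have hfZ : f ∈ Z := by
    have hfm : f = m - l := by rw [← hlf]; abel
    refine ⟨⟨?_, hf⟩, fun x => ?_⟩
    · rw [hfm]; exact sub_mem hm (X.le_gen B hl)
    · rw [hfm]
      have e : X.rho (E X.q x) * (m - l) - (m - l) * X.rho (E X.q x) =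
        (X.rho (E X.q x) * m - m * X.rho (E X.q x)) -
        (X.rho (E X.q x) * l - l * X.rho (E X.q x)) := by
        simp only [mul_sub, sub_mul]
        abel
      rw [e, hmE, hE x l hl, sub_zero]
  rw [hZ, Submodule.mem_bot] at hfZ
  rw [← hlf, hfZ, add_zero]
  exact hl

/-! ### The multiplication operators -/

theorem LA_E (x : V) (m : Module.End ℂ A) (hm : m ∈ LA A) :
    X.rho (E X.q x) * m - m * X.rho (E X.q x) = 0 := by
  obtain ⟨y, hy⟩ := (mem_LA m).1 hm
  refine LinearMap.ext fun z => ?_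
  rw [LinearMap.sub_apply, Module.End.mul_apply, Module.End.mul_apply, hy, hy, X.rho_E, X.rho_E,
    LinearMap.zero_apply, ← mul_assoc, ← mul_assoc, X.central, sub_self]

theorem LA_H (m : Module.End ℂ A) (hm : m ∈ LA A) :
    X.rho (H ℂ V) * m - m * X.rho (H ℂ V) ∈ LA A := by
  obtain ⟨y, hy⟩ := (mem_LA m).1 hm
  rw [mem_LA]
  refine ⟨X.rho (H ℂ V) y + (2 * n : ℂ) • y, fun x => ?_⟩
  rw [LinearMap.sub_apply, Module.End.mul_apply, Module.End.mul_apply, hy, hy]
  have h1 : ∀ j k, X.rho (H ℂ V) (X.b j * X.b k) = X.rho (H ℂ V) (X.b j) * X.b k +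
      X.b j * X.rho (H ℂ V) (X.b k) + (2 * n : ℂ) • (X.b j * X.b k) := by
    intro j k
    rw [X.rho_H _ _ (X.mul_mem _ _ _ _ (X.b_mem j) (X.b_mem k)), X.rho_H _ _ (X.b_mem j),
      X.rho_H _ _ (X.b_mem k), smul_mul_assoc, mul_smul_comm, ← add_smul, ← add_smul]
    congr 1
    push_cast
    ring
  have h2 : ∀ x y, X.rho (H ℂ V) (y * x) = X.rho (H ℂ V) y * x +
      y * X.rho (H ℂ V) x + (2 * n : ℂ) • (y * x) := by
    intro x y
    have e : ∀ j, X.rho (H ℂ V) (X.b j * x) = X.rho (H ℂ V) (X.b j) * x +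
      X.b j * X.rho (H ℂ V) x + (2 * n : ℂ) • (X.b j * x) := by
      intro j
      conv_lhs => rw [← X.b.sum_repr x]
      conv_rhs => rw [← X.b.sum_repr x]
      simp only [Finset.mul_sum, map_sum, mul_smul_comm, map_smul, h1, smul_add, Finset.smul_sum,
        Finset.sum_add_distrib]
      congr 1
      refine Finset.sum_congr rfl fun k _ => ?_
      rw [smul_comm]
    conv_lhs => rw [← X.b.sum_repr y]
    conv_rhs => rw [← X.b.sum_repr y]
    simp only [Finset.sum_mul, map_sum, smul_mul_assoc, map_smul, e, smul_add, Finset.smul_sum,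
        Finset.sum_add_distrib]
    congr 1
    refine Finset.sum_congr rfl fun k _ => ?_
    rw [smul_comm]
  rw [h2 x y, add_mul, smul_mul_assoc]
  abel

theorem LA_S (t : Module.End ℂ V) (ht : ∀ x y, X.q (t x) y = - X.q x (t y))
    (m : Module.End ℂ A) (hm : m ∈ LA A) :
    X.rho (S t) * m - m * X.rho (S t) ∈ LA A := by
  obtain ⟨y, hy⟩ := (mem_LA m).1 hm
  rw [mem_LA]
  refine ⟨X.rho (S t) y, fun x => ?_⟩
  rw [LinearMap.sub_apply, Module.End.mul_apply, Module.End.mul_apply, hy, hy, X.rho_S t ht]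
  abel

/-- the representation generated by the multiplication operators -/
def MM : Submodule ℂ (Module.End ℂ A) := X.gen (LA A)

theorem MM_skew (a : Module.End ℂ (ℂ × V × ℂ)) (ha : Skew X.q a) (m : Module.End ℂ A)
    (hm : m ∈ X.MM) : X.rho a * m - m * X.rho a ∈ X.MM :=
  X.gen_skew X.LA_E X.LA_H X.LA_S a ha m hm

/-- **Elements of the representation generated by the multiplication operators which commute
with multiplication by `H²` are multiplication operators.** -/
theorem MM_fix {m : Module.End ℂ A} (hm : m ∈ X.MM)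
    (hmE : ∀ x, X.rho (E X.q x) * m - m * X.rho (E X.q x) = 0) : m ∈ LA A :=
  X.fix_mem X.LA_E X.LA_H X.LA_S hm hmE

end Coh

end Pool.Agent.Q8.HK
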