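import Mathlib
import Pool.Agent.Q8.HK.Gen

/-!
# Intertwiners between the representations of two hyper-Kähler cohomologies
-/

set_option autoImplicit false
set_option linter.unusedSimpArgs false
set_option linter.style.haveILetI false

open Module

namespace Pool.Agent.Q8.HK

variable {n : ℕ} {A V : Type} [Ring A] [Algebra ℂ A] [AddCommGroup V] [Module ℂ V]
variable {B U : Type} [Ring B] [Algebra ℂ B] [AddCommGroup U] [Module ℂ U]
variable {C T : Type} [Ring C] [Algebra ℂ C] [AddCommGroup T] [Module ℂ T]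

/-- conjugation of endomorphisms by an isomorphism -/
def cj (u : A ≃ₗ[ℂ] B) (f : Module.End ℂ A) : Module.End ℂ B :=
  u.toLinearMap ∘ₗ f ∘ₗ u.symm.toLinearMap

theorem cj_apply (u : A ≃ₗ[ℂ] B) (f : Module.End ℂ A) (x : B) : cj u f x = u (f (u.symm x)) := rfl

theorem cj_mul (u : A ≃ₗ[ℂ] B) (f g : Module.End ℂ A) : cj u (f * g) = cj u f * cj u g := by
  refine LinearMap.ext fun x => ?_
  simp [cj_apply]

theorem cj_add (u : A ≃ₗ[ℂ] B) (f g : Module.End ℂ A) : cj u (f + g) = cj u f + cj u g := by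
  refine LinearMap.ext fun x => ?_
  simp [cj_apply]

theorem cj_sub (u : A ≃ₗ[ℂ] B) (f g : Module.End ℂ A) : cj u (f - g) = cj u f - cj u g := by
  refine LinearMap.ext fun x => ?_
  simp [cj_apply]

theorem cj_smul (u : A ≃ₗ[ℂ] B) (c : ℂ) (f : Module.End ℂ A) : cj u (c • f) = c • cj u f := by
  refine LinearMap.ext fun x => ?_
  simp [cj_apply]

theorem cj_trans (u : A ≃ₗ[ℂ] B) (v : B ≃ₗ[ℂ] C) (f : Module.End ℂ A) :
    cj (u.trans v) f = cj v (cj u f) := rfl

theorem cj_symm (u : A ≃ₗ[ℂ] B) (f : Module.End ℂ A) : cj u.symm (cj u f) = f := by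
  refine LinearMap.ext fun x => ?_
  simp [cj_apply]

theorem cj_symm' (u : A ≃ₗ[ℂ] B) (f : Module.End ℂ B) : cj u (cj u.symm f) = f := by
  refine LinearMap.ext fun x => ?_
  simp [cj_apply]

/-- Isomorphisms compatible with the representations of the orthogonal algebras, up to a
similitude of the extended Mukai spaces, and with the representations generated by the
multiplication operators. -/
structure Intw (X : Coh n A V) (Y : Coh n B U) where
  u : A ≃ₗ[ℂ] B
  g : (ℂ × V × ℂ) ≃ₗ[ℂ] (ℂ × U × ℂ)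
  lam : ℂ
  lam_ne : lam ≠ 0
  sim : ∀ x y, bil Y.q (g x) (g y) = lam * bil X.q x y
  eqv : ∀ x y, cj u (X.rho (W X.q x y)) = lam⁻¹ • Y.rho (W Y.q (g x) (g y))
  mm : ∀ m ∈ X.MM, cj u m ∈ Y.MM
  mm' : ∀ m ∈ Y.MM, cj u.symm m ∈ X.MM

namespace Intw

variable {X : Coh n A V} {Y : Coh n B U} {Z : Coh n C T}

/-- composition -/
noncomputable def trans (P : Intw X Y) (Q : Intw Y Z) : Intw X Z where
  u := P.u.trans Q.u
  g := P.g.trans Q.g
  lam := Q.lam * P.lam
  lam_ne := mul_ne_zero Q.lam_ne P.lam_ne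
  sim x y := by
    rw [LinearEquiv.trans_apply, LinearEquiv.trans_apply, Q.sim, P.sim, mul_assoc]
  eqv x y := by
    rw [cj_trans, P.eqv, cj_smul, Q.eqv, smul_smul, mul_inv, mul_comm P.lam⁻¹]
    rfl
  mm m hm := by
    rw [cj_trans]
    exact Q.mm _ (P.mm m hm)
  mm' m hm := P.mm' _ (Q.mm' m hm)

/-- inverse -/
noncomputable def symm (P : Intw X Y) : Intw Y X where
  u := P.u.symm
  g := P.g.symm
  lam := P.lam⁻¹
  lam_ne := inv_ne_zero P.lam_ne
  sim x y := by
    have h := P.sim (P.g.symm x) (P.g.symm y)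
    rw [LinearEquiv.apply_symm_apply, LinearEquiv.apply_symm_apply] at h
    rw [h, inv_mul_cancel_left₀ P.lam_ne]
  eqv x y := by
    have h := congrArg (cj P.u.symm) (P.eqv (P.g.symm x) (P.g.symm y))
    rw [LinearEquiv.apply_symm_apply, LinearEquiv.apply_symm_apply, cj_symm, cj_smul] at h
    rw [inv_inv, h, smul_smul, mul_inv_cancel₀ P.lam_ne, one_smul]
  mm m hm := P.mm' m hm
  mm' m hm := by
    rw [LinearEquiv.symm_symm]
    exact P.mm m hm

end Intw

/-! ### Exponentials -/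

section ext

variable {V : Type} [AddCommGroup V] [Module ℂ V] (q : V →ₗ[ℂ] V →ₗ[ℂ] ℂ)

theorem E_sq (x : V) (z : ℂ × V × ℂ) : (E q x * E q x) z = (0, 0, z.1 * q x x) := by
  rw [Module.End.mul_apply, E_apply, E_apply]
  simp

theorem E_cube (x : V) : E q x ^ 3 = 0 := by
  refine LinearMap.ext fun z => ?_
  rw [pow_succ, pow_two, Module.End.mul_apply, E_sq, E_apply]
  simp

theorem F_sq (x : V) (z : ℂ × V × ℂ) : (F q x * F q x) z = (4 * z.2.2 * q x x, 0, 0) := by
  rw [Module.End.mul_apply, F_apply, F_apply]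
  simp only [map_smul, smul_eq_mul, mul_zero, zero_smul, Prod.mk.injEq, and_true]
  ring

theorem F_cube (x : V) : F q x ^ 3 = 0 := by
  refine LinearMap.ext fun z => ?_
  rw [pow_succ, pow_two, Module.End.mul_apply, F_sq, F_apply]
  simp

theorem exE {N : ℕ} (hN : 3 ≤ N) (x : V) (z : ℂ × V × ℂ) :
    ex ℂ N (E q x) z = (z.1, z.2.1 + z.1 • x, z.2.2 + q x z.2.1 + z.1 * q x x / 2) := by
  rw [ex_eq (pow_eq_zero_of_le hN (E_cube q x)) (E_cube q x), ex, Finset.sum_range_succ,
    Finset.sum_range_succ, Finset.sum_range_one]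
  simp only [Nat.factorial, pow_zero, pow_one, LinearMap.add_apply, LinearMap.smul_apply, pow_two,
    E_sq, E_apply, Module.End.one_apply]
  refine Prod.ext ?_ (Prod.ext ?_ ?_)
  · simp
  · simp
  · simp
    ring

theorem exF {N : ℕ} (hN : 3 ≤ N) (x : V) (z : ℂ × V × ℂ) :
    ex ℂ N (F q x) z =
      (z.1 + 2 * q x z.2.1 + 2 * z.2.2 * q x x, z.2.1 + (2 * z.2.2) • x, z.2.2) := by
  rw [ex_eq (pow_eq_zero_of_le hN (F_cube q x)) (F_cube q x), ex, Finset.sum_range_succ,
    Finset.sum_range_succ, Finset.sum_range_one]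
  simp only [Nat.factorial, pow_zero, pow_one, LinearMap.add_apply, LinearMap.smul_apply, pow_two,
    F_sq, F_apply, Module.End.one_apply]
  refine Prod.ext ?_ (Prod.ext ?_ ?_)
  · simp
    ring
  · simp
  · simp

/-- isometries conjugate `W x y` to `W (g x) (g y)` -/
theorem W_conj {g g' : Module.End ℂ (ℂ × V × ℂ)} (hg : ∀ x y, bil q (g x) (g y) = bil q x y)
    (h1 : g * g' = 1) (x y : ℂ × V × ℂ) : g * W q x y * g' = W q (g x) (g y) := by
  refine LinearMap.ext fun z => ?_
  have h2 : ∀ x, bil q x (g' z) = bil q (g x) z := by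
    intro x
    rw [← hg x (g' z)]
    have : g (g' z) = z := LinearMap.congr_fun h1 z
    rw [this]
  simp only [Module.End.mul_apply, W_apply, map_sub, map_smul, h2]

end ext

namespace Coh

variable (X : Coh n A V)

/-- the intertwiner defined by a nilpotent skew endomorphism with isometric exponential -/
noncomputable def expI (a : Module.End ℂ (ℂ × V × ℂ)) (ha : Skew X.q a)
    (hn : a ^ (2 * n + 1) = 0) (hn' : X.rho a ^ (2 * n + 1) = 0)
    (hiso : ∀ x y, bil X.q (ex ℂ (2 * n + 1) a x) (ex ℂ (2 * n + 1) a y) = bil X.q x y) :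
    Intw X X where
  u := LinearEquiv.ofLinearMap (ex ℂ (2 * n + 1) (X.rho a)) (ex ℂ (2 * n + 1) (-X.rho a))
    (ex_mul_neg hn') (ex_neg_mul hn')
  g := LinearEquiv.ofLinearMap (ex ℂ (2 * n + 1) a) (ex ℂ (2 * n + 1) (-a))
    (ex_mul_neg hn) (ex_neg_mul hn)
  lam := 1
  lam_ne := one_ne_zero
  sim x y := by
    rw [one_mul]
    exact hiso x y
  eqv x y := by
    have h1 := conj_map X.rho (Skew X.q) (fun a b ha hb => Skew.lie ha hb) X.rho_lie hn hn' ha
      (skew_W X.q_symm x y)
    rw [W_conj X.q hiso (ex_mul_neg hn)] at h1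
    rw [inv_one, one_smul]
    exact h1
  mm m hm := conj_mem hn' (fun m hm => X.MM_skew a ha m hm) hm
  mm' m hm := by
    have h := conj_mem (K := ℂ) (a := -X.rho a) (M := X.MM) (neg_pow_zero hn') (fun m hm => by
      have h1 := X.MM_skew a ha m hm
      have h2 : -X.rho a * m - m * -X.rho a = -(X.rho a * m - m * X.rho a) := by
        refine LinearMap.ext fun z => ?_
        simp only [LinearMap.sub_apply, LinearMap.neg_apply, Module.End.mul_apply, map_neg]
        abel
      rw [h2]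
      exact neg_mem h1) hm
    rw [neg_neg] at h
    exact h

include X in
theorem two_n : 3 ≤ 2 * n + 1 := by
  have := X.n_pos
  omega

/-- `exp(e_x)` -/
noncomputable def expE (x : V) : Intw X X :=
  X.expI (E X.q x) (skew_E X.q_symm x) (pow_eq_zero_of_le X.two_n (E_cube X.q x)) (X.nilE x) (by
    intro z w
    rw [exE X.q X.two_n, exE X.q X.two_n]
    simp only [bil_apply, map_add, map_smul, LinearMap.add_apply, LinearMap.smul_apply,
      smul_eq_mul]
    rw [X.q_symm z.2.1 x]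
    ring)

/-- `exp(f_x)` -/
noncomputable def expF (x : V) : Intw X X :=
  X.expI (F X.q x) (skew_F X.q_symm x) (pow_eq_zero_of_le X.two_n (F_cube X.q x)) (X.nilF x) (by
    intro z w
    rw [exF X.q X.two_n, exF X.q X.two_n]
    simp only [bil_apply, map_add, map_smul, LinearMap.add_apply, LinearMap.smul_apply,
      smul_eq_mul]
    rw [X.q_symm z.2.1 x]
    ring)

theorem expE_g (x : V) (z : ℂ × V × ℂ) :
    (X.expE x).g z = (z.1, z.2.1 + z.1 • x, z.2.2 + X.q x z.2.1 + z.1 * X.q x x / 2) :=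
  exE X.q X.two_n x z

theorem expF_g (x : V) (z : ℂ × V × ℂ) :
    (X.expF x).g z = (z.1 + 2 * X.q x z.2.1 + 2 * z.2.2 * X.q x x, z.2.1 + (2 * z.2.2) • x,
      z.2.2) :=
  exF X.q X.two_n x z

theorem expE_lam (x : V) : (X.expE x).lam = 1 := rfl

theorem expF_lam (x : V) : (X.expF x).lam = 1 := rfl

end Coh

end Pool.Agent.Q8.HK
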