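import Mathlib
import Pool.Agent.Q8.HK.Intw

/-!
# Graded ring isomorphisms are intertwiners
-/

set_option autoImplicit false
set_option linter.unusedSimpArgs false
set_option linter.style.haveILetI false

open Module

namespace Pool.Agent.Q8.HK

variable {n : ℕ} {A V : Type} [Ring A] [Algebra ℂ A] [AddCommGroup V] [Module ℂ V]
variable {B U : Type} [Ring B] [Algebra ℂ B] [AddCommGroup U] [Module ℂ U]

/-- alternating bilinear functions -/
structure Alt2 {M : Type} [AddCommGroup M] [Module ℂ M]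
    (f : (ℂ × V × ℂ) → (ℂ × V × ℂ) → M) : Prop where
  add : ∀ x x' y, f (x + x') y = f x y + f x' y
  smul : ∀ (c : ℂ) x y, f (c • x) y = c • f x y
  swap : ∀ x y, f x y = - f y x

theorem Alt2.ext {M : Type} [AddCommGroup M] [Module ℂ M]
    {f f' : (ℂ × V × ℂ) → (ℂ × V × ℂ) → M} (hf : Alt2 f) (hf' : Alt2 f')
    (h1 : f (al ℂ V) (be ℂ V) = f' (al ℂ V) (be ℂ V))
    (h2 : ∀ v, f (al ℂ V) (vv ℂ v) = f' (al ℂ V) (vv ℂ v))
    (h3 : ∀ v, f (be ℂ V) (vv ℂ v) = f' (be ℂ V) (vv ℂ v))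
    (h4 : ∀ v w, f (vv ℂ v) (vv ℂ w) = f' (vv ℂ v) (vv ℂ w)) (x y : ℂ × V × ℂ) :
    f x y = f' x y := by
  have z : ∀ {g : (ℂ × V × ℂ) → (ℂ × V × ℂ) → M}, Alt2 g → ∀ x, g x x = 0 := by
    intro g hg x
    have h := hg.swap x x
    have h' : (2 : ℂ) • g x x = 0 := by
      rw [two_smul]
      nth_rewrite 1 [h]
      simp
    exact (smul_eq_zero.1 h').resolve_left two_ne_zero
  have e1 : ∀ y, f (al ℂ V) y = f' (al ℂ V) y := by
    intro y
    rw [hf.swap, hf'.swap, ext_eta y]
    simp only [hf.add, hf'.add, hf.smul, hf'.smul, z hf, z hf']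
    rw [hf.swap (vv ℂ _) (al ℂ V), hf'.swap (vv ℂ _) (al ℂ V), hf.swap (be ℂ V) (al ℂ V),
      hf'.swap (be ℂ V) (al ℂ V), h1, h2]
  have e2 : ∀ y, f (be ℂ V) y = f' (be ℂ V) y := by
    intro y
    rw [hf.swap, hf'.swap, ext_eta y]
    simp only [hf.add, hf'.add, hf.smul, hf'.smul, z hf, z hf']
    rw [hf.swap (vv ℂ _) (be ℂ V), hf'.swap (vv ℂ _) (be ℂ V), h1, h3]
  have e3 : ∀ v y, f (vv ℂ v) y = f' (vv ℂ v) y := by
    intro v y
    rw [hf.swap, hf'.swap, ext_eta y]
    simp only [hf.add, hf'.add, hf.smul, hf'.smul]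
    rw [h2, h3, h4]
  rw [ext_eta x]
  simp only [hf.add, hf'.add, hf.smul, hf'.smul, e1, e2, e3]

/-- two quadratic forms with proportional `n`-th powers are proportional -/
theorem quad_prop {Q₁ Q₂ : V →ₗ[ℂ] V →ₗ[ℂ] ℂ} (s₁ : ∀ x y, Q₁ x y = Q₁ y x)
    (s₂ : ∀ x y, Q₂ x y = Q₂ y x) {C : ℂ} (hC : C ≠ 0)
    (h : ∀ x, Q₁ x x ^ n = C * Q₂ x x ^ n) (hn : 0 < n) (h0 : ∃ x, Q₂ x x ≠ 0) :
    ∃ lam : ℂ, lam ≠ 0 ∧ ∀ x y, Q₁ x y = lam * Q₂ x y := by
  obtain ⟨x₀, hx₀⟩ := h0
  set lam := Q₁ x₀ x₀ / Q₂ x₀ x₀ with hlam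
  have h1 : Q₁ x₀ x₀ ≠ 0 := by
    intro h1
    have h2 := h x₀
    rw [h1, zero_pow hn.ne'] at h2
    exact mul_ne_zero hC (pow_ne_zero n hx₀) h2.symm
  have hlam0 : lam ≠ 0 := div_ne_zero h1 hx₀
  have hlamn : lam ^ n = C := by
    rw [hlam, div_pow, h x₀, mul_div_cancel_right₀ _ (pow_ne_zero n hx₀)]
  have key : ∀ x, Q₁ x x = lam * Q₂ x x := by
    intro x
    set f : Polynomial ℂ := Polynomial.C (Q₁ x₀ x₀) + Polynomial.C (2 * Q₁ x₀ x) * Polynomial.X +
      Polynomial.C (Q₁ x x) * Polynomial.X ^ 2 with hf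
    set g : Polynomial ℂ := Polynomial.C (lam * Q₂ x₀ x₀) +
      Polynomial.C (lam * (2 * Q₂ x₀ x)) * Polynomial.X +
      Polynomial.C (lam * Q₂ x x) * Polynomial.X ^ 2 with hg
    have ef : ∀ t, f.eval t = Q₁ (x₀ + t • x) (x₀ + t • x) := by
      intro t
      simp only [hf, Polynomial.eval_add, Polynomial.eval_mul, Polynomial.eval_C,
        Polynomial.eval_X, Polynomial.eval_pow, map_add, map_smul, LinearMap.add_apply,
        LinearMap.smul_apply, smul_eq_mul]
      rw [s₁ x x₀]; ring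
    have eg : ∀ t, g.eval t = lam * Q₂ (x₀ + t • x) (x₀ + t • x) := by
      intro t
      simp only [hg, Polynomial.eval_add, Polynomial.eval_mul, Polynomial.eval_C,
        Polynomial.eval_X, Polynomial.eval_pow, map_add, map_smul, LinearMap.add_apply,
        LinearMap.smul_apply, smul_eq_mul]
      rw [s₂ x x₀]; ring
    have efg : f ^ n = g ^ n := by
      refine Polynomial.funext fun t => ?_
      rw [Polynomial.eval_pow, Polynomial.eval_pow, ef, eg, h, mul_pow, hlamn]
    have e0 : f.eval 0 = g.eval 0 := by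
      rw [ef, eg, zero_smul, add_zero, hlam, div_mul_cancel₀ _ hx₀]
    have hfg : f = g := by
      by_contra hne
      have h2 := (Commute.all f g).geom_sum₂_mul n
      rw [efg, sub_self] at h2
      have h3 := (mul_eq_zero.1 h2).resolve_right (sub_ne_zero.2 hne)
      have h4 := congrArg (Polynomial.eval 0) h3
      simp only [Polynomial.eval_finsetSum, Polynomial.eval_mul, Polynomial.eval_pow,
        Polynomial.eval_zero, ← e0] at h4
      have h5 : ∀ i ∈ Finset.range n, (f.eval 0) ^ i * (f.eval 0) ^ (n - 1 - i) =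
          (f.eval 0) ^ (n - 1) := by
        intro i hi
        rw [← pow_add]
        congr 1
        have := Finset.mem_range.1 hi
        omega
      rw [Finset.sum_congr rfl h5, Finset.sum_const, Finset.card_range, nsmul_eq_mul, ef,
        zero_smul, add_zero] at h4
      exact mul_ne_zero (Nat.cast_ne_zero.2 hn.ne') (pow_ne_zero _ h1) h4
    have h6 := congrArg (fun p => Polynomial.coeff p 2) hfg
    simpa [hf, hg, Polynomial.coeff_X, Polynomial.coeff_C, mul_assoc] using h6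
  refine ⟨lam, hlam0, fun x y => ?_⟩
  have h1 := key (x + y)
  simp only [map_add, LinearMap.add_apply] at h1
  rw [key x, key y, s₁ y x, s₂ y x] at h1
  linear_combination h1 / 2

namespace Coh

variable (X : Coh n A V)

theorem rot_self (x : V) : rot X.q x x = 0 := by
  refine LinearMap.ext fun z => ?_
  rw [rot_apply, sub_self, LinearMap.zero_apply]

theorem S_zero : S (0 : Module.End ℂ V) = 0 := by
  refine LinearMap.ext fun z => ?_
  rw [S_apply]
  rfl

theorem EF_self (x : V) : X.rho (E X.q x) * X.rho (F X.q x) - X.rho (F X.q x) * X.rho (E X.q x) =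
    X.q x x • X.rho (H ℂ V) := by
  rw [← X.rho_lie _ _ (skew_E X.q_symm x) (skew_F X.q_symm x), EF X.q X.q_symm, rot_self,
    S_zero, smul_zero, add_zero, map_smul]

section

attribute [local instance 100] LieRing.ofAssociativeRing

/-- the partner of a raising operator is unique -/
theorem partner {y : V} (hy : X.q y y ≠ 0) {P : Module.End ℂ A}
    (hP : X.rho (H ℂ V) * P - P * X.rho (H ℂ V) = (-2 : ℂ) • P)
    (hE : X.rho (E X.q y) * P - P * X.rho (E X.q y) = 0) : P = 0 := by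
  by_contra hne
  haveI := X.fin
  have hEF := X.EF_self y
  set e := X.rho (E X.q y) with he
  set f := X.rho (F X.q y) with hf
  set h := X.rho (H ℂ V) with hh
  have h1 : h * e - e * h = (2 : ℂ) • e := by
    rw [hh, he, ← X.rho_lie _ _ skew_H (skew_E X.q_symm y), X.EH, map_smul]
  have h2 : h * f - f * h = (-2 : ℂ) • f := by
    rw [hh, hf, ← X.rho_lie _ _ skew_H (skew_F X.q_symm y), X.FH, map_smul]
  have hne0 : h ≠ 0 := by
    intro h0
    have h3 : h * P - P * h = (-2 : ℂ) • P := hP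
    rw [h0, zero_mul, mul_zero, sub_zero] at h3
    exact hne ((smul_eq_zero.1 h3.symm).resolve_left (by norm_num))
  have t : IsSl2Triple h e ((X.q y y)⁻¹ • f) := by
    refine ⟨hne0, ?_, ?_, ?_⟩
    · rw [Ring.lie_def, mul_smul_comm, smul_mul_assoc]
      refine (smul_sub _ _ _).symm.trans ?_
      rw [hEF, smul_smul, inv_mul_cancel₀ hy, one_smul]
    · rw [Ring.lie_def, h1, two_smul, two_nsmul]
    · rw [Ring.lie_def, mul_smul_comm, smul_mul_assoc]
      refine (smul_sub _ _ _).symm.trans ?_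
      rw [h2, smul_smul, two_nsmul, ← two_smul ℂ, smul_smul, ← neg_smul]
      congr 1
      ring
  have hp : t.HasPrimitiveVectorWith P (-2 : ℂ) :=
    ⟨hne, by rw [Ring.lie_def]; exact hP, by rw [Ring.lie_def]; exact hE⟩
  obtain ⟨k, hk⟩ := hp.exists_nat
  have h4 := congrArg Complex.re hk
  simp at h4
  have : (0 : ℝ) ≤ k := Nat.cast_nonneg k
  linarith

end

/-- functionals of top degree are multiples of the integral -/
theorem int_unique (φ : A →ₗ[ℂ] ℂ) (hφ : ∀ k, k ≠ 4 * n → ∀ x ∈ grade X.b X.d k, φ x = 0) :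
    ∃ κ : ℂ, ∀ z, φ z = κ * X.int z := by
  -- elements of top degree with integral zero vanish
  have h0 : ∀ z ∈ grade X.b X.d (4 * n), X.int z = 0 → z = 0 := by
    intro z hz hz0
    refine X.duality z fun y => ?_
    rw [← X.b.sum_repr y, Finset.mul_sum, map_sum]
    refine Finset.sum_eq_zero fun k _ => ?_
    rw [mul_smul_comm, map_smul]
    by_cases hk : X.d k = 0
    · obtain ⟨c, hc⟩ := X.connected (X.b k) (by rw [← hk]; exact X.b_mem k)
      rw [hc, mul_smul_comm, mul_one, map_smul, hz0, smul_zero, smul_zero]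
    · rw [X.int_grade (4 * n + X.d k) (by omega) _ (X.mul_mem _ _ _ _ hz (X.b_mem k)), smul_zero]
  -- an element of top degree with integral one
  obtain ⟨x, hx, hx1⟩ : ∃ x ∈ grade X.b X.d (4 * n), X.int x = 1 := by
    have h1 : ∃ j, X.int (X.b j) ≠ 0 := by
      by_contra hcon
      push Not at hcon
      have h2 : X.int = 0 := X.b.ext fun j => by rw [hcon j, LinearMap.zero_apply]
      have h3 : (1 : A) = 0 := X.duality 1 fun y => by rw [h2, LinearMap.zero_apply]
      have h4 : ∀ x : A, x = 0 := fun x => by rw [← mul_one x, h3, mul_zero]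
      have h5 : X.i X.s = X.i 0 := by rw [h4 (X.i X.s), h4 (X.i 0)]
      have h6 := X.i_inj h5
      have h7 := X.s_s'
      rw [h6, map_zero, LinearMap.zero_apply] at h7
      exact h7 rfl
    obtain ⟨j, hj⟩ := h1
    have hd : X.d j = 4 * n := by
      by_contra hd
      exact hj (X.int_grade _ hd _ (X.b_mem j))
    refine ⟨(X.int (X.b j))⁻¹ • X.b j, Submodule.smul_mem _ _ (hd ▸ X.b_mem j), ?_⟩
    rw [map_smul, smul_eq_mul, inv_mul_cancel₀ hj]
  refine ⟨φ x, fun z => ?_⟩
  have key : φ = φ x • X.int := by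
    refine X.b.ext fun j => ?_
    rw [LinearMap.smul_apply, smul_eq_mul]
    by_cases hd : X.d j = 4 * n
    · have h1 : X.b j - X.int (X.b j) • x = 0 := by
        refine h0 _ (sub_mem (hd ▸ X.b_mem j) (Submodule.smul_mem _ _ hx)) ?_
        rw [map_sub, map_smul, hx1, smul_eq_mul, mul_one, sub_self]
      rw [sub_eq_zero] at h1
      conv_lhs => rw [h1]
      rw [map_smul, smul_eq_mul, mul_comm]
    · rw [hφ _ hd _ (X.b_mem j), X.int_grade _ hd _ (X.b_mem j), mul_zero]
  conv_lhs => rw [key]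
  rfl

include X in
theorem one_ne : (1 : A) ≠ 0 := by
  intro h3
  have h4 : ∀ x : A, x = 0 := fun x => by rw [← mul_one x, h3, mul_zero]
  have h5 : X.i X.s = X.i 0 := by rw [h4 (X.i X.s), h4 (X.i 0)]
  have h6 := X.i_inj h5
  have h7 := X.s_s'
  rw [h6, map_zero, LinearMap.zero_apply] at h7
  exact h7 rfl

theorem int_ne : ∃ x, X.int x ≠ 0 := by
  by_contra hcon
  push Not at hcon
  exact X.one_ne (X.duality 1 fun y => by rw [hcon])

theorem nonisotropic : ∃ x, X.q x x ≠ 0 := by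
  refine ⟨X.s + X.s', ?_⟩
  simp only [map_add, LinearMap.add_apply, X.s_iso, X.s'_iso, X.q_symm X.s' X.s]
  have := X.s_s'
  intro h
  apply this
  linear_combination h / 2

end Coh

end Pool.Agent.Q8.HK
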