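import Mathlib
import Pool.Agent.Q8.HK.Uniq

/-!
# Graded ring isomorphisms are intertwiners
-/

set_option autoImplicit false
set_option linter.unusedSimpArgs false
set_option linter.style.haveILetI false

open Module

namespace Pool.Agent.Q8.HK

variable {n : ℕ} {A V : Type} [Ring A] [Algebra ℂ A] [AddCommGroup V] [Module ℂ V]
variable {B U : Type} [Ring B] [Algebra ℂ B] [AddCommGroup U] [Module ℂ U]
variable (X : Coh n A V) (Y : Coh n B U)

section gr

variable (G : A ≃ₗ[ℂ] B) (hG : ∀ x, G (X.rho (H ℂ V) x) = Y.rho (H ℂ U) (G x))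

include hG in
theorem grade_iff (k : ℕ) (x : A) : x ∈ grade X.b X.d k ↔ G x ∈ grade Y.b Y.d k := by
  rw [X.mem_grade_iff, Y.mem_grade_iff, ← hG, ← map_smul, G.injective.eq_iff]

/-- the degree two part -/
noncomputable def e2 : V ≃ₗ[ℂ] grade X.b X.d 2 :=
  LinearEquiv.ofBijective (X.i.codRestrict (grade X.b X.d 2)
    (fun v => (X.i_range _).2 ⟨v, rfl⟩)) (by
    constructor
    · intro v w h
      exact X.i_inj (congrArg Subtype.val h)
    · rintro ⟨x, hx⟩
      obtain ⟨v, rfl⟩ := (X.i_range _).1 hx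
      exact ⟨v, rfl⟩)

theorem e2_apply (v : V) : ((e2 X v : grade X.b X.d 2) : A) = X.i v := rfl

include hG in
theorem exists_g : ∃ g : V ≃ₗ[ℂ] U, ∀ v, Y.i (g v) = G (X.i v) := by
  have hm : (grade X.b X.d 2).map G.toLinearMap = grade Y.b Y.d 2 := by
    ext y
    rw [Submodule.mem_map]
    constructor
    · rintro ⟨x, hx, rfl⟩
      exact (grade_iff X Y G hG 2 x).1 hx
    · intro hy
      refine ⟨G.symm y, ?_, G.apply_symm_apply y⟩
      rw [grade_iff X Y G hG, G.apply_symm_apply]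
      exact hy
  refine ⟨(e2 X).trans ((G.ofSubmodules _ _ hm).trans (e2 Y).symm), fun v => ?_⟩
  rw [LinearEquiv.trans_apply, LinearEquiv.trans_apply, ← e2_apply Y,
    LinearEquiv.apply_symm_apply]
  rfl

end gr

variable (G : A ≃ₐ[ℂ] B) (hG : ∀ x, G (X.rho (H ℂ V) x) = Y.rho (H ℂ U) (G x))

include hG in
theorem exists_kappa : ∃ κ : ℂ, κ ≠ 0 ∧ ∀ z, Y.int (G z) = κ * X.int z := by
  obtain ⟨κ, hκ⟩ := X.int_unique (Y.int ∘ₗ G.toLinearEquiv.toLinearMap) (fun k hk x hx =>
    Y.int_grade k hk _ ((grade_iff X Y G.toLinearEquiv hG k x).1 hx))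
  refine ⟨κ, ?_, hκ⟩
  rintro rfl
  obtain ⟨y, hy⟩ := Y.int_ne
  apply hy
  have := hκ (G.symm y)
  rw [zero_mul] at this
  rw [← this]
  show Y.int y = Y.int (G (G.symm y))
  rw [G.apply_symm_apply]

include hG in
/-- graded ring isomorphisms are similitudes on the second cohomology -/
theorem exists_sim (g : V ≃ₗ[ℂ] U) (hg : ∀ v, Y.i (g v) = G (X.i v)) :
    ∃ lam : ℂ, lam ≠ 0 ∧ ∀ v w, Y.q (g v) (g w) = lam * X.q v w := by
  obtain ⟨κ, hκ0, hκ⟩ := exists_kappa X Y G hG
  have hc : (Y.c : ℂ) ≠ 0 := by exact_mod_cast Y.c_ne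
  have hc' : (X.c : ℂ) ≠ 0 := by exact_mod_cast X.c_ne
  have h1 : ∀ v, Y.q (g v) (g v) ^ n = (κ * X.c / Y.c) * X.q v v ^ n := by
    intro v
    have h2 := Y.fujiki (g v)
    rw [hg, ← map_pow, hκ, X.fujiki] at h2
    field_simp
    linear_combination -h2
  let Q : V →ₗ[ℂ] V →ₗ[ℂ] ℂ := (Y.q.comp g.toLinearMap).compl₂ g.toLinearMap
  have hQ : ∀ v w, Q v w = Y.q (g v) (g w) := fun v w => rfl
  obtain ⟨lam, hl, h3⟩ := quad_prop (Q₁ := Q) (Q₂ := X.q) (n := n) (C := κ * X.c / Y.c)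
    (fun x y => by rw [hQ, hQ, Y.q_symm]) X.q_symm
    (div_ne_zero (mul_ne_zero hκ0 hc') hc) (fun x => by rw [hQ, h1]) X.n_pos X.nonisotropic
  exact ⟨lam, hl, fun v w => by rw [← hQ, h3]⟩

section conj

variable {X Y G}
variable {g : V ≃ₗ[ℂ] U} (hg : ∀ v, Y.i (g v) = G (X.i v)) {lam : ℂ} (hl : lam ≠ 0)
  (hs : ∀ v w, Y.q (g v) (g w) = lam * X.q v w)

include hG in
theorem cj_H : cj G.toLinearEquiv (X.rho (H ℂ V)) = Y.rho (H ℂ U) := by
  refine LinearMap.ext fun x => ?_
  rw [cj_apply]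
  show G (X.rho (H ℂ V) (G.symm x)) = _
  rw [hG, G.apply_symm_apply]

include hg in
theorem cj_E (v : V) : cj G.toLinearEquiv (X.rho (E X.q v)) = Y.rho (E Y.q (g v)) := by
  refine LinearMap.ext fun x => ?_
  rw [cj_apply, X.rho_E, Y.rho_E]
  show G (X.i v * (G.symm x)) = _
  rw [map_mul, hg, G.apply_symm_apply]

include hG hg hl hs in
theorem cj_F (v : V) : cj G.toLinearEquiv (X.rho (F X.q v)) = lam⁻¹ • Y.rho (F Y.q (g v)) := by
  -- the non-isotropic case
  have key : ∀ v, X.q v v ≠ 0 →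
      cj G.toLinearEquiv (X.rho (F X.q v)) = lam⁻¹ • Y.rho (F Y.q (g v)) := by
    intro v hv
    rw [← sub_eq_zero]
    refine Y.partner (y := g v) ?_ ?_ ?_
    · rw [hs]; exact mul_ne_zero hl hv
    · have h1 := congrArg (cj G.toLinearEquiv) (X.rho_lie _ _ skew_H (skew_F X.q_symm v))
      rw [X.FH, map_smul, cj_smul, cj_sub, cj_mul, cj_mul, cj_H hG] at h1
      have h2 := Y.rho_lie _ _ skew_H (skew_F Y.q_symm (g v))
      rw [Y.FH, map_smul] at h2
      rw [mul_sub, sub_mul, mul_smul_comm, smul_mul_assoc, smul_sub (-2 : ℂ), h1,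
        smul_comm (-2 : ℂ) lam⁻¹, h2]
      refine Eq.trans ?_ (congrArg (fun t => _ - t) (smul_sub _ _ _).symm)
      abel
    · have h1 := congrArg (cj G.toLinearEquiv) (X.EF_self v)
      rw [cj_smul, cj_sub, cj_mul, cj_mul, cj_H hG, cj_E hg] at h1
      have h2 := Y.EF_self (g v)
      rw [hs] at h2
      rw [mul_sub, sub_mul, mul_smul_comm, smul_mul_assoc]
      have h3 : lam⁻¹ • (Y.rho (E Y.q (g v)) * Y.rho (F Y.q (g v))) -
          lam⁻¹ • (Y.rho (F Y.q (g v)) * Y.rho (E Y.q (g v))) =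
          X.q v v • Y.rho (H ℂ U) := by
        refine (smul_sub _ _ _).symm.trans ?_
        rw [h2, smul_smul, inv_mul_cancel_left₀ hl]
      have h4 : ∀ a b c d : Module.End ℂ B, a - b = c - d → a - c - (b - d) = 0 := by
        intro a b c d h
        rw [sub_sub_sub_comm, h, sub_self]
      exact h4 _ _ _ _ (h1.trans h3.symm)
  by_cases hv : X.q v v = 0
  · obtain ⟨x, hx⟩ := X.nonisotropic
    -- `v + t x` is non-isotropic for a suitable `t`
    obtain ⟨t, ht⟩ : ∃ t : ℂ, X.q (v + t • x) (v + t • x) ≠ 0 := by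
      by_contra hcon
      push Not at hcon
      have h1 := hcon 1
      have h2 := hcon 2
      simp only [map_add, map_smul, LinearMap.add_apply, LinearMap.smul_apply, smul_eq_mul, hv]
        at h1 h2
      rw [X.q_symm x v] at h1 h2
      apply hx
      linear_combination h2 / 2 - h1
    have h1 := key _ ht
    have h2 := key x hx
    have e1 : F X.q (v + t • x) = F X.q v + t • F X.q x := by
      refine LinearMap.ext fun z => ?_
      simp [F_apply, smul_smul]
      constructor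
      · ring
      · module
    have e2 : F Y.q (g (v + t • x)) = F Y.q (g v) + t • F Y.q (g x) := by
      refine LinearMap.ext fun z => ?_
      simp [F_apply, smul_smul]
      constructor
      · ring
      · module
    rw [e1, e2, map_add, map_add, map_smul, map_smul, cj_add, cj_smul, h2, smul_add,
      smul_comm lam⁻¹ t] at h1
    exact add_right_cancel h1
  · exact key v hv

/-- the similitude of the extended Mukai spaces defined by a similitude of `H²` -/
noncomputable def extG (g : V ≃ₗ[ℂ] U) {lam : ℂ} (hl : lam ≠ 0) :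
    (ℂ × V × ℂ) ≃ₗ[ℂ] (ℂ × U × ℂ) :=
  (LinearEquiv.refl ℂ ℂ).prodCongr (g.prodCongr (LinearEquiv.smulOfNeZero ℂ ℂ lam hl))

theorem extG_apply (g : V ≃ₗ[ℂ] U) {lam : ℂ} (hl : lam ≠ 0) (z : ℂ × V × ℂ) :
    extG g hl z = (z.1, g z.2.1, lam * z.2.2) := rfl

include hG hg hs in
theorem cj_W (x y : ℂ × V × ℂ) : cj G.toLinearEquiv (X.rho (W X.q x y)) =
    lam⁻¹ • Y.rho (W Y.q (extG g hl x) (extG g hl y)) := by
  have ha : extG g hl (al ℂ V) = al ℂ U := by simp [extG_apply, al]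
  have hb : extG g hl (be ℂ V) = lam • be ℂ U := by simp [extG_apply, be]
  have hv : ∀ v, extG g hl (vv ℂ v) = vv ℂ (g v) := by intro v; simp [extG_apply, vv]
  have eE : ∀ v, cj G.toLinearEquiv (X.rho (W X.q (be ℂ V) (vv ℂ v))) =
      lam⁻¹ • Y.rho (W Y.q (extG g hl (be ℂ V)) (extG g hl (vv ℂ v))) := by
    intro v
    rw [hb, hv, W_smul_left, W_E, W_E, map_smul, smul_smul, inv_mul_cancel₀ hl, one_smul,
      cj_E hg]
  have eF : ∀ v, cj G.toLinearEquiv (X.rho (W X.q (al ℂ V) (vv ℂ v))) =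
      lam⁻¹ • Y.rho (W Y.q (extG g hl (al ℂ V)) (extG g hl (vv ℂ v))) := by
    intro v
    have h1 := cj_F hG hg hl hs v
    rw [← W_F X.q v, ← W_F Y.q (g v), map_smul, map_smul, cj_smul, smul_comm lam⁻¹] at h1
    rw [ha, hv]
    exact (smul_right_injective _ (two_ne_zero (α := ℂ))) h1
  have eH : cj G.toLinearEquiv (X.rho (W X.q (al ℂ V) (be ℂ V))) =
      lam⁻¹ • Y.rho (W Y.q (extG g hl (al ℂ V)) (extG g hl (be ℂ V))) := by
    have h1 := cj_H hG (X := X) (Y := Y)
    rw [← W_H X.q, ← W_H Y.q, map_smul, map_smul, cj_smul] at h1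
    rw [ha, hb, W_smul_right, map_smul, smul_smul, inv_mul_cancel₀ hl, one_smul]
    exact (smul_right_injective _ (two_ne_zero (α := ℂ))) h1
  refine Alt2.ext (f := fun x y => cj G.toLinearEquiv (X.rho (W X.q x y)))
    (f' := fun x y => lam⁻¹ • Y.rho (W Y.q (extG g hl x) (extG g hl y))) ?_ ?_ eH eF eE ?_ x y
  · refine ⟨fun x x' y => ?_, fun c x y => ?_, fun x y => ?_⟩
    · show cj _ (X.rho (W X.q (x + x') y)) = _
      rw [W_add_left, map_add, cj_add]
    · show cj _ (X.rho (W X.q (c • x) y)) = _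
      rw [W_smul_left, map_smul, cj_smul]
    · show cj _ (X.rho (W X.q x y)) = - cj _ (X.rho (W X.q y x))
      rw [W_swap, map_neg]
      refine LinearMap.ext fun z => ?_
      simp [cj_apply]
  · refine ⟨fun x x' y => ?_, fun c x y => ?_, fun x y => ?_⟩
    · show lam⁻¹ • Y.rho (W Y.q (extG g hl (x + x')) (extG g hl y)) = _
      rw [map_add, W_add_left, map_add, smul_add]
    · show lam⁻¹ • Y.rho (W Y.q (extG g hl (c • x)) (extG g hl y)) = _
      rw [map_smul, W_smul_left, map_smul, smul_comm]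
    · show lam⁻¹ • Y.rho (W Y.q (extG g hl x) (extG g hl y)) =
        - (lam⁻¹ • Y.rho (W Y.q (extG g hl y) (extG g hl x)))
      rw [W_swap, map_neg, smul_neg]
  · intro v w
    show cj G.toLinearEquiv (X.rho (W X.q (vv ℂ v) (vv ℂ w))) =
      lam⁻¹ • Y.rho (W Y.q (extG g hl (vv ℂ v)) (extG g hl (vv ℂ w)))
    have h1 := X.rho_lie _ _ (skew_E X.q_symm v) (skew_F X.q_symm w)
    rw [EF X.q X.q_symm, map_add, map_smul, map_smul] at h1
    have h1' := congrArg (cj G.toLinearEquiv) h1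
    rw [cj_add, cj_smul, cj_smul, cj_sub, cj_mul, cj_mul, cj_H hG, cj_E hg,
      cj_F hG hg hl hs] at h1'
    have h2 := Y.rho_lie _ _ (skew_E Y.q_symm (g v)) (skew_F Y.q_symm (g w))
    rw [EF Y.q Y.q_symm, map_add, map_smul, map_smul, hs] at h2
    have h3 : lam⁻¹ • ((lam * X.q v w) • Y.rho (H ℂ U) + (2 : ℂ) • Y.rho (S (rot Y.q (g v) (g w))))
        = X.q v w • Y.rho (H ℂ U) + lam⁻¹ • ((2 : ℂ) • Y.rho (S (rot Y.q (g v) (g w)))) := by
      rw [smul_add, smul_smul, inv_mul_cancel_left₀ hl]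
    have h4 : lam⁻¹ • (Y.rho (E Y.q (g v)) * Y.rho (F Y.q (g w)) -
        Y.rho (F Y.q (g w)) * Y.rho (E Y.q (g v))) =
        Y.rho (E Y.q (g v)) * lam⁻¹ • Y.rho (F Y.q (g w)) -
        lam⁻¹ • Y.rho (F Y.q (g w)) * Y.rho (E Y.q (g v)) := by
      rw [mul_smul_comm, smul_mul_assoc]
      exact smul_sub _ _ _
    rw [h2, h4, ← h1'] at h3
    have h5 := add_left_cancel h3
    rw [hv, hv, W_V, W_V]
    rw [smul_comm lam⁻¹ (2 : ℂ)] at h5
    exact (smul_right_injective _ (two_ne_zero (α := ℂ))) h5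

include hG hg hl hs in
theorem cj_MM (m : Module.End ℂ A) (hm : m ∈ X.MM) : cj G.toLinearEquiv m ∈ Y.MM := by
  let N : Submodule ℂ (Module.End ℂ A) :=
    { carrier := {m | cj G.toLinearEquiv m ∈ Y.MM}
      add_mem' := by
        intro m m' h h'
        show cj _ (m + m') ∈ Y.MM
        rw [cj_add]
        exact add_mem h h'
      zero_mem' := by
        show cj _ 0 ∈ Y.MM
        have : cj G.toLinearEquiv (0 : Module.End ℂ A) = 0 := by
          refine LinearMap.ext fun z => ?_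
          simp [cj_apply]
        rw [this]
        exact zero_mem _
      smul_mem' := by
        intro c m h
        show cj _ (c • m) ∈ Y.MM
        rw [cj_smul]
        exact Submodule.smul_mem _ c h }
  have h : X.MM ≤ N := by
    refine X.gen_le ?_ ?_
    · intro f hf
      obtain ⟨y, hy⟩ := (Coh.mem_LA f).1 hf
      refine Y.le_gen _ ((Coh.mem_LA _).2 ⟨G y, fun x => ?_⟩)
      rw [cj_apply, hy]
      show G (y * G.symm x) = _
      rw [map_mul, G.apply_symm_apply]
    · intro y f hf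
      show cj _ _ ∈ Y.MM
      rw [cj_sub, cj_mul, cj_mul, Coh.La, cj_F hG hg hl hs, smul_mul_assoc, mul_smul_comm]
      have h1 := Submodule.smul_mem _ lam⁻¹ (Y.gen_F (Coh.LA B) (g y) hf)
      rw [smul_sub] at h1
      exact h1
  exact h hm

end conj

include hG in
/-- A graded ring isomorphism is an intertwiner. -/
theorem exists_intw : ∃ P : Intw X Y, (∀ x, P.u x = G x) ∧ (∀ v, P.g (vv ℂ v) = vv ℂ (P.g (vv ℂ v)).2.1) ∧
    (∀ v, Y.i (P.g (vv ℂ v)).2.1 = G (X.i v)) ∧ P.g (al ℂ V) = al ℂ U ∧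
    P.g (be ℂ V) = P.lam • be ℂ U := by
  obtain ⟨g, hg⟩ := exists_g X Y G.toLinearEquiv hG
  have hg' : ∀ v, Y.i (g v) = G (X.i v) := hg
  obtain ⟨lam, hl, hs⟩ := exists_sim X Y G hG g hg'
  have hG' : ∀ x, G.symm (Y.rho (H ℂ U) x) = X.rho (H ℂ V) (G.symm x) := by
    intro x
    apply G.injective
    rw [G.apply_symm_apply, hG, G.apply_symm_apply]
  have hg2 : ∀ v, X.i (g.symm v) = G.symm (Y.i v) := by
    intro v
    apply G.injective
    rw [← hg', g.apply_symm_apply, G.apply_symm_apply]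
  have hs' : ∀ v w, X.q (g.symm v) (g.symm w) = lam⁻¹ * Y.q v w := by
    intro v w
    have h := hs (g.symm v) (g.symm w)
    rw [g.apply_symm_apply, g.apply_symm_apply] at h
    rw [h, inv_mul_cancel_left₀ hl]
  refine ⟨{ u := G.toLinearEquiv
            g := extG g hl
            lam := lam
            lam_ne := hl
            sim := fun x y => ?_
            eqv := fun x y => cj_W hG hg' hl hs x y
            mm := fun m hm => cj_MM hG hg' hl hs m hm
            mm' := fun m hm => ?_ }, fun x => rfl, fun v => ?_, fun v => ?_, ?_, ?_⟩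
  · simp only [bil_apply, extG_apply, hs]
    ring
  · exact cj_MM (X := Y) (Y := X) (G := G.symm) hG' hg2 (inv_ne_zero hl) hs' m hm
  · simp [extG_apply, vv]
  · rw [← hg']
    simp [extG_apply, vv]
  · simp [extG_apply, al]
  · simp [extG_apply, be]

end Pool.Agent.Q8.HK
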