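import Mathlib
import Pool.Agent.Q8.HK.Data

/-!
# The cohomological shape of a derived equivalence of hyper-Kähler varieties
-/

set_option autoImplicit false

open Module

namespace Pool.Agent.Q8.HK

variable {n : ℕ} {A V : Type} [Ring A] [Algebra ℂ A] [AddCommGroup V] [Module ℂ V]
variable {B U : Type} [Ring B] [Algebra ℂ B] [AddCommGroup U] [Module ℂ U]

namespace Coh

variable (X : Coh n A V)

/-- `τ = q(σ, σ̄)` -/
def tau : ℂ := X.q X.s X.s'

/-- The Hodge operator, which acts on `H^{p,q}(X)` as multiplication by `p − q`: the image under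
the Looijenga–Lunts–Verbitsky representation of `2/τ` times the rotation
`z ↦ q(σ̄,z)σ − q(σ,z)σ̄` of `H²`. -/
noncomputable def eta : Module.End ℂ A :=
  (2 / X.tau) • X.rho (S ((X.q X.s').smulRight X.s - (X.q X.s).smulRight X.s'))

/-- The holomorphic Lefschetz operator: multiplication by `σ`. -/
noncomputable def eS : Module.End ℂ A := X.rho (E X.q X.s)

/-- The dual holomorphic Lefschetz operator: contraction with the dual bivector of `σ`. -/
noncomputable def fS : Module.End ℂ A := X.rho (F X.q ((2 * X.tau)⁻¹ • X.s'))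

/-- The Weyl element `exp(e) exp(−f) exp(e)` of the holomorphic Lefschetz algebra. -/
noncomputable def w : Module.End ℂ A :=
  ex ℂ (2 * n + 1) X.eS * ex ℂ (2 * n + 1) (-X.fS) * ex ℂ (2 * n + 1) X.eS

/-- The inverse of the Weyl element. -/
noncomputable def w' : Module.End ℂ A :=
  ex ℂ (2 * n + 1) (-X.eS) * ex ℂ (2 * n + 1) X.fS * ex ℂ (2 * n + 1) (-X.eS)

/-- The operators by which polyvector fields act on cohomology by contraction: the conjugates
of the multiplication operators by the Weyl element of the holomorphic Lefschetz algebra. -/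
noncomputable def poly (y : A) : Module.End ℂ A := X.w * LinearMap.mulLeft ℂ y * X.w'

/-- the involution `v ↦ v^∨ = ∑ (√−1)^k v_k` -/
noncomputable def dual : A →ₗ[ℂ] A := X.b.constr ℂ fun j => (Complex.I ^ (X.d j)) • X.b j

/-- the Mukai pairing `∫ v^∨ w` -/
noncomputable def mukai (v w : A) : ℂ := X.int (X.dual v * w)

end Coh

/-- The cohomological shape of a (possibly twisted) derived equivalence between hyper-Kähler
varieties. -/
structure DerEq (X : Coh n A V) (Y : Coh n B U) where
  /-- the isomorphism of total cohomology spaces -/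
  Φ : A ≃ₗ[ℂ] B
  rat : ∀ x, IsRat X.b x ↔ IsRat Y.b (Φ x)
  hodge : ∀ x, Φ (X.eta x) = Y.eta (Φ x)
  poly : ∀ y, ∃ y', ∀ x, Φ (X.poly y x) = Y.poly y' (Φ x)

end Pool.Agent.Q8.HK
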