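import Mathlib
import Pool.Agent.Q8.HK.Stm
import Pool.Agent.Q8.HK.RingI

/-!
# Derived equivalences are intertwiners
-/

set_option autoImplicit false
set_option linter.unusedSimpArgs false
set_option linter.style.haveILetI false

open Module

namespace Pool.Agent.Q8.HK

variable {n : ℕ} {A V : Type} [Ring A] [Algebra ℂ A] [AddCommGroup V] [Module ℂ V]
variable {B U : Type} [Ring B] [Algebra ℂ B] [AddCommGroup U] [Module ℂ U]

/-- rescaling an intertwiner -/
noncomputable def Intw.scale {X : Coh n A V} {Y : Coh n B U} (P : Intw X Y) (c : ℂ)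
    (hc : c ≠ 0) : Intw X Y where
  u := P.u.trans (LinearEquiv.smulOfNeZero ℂ B c hc)
  g := P.g
  lam := P.lam
  lam_ne := P.lam_ne
  sim := P.sim
  eqv x y := by
    rw [cj_trans, P.eqv, cj_smul]
    congr 1
    refine LinearMap.ext fun z => ?_
    rw [cj_apply]
    show c • Y.rho _ (c⁻¹ • z) = _
    rw [map_smul, smul_smul, mul_inv_cancel₀ hc, one_smul]
  mm m hm := by
    rw [cj_trans]
    have h : cj (LinearEquiv.smulOfNeZero ℂ B c hc) (cj P.u m) = cj P.u m := by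
      refine LinearMap.ext fun z => ?_
      rw [cj_apply]
      show c • (cj P.u m) (c⁻¹ • z) = _
      rw [map_smul, smul_smul, mul_inv_cancel₀ hc, one_smul]
    rw [h]
    exact P.mm m hm
  mm' m hm := by
    have h : cj (P.u.trans (LinearEquiv.smulOfNeZero ℂ B c hc)).symm m = cj P.u.symm m := by
      refine LinearMap.ext fun z => ?_
      rw [cj_apply, cj_apply]
      show P.u.symm (c⁻¹ • m (c • P.u z)) = _
      rw [map_smul m, smul_smul, inv_mul_cancel₀ hc, one_smul]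
      rfl
    rw [h]
    exact P.mm' m hm

namespace Coh

variable (X : Coh n A V)

theorem tau_ne : X.tau ≠ 0 := X.s_s'

/-- the Weyl element as an intertwiner -/
noncomputable def wI : Intw X X :=
  (X.expE X.s).trans ((X.expF (-((2 * X.tau)⁻¹ • X.s'))).trans (X.expE X.s))

theorem wI_u (x : A) : X.wI.u x = X.w x := by
  have h : -X.fS = X.rho (F X.q (-((2 * X.tau)⁻¹ • X.s'))) := by
    rw [fS, ← map_neg]
    congr 1
    refine LinearMap.ext fun z => ?_
    simp [F_apply]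
  rw [w, h]
  rfl

theorem w'_w (x : A) : X.w' (X.w x) = x := by
  have h1 : ex ℂ (2 * n + 1) (-X.eS) * ex ℂ (2 * n + 1) X.eS = 1 := ex_neg_mul (X.nilE _)
  have h2 : ex ℂ (2 * n + 1) X.fS * ex ℂ (2 * n + 1) (-X.fS) = 1 := ex_mul_neg (X.nilF _)
  have h : X.w' * X.w = 1 := by
    rw [w, w']
    calc _ = ex ℂ (2 * n + 1) (-X.eS) * (ex ℂ (2 * n + 1) X.fS *
          (ex ℂ (2 * n + 1) (-X.eS) * ex ℂ (2 * n + 1) X.eS) * ex ℂ (2 * n + 1) (-X.fS)) *
          ex ℂ (2 * n + 1) X.eS := by simp only [mul_assoc]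
      _ = 1 := by rw [h1, mul_one, h2, mul_one, h1]
  exact LinearMap.congr_fun h x

theorem wI_al : X.wI.g (al ℂ V) = vv ℂ X.s := by
  have ht := X.tau_ne
  show (X.expE X.s).g ((X.expF (-((2 * X.tau)⁻¹ • X.s'))).g ((X.expE X.s).g (al ℂ V))) = _
  simp only [expE_g, expF_g, al, vv, map_neg, map_smul, map_add, LinearMap.neg_apply,
    LinearMap.smul_apply, smul_eq_mul, X.s_iso, X.s'_iso, X.q_symm X.s' X.s, map_zero]
  have h : X.q X.s X.s' = X.tau := rfl
  rw [h]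
  refine Prod.ext ?_ (Prod.ext ?_ ?_)
  · simp only
    field_simp
    ring
  · simp only
    have : (1 + 2 * -((2 * X.tau)⁻¹ * (X.q X.s' (0 + (1:ℂ) • X.s))) : ℂ) = 0 := by
      rw [zero_add, one_smul, X.q_symm X.s' X.s, h]
      field_simp
      ring
    simp [X.s_iso, X.q_symm X.s' X.s, h]
    field_simp
    simp
  · simp [X.s_iso, X.q_symm X.s' X.s, h]

theorem wI_be : X.wI.g (be ℂ V) = -(X.tau)⁻¹ • vv ℂ X.s' := by
  have ht := X.tau_ne
  show (X.expE X.s).g ((X.expF (-((2 * X.tau)⁻¹ • X.s'))).g ((X.expE X.s).g (be ℂ V))) = _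
  simp only [expE_g, expF_g, be, vv]
  have h : X.q X.s X.s' = X.tau := rfl
  refine Prod.ext ?_ (Prod.ext ?_ ?_)
  · simp [X.s'_iso]
  · simp [X.s'_iso, smul_smul]
    congr 1
    field_simp
  · simp [X.s'_iso, h]
    field_simp
    simp

theorem eta_eq : X.eta = (2 / X.tau) • X.rho (W X.q (vv ℂ X.s) (vv ℂ X.s')) := by
  rw [eta, W_V]
  rfl

/-- the Weyl element conjugates the degree operator to minus the Hodge operator -/
theorem w_H (x : A) : X.w (X.rho (H ℂ V) x) = - X.eta (X.w x) := by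
  have h := X.wI.eqv (al ℂ V) (be ℂ V)
  have hl : X.wI.lam = 1 := by
    show (1 : ℂ) * 1 * 1 = 1
    norm_num
  rw [hl, X.wI_al, X.wI_be, W_smul_right, map_smul, inv_one, one_smul] at h
  have h2 := LinearMap.congr_fun h (X.wI.u x)
  rw [cj_apply, LinearEquiv.symm_apply_apply, wI_u, wI_u] at h2
  have h3 : X.rho (H ℂ V) x = (2 : ℂ) • X.rho (W X.q (al ℂ V) (be ℂ V)) x := by
    rw [← LinearMap.smul_apply, ← map_smul, W_H]
  rw [h3, map_smul, h2, eta_eq]
  simp only [LinearMap.smul_apply, smul_smul, neg_smul, smul_neg]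
  congr 2
  

end Coh

section main

variable {X : Coh n A V} {Y : Coh n B U}

/-- an isomorphism which conjugates multiplication operators to multiplication operators and
preserves degrees is a multiple of a ring isomorphism -/
theorem ring_of (G₀ : A ≃ₗ[ℂ] B) (hH : ∀ x, G₀ (X.rho (H ℂ V) x) = Y.rho (H ℂ U) (G₀ x))
    (hL : ∀ y, ∃ y', ∀ x, G₀ (y * x) = y' * G₀ x) :
    ∃ (c : ℂ) (_ : c ≠ 0) (G : A ≃ₐ[ℂ] B), ∀ x, G₀ x = c • G x := by
  have h1 : G₀ 1 ∈ grade Y.b Y.d 0 := (grade_iff X Y G₀ hH 0 1).1 X.one_mem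
  obtain ⟨c, hc⟩ := Y.connected _ h1
  have hc0 : c ≠ 0 := by
    rintro rfl
    rw [zero_smul] at hc
    exact X.one_ne (G₀.map_eq_zero_iff.1 hc)
  have key : ∀ x y, c • G₀ (x * y) = G₀ x * G₀ y := by
    intro x y
    obtain ⟨x', hx'⟩ := hL x
    have h2 := hx' 1
    rw [mul_one, hc, mul_smul_comm, mul_one] at h2
    rw [hx' y, h2, smul_mul_assoc]
  refine ⟨c, hc0, AlgEquiv.ofLinearEquiv
    (G₀.trans (LinearEquiv.smulOfNeZero ℂ B c⁻¹ (inv_ne_zero hc0))) ?_ ?_, fun x => ?_⟩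
  · show c⁻¹ • G₀ 1 = 1
    rw [hc, smul_smul, inv_mul_cancel₀ hc0, one_smul]
  · intro x y
    show c⁻¹ • G₀ (x * y) = (c⁻¹ • G₀ x) * (c⁻¹ • G₀ y)
    rw [smul_mul_smul_comm, ← key, smul_smul]
    congr 1
    field_simp
  · show G₀ x = c • (c⁻¹ • G₀ x)
    rw [smul_smul, mul_inv_cancel₀ hc0, one_smul]

/-- **A derived equivalence is an intertwiner** whose similitude of extended Mukai spaces
respects the lines of `σ` and `σ̄`. -/
theorem DerEq.intw (D : DerEq X Y) : ∃ P : Intw X Y, (∀ x, P.u x = D.Φ x) ∧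
    P.g (vv ℂ X.s) = vv ℂ Y.s ∧ ∃ t : ℂ, P.g (vv ℂ X.s') = t • vv ℂ Y.s' := by
  set G₀ : A ≃ₗ[ℂ] B := X.wI.u.trans (D.Φ.trans Y.wI.u.symm) with hG₀
  have hG₀' : ∀ x, G₀ x = Y.wI.u.symm (D.Φ (X.w x)) := by
    intro x
    rw [← X.wI_u]
    rfl
  have hw' : ∀ x, Y.w (Y.wI.u.symm x) = x := by
    intro x
    rw [← Y.wI_u, LinearEquiv.apply_symm_apply]
  have hH : ∀ x, G₀ (X.rho (H ℂ V) x) = Y.rho (H ℂ U) (G₀ x) := by
    intro x
    apply Y.wI.u.injective
    rw [hG₀', LinearEquiv.apply_symm_apply, X.w_H, map_neg, D.hodge, Y.wI_u, Y.w_H, hG₀', hw']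
  have hL : ∀ y, ∃ y', ∀ x, G₀ (y * x) = y' * G₀ x := by
    intro y
    obtain ⟨y', hy'⟩ := D.poly y
    refine ⟨y', fun x => ?_⟩
    apply Y.wI.u.injective
    have h := hy' (X.w x)
    have h1 : X.poly y (X.w x) = X.w (y * x) := by
      show X.w (y * X.w' (X.w x)) = _
      rw [X.w'_w]
    have h2 : ∀ z, Y.poly y' z = Y.w (y' * Y.w' z) := fun z => rfl
    rw [h1, h2] at h
    rw [hG₀', LinearEquiv.apply_symm_apply, h, Y.wI_u, hG₀']
    congr 2
    have h3 := Y.w'_w (Y.wI.u.symm (D.Φ (X.w x)))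
    rw [hw'] at h3
    exact h3
  obtain ⟨c, hc, G, hG⟩ := ring_of G₀ hH hL
  have hGH : ∀ x, G (X.rho (H ℂ V) x) = Y.rho (H ℂ U) (G x) := by
    intro x
    have h := hH x
    rw [hG, hG, map_smul] at h
    exact smul_right_injective _ hc h
  obtain ⟨P, hP1, -, -, hP4, hP5⟩ := exists_intw X Y G hGH
  refine ⟨((X.wI.symm.trans P).trans Y.wI).scale c hc, fun x => ?_, ?_, ?_⟩
  · show c • Y.wI.u (P.u (X.wI.u.symm x)) = D.Φ x
    rw [hP1, ← map_smul, ← hG, hG₀', LinearEquiv.apply_symm_apply, ← X.wI_u,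
      LinearEquiv.apply_symm_apply]
  · show Y.wI.g (P.g (X.wI.g.symm (vv ℂ X.s))) = _
    rw [← X.wI_al, LinearEquiv.symm_apply_apply, hP4, Y.wI_al]
  · refine ⟨X.tau * P.lam * (Y.tau)⁻¹, ?_⟩
    show Y.wI.g (P.g (X.wI.g.symm (vv ℂ X.s'))) = _
    have h1 : vv ℂ X.s' = X.wI.g (-X.tau • be ℂ V) := by
      rw [map_smul, X.wI_be, smul_smul]
      have : -X.tau * -(X.tau)⁻¹ = 1 := by
        have := X.tau_ne
        field_simp
      rw [this, one_smul]
    rw [h1, LinearEquiv.symm_apply_apply, map_smul, map_smul, hP5, map_smul, Y.wI_be, smul_smul,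
      smul_smul]
    congr 1
    ring

end main

end Pool.Agent.Q8.HK
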