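import Mathlib
import Pool.Agent.Q8.HK.Der

/-!
# Rationality
-/

set_option autoImplicit false
set_option linter.unusedSimpArgs false
set_option linter.style.haveILetI false

open Module

namespace Pool.Agent.Q8.HK

/-- rational complex numbers -/
def Rt (z : ℂ) : Prop := ∃ r : ℚ, z = (r : ℂ)

theorem Rt.add {z w : ℂ} : Rt z → Rt w → Rt (z + w) := by
  rintro ⟨r, rfl⟩ ⟨s, rfl⟩
  exact ⟨r + s, by push_cast; rfl⟩

theorem Rt.mul {z w : ℂ} : Rt z → Rt w → Rt (z * w) := by
  rintro ⟨r, rfl⟩ ⟨s, rfl⟩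
  exact ⟨r * s, by push_cast; rfl⟩

theorem Rt.neg {z : ℂ} : Rt z → Rt (-z) := by
  rintro ⟨r, rfl⟩
  exact ⟨-r, by push_cast; rfl⟩

theorem Rt.sub {z w : ℂ} (hz : Rt z) (hw : Rt w) : Rt (z - w) := by
  rw [sub_eq_add_neg]
  exact hz.add hw.neg

theorem Rt.inv {z : ℂ} : Rt z → Rt z⁻¹ := by
  rintro ⟨r, rfl⟩
  exact ⟨r⁻¹, by push_cast; rfl⟩

theorem Rt.div {z w : ℂ} (hz : Rt z) (hw : Rt w) : Rt (z / w) := by
  rw [div_eq_mul_inv]
  exact hz.mul hw.inv

theorem Rt.zero : Rt 0 := ⟨0, by simp⟩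

theorem Rt.one : Rt 1 := ⟨1, by simp⟩

theorem Rt.nat (k : ℕ) : Rt (k : ℂ) := ⟨k, by simp⟩

theorem Rt.two : Rt 2 := ⟨2, by simp⟩

theorem Rt.sum {ι : Type} (s : Finset ι) (f : ι → ℂ) (h : ∀ i ∈ s, Rt (f i)) :
    Rt (∑ i ∈ s, f i) := by
  classical
  induction s using Finset.induction_on with
  | empty => exact Rt.zero
  | insert a s ha ih =>
    rw [Finset.sum_insert ha]
    exact (h a (Finset.mem_insert_self _ _)).add
      (ih fun i hi => h i (Finset.mem_insert_of_mem hi))

variable {n : ℕ} {A V : Type} [Ring A] [Algebra ℂ A] [AddCommGroup V] [Module ℂ V]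

section base

variable {m : ℕ} {b : Basis (Fin m) ℂ A}

theorem IsRat.add {x y : A} (hx : IsRat b x) (hy : IsRat b y) : IsRat b (x + y) := by
  intro j
  rw [map_add, Finsupp.add_apply]
  exact Rt.add (hx j) (hy j)

theorem IsRat.smul {x : A} {c : ℂ} (hc : Rt c) (hx : IsRat b x) : IsRat b (c • x) := by
  intro j
  rw [map_smul, Finsupp.smul_apply, smul_eq_mul]
  exact Rt.mul hc (hx j)

theorem IsRat.zero : IsRat b (0 : A) := by
  intro j
  rw [map_zero, Finsupp.zero_apply]
  exact Rt.zero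

theorem IsRat.neg {x : A} (hx : IsRat b x) : IsRat b (-x) := by
  intro j
  rw [map_neg, Finsupp.neg_apply]
  exact Rt.neg (hx j)

theorem IsRat.sub {x y : A} (hx : IsRat b x) (hy : IsRat b y) : IsRat b (x - y) := by
  rw [sub_eq_add_neg]
  exact hx.add hy.neg

theorem IsRat.sum {ι : Type} (s : Finset ι) (f : ι → A) (h : ∀ i ∈ s, IsRat b (f i)) :
    IsRat b (∑ i ∈ s, f i) := by
  classical
  induction s using Finset.induction_on with
  | empty => exact IsRat.zero
  | insert a s ha ih =>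
    rw [Finset.sum_insert ha]
    exact (h a (Finset.mem_insert_self _ _)).add
      (ih fun i hi => h i (Finset.mem_insert_of_mem hi))

end base

namespace Coh

variable (X : Coh n A V)

/-- rational classes in `H²` -/
def RV (v : V) : Prop := IsRat X.b (X.i v)

/-- rational vectors of the extended Mukai space -/
def RE (z : ℂ × V × ℂ) : Prop := Rt z.1 ∧ X.RV z.2.1 ∧ Rt z.2.2

variable {X}

theorem RV.add {v w : V} (hv : X.RV v) (hw : X.RV w) : X.RV (v + w) := by
  rw [RV, map_add]
  exact IsRat.add hv hw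

theorem RV.smul {v : V} {c : ℂ} (hc : Rt c) (hv : X.RV v) : X.RV (c • v) := by
  rw [RV, map_smul]
  exact IsRat.smul hc hv

theorem RE.add {v w : ℂ × V × ℂ} (hv : X.RE v) (hw : X.RE w) : X.RE (v + w) :=
  ⟨hv.1.add hw.1, hv.2.1.add hw.2.1, hv.2.2.add hw.2.2⟩

theorem RE.smul {v : ℂ × V × ℂ} {c : ℂ} (hc : Rt c) (hv : X.RE v) : X.RE (c • v) :=
  ⟨hc.mul hv.1, RV.smul hc hv.2.1, hc.mul hv.2.2⟩

variable (X)

/-- scalars in `H⁰` which are rational -/
theorem rt_of_one {c : ℂ} (h : IsRat X.b (c • (1 : A))) : Rt c := by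
  have h1 : ∃ j, X.b.repr (1 : A) j ≠ 0 := by
    by_contra hcon
    push Not at hcon
    apply X.one_ne
    rw [← X.b.repr.map_eq_zero_iff]
    exact Finsupp.ext fun j => by rw [hcon j, Finsupp.zero_apply]
  obtain ⟨j, hj⟩ := h1
  have h2 := h j
  rw [map_smul, Finsupp.smul_apply, smul_eq_mul] at h2
  have h3 : Rt (X.b.repr (1 : A) j) := X.one_rat j
  have h4 := Rt.div h2 h3
  rwa [mul_div_cancel_right₀ _ hj] at h4

/-- the component of degree `k` -/
noncomputable def comp (k : ℕ) : A →ₗ[ℂ] A :=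
  X.b.constr ℂ fun j => if X.d j = k then X.b j else 0

theorem comp_repr (k : ℕ) (x : A) (j : Fin X.m) :
    X.b.repr (X.comp k x) j = if X.d j = k then X.b.repr x j else 0 := by
  have h := X.expand (X.comp k) x j
  rw [h, Finset.sum_eq_single j]
  · rw [comp, Basis.constr_basis]
    split_ifs
    · rw [Basis.repr_self, Finsupp.single_eq_same, mul_one]
    · rw [map_zero, Finsupp.zero_apply, mul_zero]
  · intro l _ hl
    rw [comp, Basis.constr_basis]
    split_ifs
    · rw [Basis.repr_self, Finsupp.single_apply, if_neg hl, mul_zero]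
    · rw [map_zero, Finsupp.zero_apply, mul_zero]
  · intro h
    exact absurd (Finset.mem_univ j) h

theorem comp_rat {k : ℕ} {x : A} (hx : IsRat X.b x) : IsRat X.b (X.comp k x) := by
  intro j
  rw [comp_repr]
  split_ifs
  · exact hx j
  · exact ⟨0, by simp⟩

theorem comp_same {k : ℕ} {x : A} (hx : x ∈ grade X.b X.d k) : X.comp k x = x := by
  apply X.b.repr.injective
  refine Finsupp.ext fun j => ?_
  rw [comp_repr]
  split_ifs with h
  · rfl
  · exact (hx j h).symm

theorem comp_ne {k l : ℕ} (hkl : l ≠ k) {x : A} (hx : x ∈ grade X.b X.d l) : X.comp k x = 0 := by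
  apply X.b.repr.injective
  refine Finsupp.ext fun j => ?_
  rw [comp_repr, map_zero, Finsupp.zero_apply]
  split_ifs with h
  · exact hx j (by rw [h]; exact fun h => hkl h.symm)
  · rfl

theorem i_mem (v : V) : X.i v ∈ grade X.b X.d 2 := (X.i_range _).2 ⟨v, rfl⟩

/-- the basis vectors of degree two -/
theorem exists_vJ : ∃ vJ : {j : Fin X.m // X.d j = 2} → V, ∀ j, X.i (vJ j) = X.b j := by
  have h : ∀ j : {j : Fin X.m // X.d j = 2}, ∃ v, X.i v = X.b j := fun j =>
    (X.i_range _).1 (by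
      have := X.b_mem j
      rwa [j.2] at this)
  choose vJ hvJ using h
  exact ⟨vJ, hvJ⟩

theorem eq_sum {vJ : {j : Fin X.m // X.d j = 2} → V} (hvJ : ∀ j, X.i (vJ j) = X.b j) (v : V) :
    v = ∑ j : {j : Fin X.m // X.d j = 2}, X.b.repr (X.i v) j • vJ j := by
  apply X.i_inj
  rw [map_sum]
  conv_lhs => rw [← X.b.sum_repr (X.i v)]
  have h1 : ∀ j : Fin X.m, j ∉ (Finset.univ.filter fun j => X.d j = 2) →
      X.b.repr (X.i v) j • X.b j = 0 := by
    intro j hj
    rw [X.i_mem v j (by simpa using hj), zero_smul]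
  rw [← Finset.sum_subset (Finset.subset_univ (Finset.univ.filter fun j => X.d j = 2))
    (fun j _ hj => h1 j hj)]
  rw [Finset.sum_subtype (p := fun j => X.d j = 2) _ (by simp)]
  refine Finset.sum_congr rfl fun j _ => ?_
  rw [map_smul, hvJ]

theorem span_rat {M : Type} [AddCommGroup M] [Module ℂ M] (f : V →ₗ[ℂ] M)
    (hf : ∀ v, X.RV v → f v = 0) (v : V) : f v = 0 := by
  obtain ⟨vJ, hvJ⟩ := X.exists_vJ
  rw [X.eq_sum hvJ v, map_sum]
  refine Finset.sum_eq_zero fun j _ => ?_
  rw [map_smul, hf (vJ j), smul_zero]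
  rw [RV, hvJ]
  exact X.b_rat j

/-- a class with rational pairings is rational -/
theorem rv_of_q {y : V} (hy : ∀ z, X.RV z → Rt (X.q z y)) : X.RV y := by
  classical
  obtain ⟨vJ, hvJ⟩ := X.exists_vJ
  have hr : ∀ j, X.RV (vJ j) := by
    intro j
    rw [RV, hvJ]
    exact X.b_rat j
  have hG : ∀ j k, ∃ r : ℚ, X.q (vJ j) (vJ k) = (r : ℂ) := fun j k => X.q_rat _ _ (hr j) (hr k)
  choose G₀ hG₀ using hG
  set G : Matrix {j : Fin X.m // X.d j = 2} {j : Fin X.m // X.d j = 2} ℚ := G₀ with hGdef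
  have hinj : Function.Injective (Matrix.mulVecLin G) := by
    rw [injective_iff_map_eq_zero]
    intro c hc
    have h1 : ∀ j, X.q (vJ j) (∑ k, (c k : ℂ) • vJ k) = 0 := by
      intro j
      have h2 := congrFun hc j
      simp only [Matrix.mulVecLin_apply, Matrix.mulVec, dotProduct, Pi.zero_apply] at h2
      rw [map_sum]
      have h3 : (∑ k, ((G j k * c k : ℚ) : ℂ)) = 0 := by
        rw [← Rat.cast_sum, h2, Rat.cast_zero]
      rw [← h3]
      refine Finset.sum_congr rfl fun k _ => ?_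
      rw [map_smul, hG₀, smul_eq_mul, mul_comm]
      push_cast
      rfl
    have h4 : ∑ k, (c k : ℂ) • vJ k = 0 := by
      refine X.q_nondeg _ fun y => ?_
      rw [X.q_symm]
      refine X.span_rat ((X.q).flip (∑ k, (c k : ℂ) • vJ k)) (fun v _ => ?_) y
      have h7 : X.q v = ∑ j : {j : Fin X.m // X.d j = 2}, X.b.repr (X.i v) j • X.q (vJ j) := by
        conv_lhs => rw [X.eq_sum hvJ v]
        rw [map_sum]
        simp only [map_smul]
      rw [LinearMap.flip_apply, h7, LinearMap.sum_apply]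
      refine Finset.sum_eq_zero fun j _ => ?_
      rw [LinearMap.smul_apply, h1, smul_zero]
    have h5 := congrArg X.i h4
    rw [map_sum, map_zero] at h5
    funext k
    have h6 := congrArg (fun x => X.b.repr x (k : Fin X.m)) h5
    simp only [map_sum, map_smul, hvJ, Basis.repr_self, Finsupp.finsetSum_apply,
      Finsupp.smul_apply, Finsupp.single_apply, smul_eq_mul, map_zero, Finsupp.zero_apply] at h6
    rw [Finset.sum_eq_single k] at h6
    · simp only [if_true, mul_one] at h6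
      exact_mod_cast h6
    · intro l _ hl
      rw [if_neg, mul_zero]
      intro h
      exact hl (Subtype.ext h)
    · intro h
      exact absurd (Finset.mem_univ k) h
  have hunit : IsUnit G := by
    rw [← Matrix.mulVec_injective_iff_isUnit]
    exact hinj
  have hinv : G⁻¹ * G = 1 := Matrix.nonsing_inv_mul G ((Matrix.isUnit_iff_isUnit_det G).1 hunit)
  -- the coordinates of `y`
  set c : {j : Fin X.m // X.d j = 2} → ℂ := fun j => X.b.repr (X.i y) j with hc
  have hyc : y = ∑ j, c j • vJ j := X.eq_sum hvJ y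
  have hgy : ∀ j, ∑ k, (G j k : ℂ) * c k = X.q (vJ j) y := by
    intro j
    conv_rhs => rw [hyc]
    rw [map_sum]
    refine Finset.sum_congr rfl fun k _ => ?_
    rw [map_smul, hG₀, smul_eq_mul, mul_comm]
  have hck : ∀ k, Rt (c k) := by
    intro k
    have h1 : c k = ∑ j, ((G⁻¹ k j : ℚ) : ℂ) * X.q (vJ j) y := by
      have h2 : ∀ l, ∑ j, ((G⁻¹ k j : ℚ) : ℂ) * (G j l : ℂ) = if k = l then 1 else 0 := by
        intro l
        have h3 := congrFun (congrFun hinv k) l
        rw [Matrix.mul_apply, Matrix.one_apply] at h3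
        have h4 : ((∑ j, G⁻¹ k j * G j l : ℚ) : ℂ) = if k = l then 1 else 0 := by
          rw [h3]
          split_ifs <;> simp
        rw [← h4]
        push_cast
        rfl
      simp only [← hgy, Finset.mul_sum]
      rw [Finset.sum_comm]
      rw [Finset.sum_eq_single k]
      · simp only [← mul_assoc]
        rw [← Finset.sum_mul, h2, if_pos rfl, one_mul]
      · intro l _ hl
        simp only [← mul_assoc]
        rw [← Finset.sum_mul, h2, if_neg (Ne.symm hl), zero_mul]
      · intro h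
        exact absurd (Finset.mem_univ k) h
    rw [h1]
    exact Rt.sum _ _ fun j _ => Rt.mul ⟨_, rfl⟩ (hy _ (hr j))
  rw [RV]
  intro j
  by_cases hj : X.d j = 2
  · exact hck ⟨j, hj⟩
  · rw [X.i_mem y j hj]
    exact ⟨0, by simp⟩

/-- derivations kill `1` -/
theorem rho_S_one {t : Module.End ℂ V} (ht : ∀ x y, X.q (t x) y = - X.q x (t y)) :
    X.rho (S t) 1 = 0 := by
  have h := X.rho_S t ht 1 1
  rw [mul_one, mul_one, one_mul] at h
  have h2 : X.rho (S t) 1 + 0 = X.rho (S t) 1 + X.rho (S t) 1 := by rw [add_zero]; exact h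
  exact (add_left_cancel h2).symm

theorem rho_F_one (y : V) : X.rho (F X.q y) 1 = 0 := by
  have h1 : X.rho (F X.q y) 1 = 0 := by
    apply X.b.repr.injective
    refine Finsupp.ext fun j => ?_
    rw [X.expand, map_zero, Finsupp.zero_apply]
    refine Finset.sum_eq_zero fun k _ => ?_
    by_cases hk : X.d k = 0
    · rw [X.degF y j k, mul_zero]
      rw [hk]
      have := X.d_le j
      omega
    · rw [X.one_mem k hk, zero_mul]
  exact h1

theorem rho_E_one (x : V) : X.rho (E X.q x) 1 = X.i x := by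
  rw [X.rho_E, mul_one]

theorem rho_H_one : X.rho (H ℂ V) 1 = (-(2 * n : ℂ)) • (1 : A) := by
  rw [X.rho_H 0 1 X.one_mem]
  congr 1
  push_cast
  ring

theorem rho_H_i (z : V) : X.rho (H ℂ V) (X.i z) = (2 - 2 * n : ℂ) • X.i z := by
  rw [X.rho_H 2 _ (X.i_mem z)]
  norm_num

theorem rho_F_i (y z : V) : X.rho (F X.q y) (X.i z) = (2 * n * X.q z y : ℂ) • (1 : A) := by
  have h := LinearMap.congr_fun (X.rho_lie _ _ (skew_E X.q_symm z) (skew_F X.q_symm y)) 1
  rw [EF X.q X.q_symm, map_add, map_smul, map_smul, LinearMap.sub_apply, Module.End.mul_apply,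
    Module.End.mul_apply, X.rho_F_one, map_zero, X.rho_E_one, LinearMap.add_apply,
    LinearMap.smul_apply, LinearMap.smul_apply, X.rho_H_one,
    X.rho_S_one (rot_skew X.q X.q_symm z y), smul_zero, add_zero, zero_sub, smul_smul] at h
  rw [← neg_eq_iff_eq_neg.2 h, ← neg_smul]
  congr 1
  ring

theorem SE {t : Module.End ℂ V} (ht : ∀ x y, X.q (t x) y = - X.q x (t y)) (z : V) :
    S t * E X.q z - E X.q z * S t = E X.q (t z) := by
  refine LinearMap.ext fun w => ?_
  simp [E_apply, S_apply, ht]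

theorem rho_S_i {t : Module.End ℂ V} (ht : ∀ x y, X.q (t x) y = - X.q x (t y)) (z : V) :
    X.rho (S t) (X.i z) = X.i (t z) := by
  have h := LinearMap.congr_fun (X.rho_lie _ _ (skew_S ht) (skew_E X.q_symm z)) 1
  rw [X.SE ht, X.rho_E_one, LinearMap.sub_apply, Module.End.mul_apply, Module.End.mul_apply,
    X.rho_E_one, X.rho_S_one ht, map_zero, sub_zero] at h
  exact h.symm

/-- a skew endomorphism acting rationally on cohomology is rational -/
theorem rat_of_rho {a : Module.End ℂ (ℂ × V × ℂ)} (ha : Skew X.q a)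
    (hr : ∀ x, IsRat X.b x → IsRat X.b (X.rho a x)) (z : ℂ × V × ℂ) (hz : X.RE z) :
    X.RE (a z) := by
  obtain ⟨x, y, c, t, ht, rfl⟩ := skew_decomp X.q_symm ha
  have hn : (n : ℂ) ≠ 0 := Nat.cast_ne_zero.2 X.n_pos.ne'
  have hadd : ∀ w, X.rho (E X.q x + F X.q y + c • H ℂ V + S t) w =
      X.rho (E X.q x) w + X.rho (F X.q y) w + c • X.rho (H ℂ V) w + X.rho (S t) w := by
    intro w
    rw [map_add, map_add, map_add, map_smul]
    rfl
  have h1 := hr 1 X.one_rat
  rw [hadd, X.rho_E_one, X.rho_F_one, X.rho_H_one, X.rho_S_one ht, add_zero, add_zero,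
    smul_smul] at h1
  have hc : Rt c := by
    have h2 := X.comp_rat (k := 0) h1
    rw [map_add, X.comp_ne (by norm_num) (X.i_mem x), zero_add, map_smul,
      X.comp_same X.one_mem] at h2
    have h3 := (X.rt_of_one h2).div (Rt.mul Rt.two (Rt.nat n)).neg
    rwa [mul_div_cancel_right₀] at h3
    exact neg_ne_zero.2 (mul_ne_zero two_ne_zero hn)
  have hx : X.RV x := by
    have h2 := X.comp_rat (k := 2) h1
    rw [map_add, X.comp_same (X.i_mem x), map_smul, X.comp_ne (by norm_num) X.one_mem, smul_zero,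
      add_zero] at h2
    exact h2
  have hty : ∀ z, X.RV z → Rt (X.q z y) ∧ X.RV (t z) := by
    intro z hz
    have h2 := hr _ hz
    rw [hadd, X.rho_F_i, X.rho_H_i, X.rho_S_i ht, X.rho_E] at h2
    have hm4 : X.i x * X.i z ∈ grade X.b X.d 4 := X.mul_mem 2 2 _ _ (X.i_mem x) (X.i_mem z)
    constructor
    · have h3 := X.comp_rat (k := 0) h2
      rw [map_add, map_add, map_add, X.comp_ne (by norm_num) hm4, zero_add, map_smul,
        X.comp_same X.one_mem, map_smul, map_smul, X.comp_ne (by norm_num) (X.i_mem z),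
        smul_zero, smul_zero, X.comp_ne (by norm_num) (X.i_mem (t z)), add_zero, add_zero] at h3
      have h4 := (X.rt_of_one h3).div (Rt.mul Rt.two (Rt.nat n))
      rwa [mul_div_cancel_left₀] at h4
      exact mul_ne_zero two_ne_zero hn
    · have h3 := X.comp_rat (k := 2) h2
      rw [map_add, map_add, map_add, X.comp_ne (by norm_num) hm4, zero_add, map_smul,
        X.comp_ne (by norm_num) X.one_mem, smul_zero, zero_add, map_smul, map_smul,
        X.comp_same (X.i_mem z), X.comp_same (X.i_mem (t z))] at h3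
      have h4 : IsRat X.b (c • (2 - 2 * n : ℂ) • X.i z) :=
        IsRat.smul hc (IsRat.smul (Rt.two.sub (Rt.two.mul (Rt.nat n))) hz)
      have h5 := h3.sub h4
      rwa [add_sub_cancel_left] at h5
  have hy : X.RV y := X.rv_of_q fun z hz => (hty z hz).1
  obtain ⟨z1, z2, z3⟩ := hz
  refine ⟨?_, ?_, ?_⟩
  · show Rt (0 + 2 * X.q y z.2.1 + c • (-2 * z.1) + 0)
    refine ((Rt.zero.add (Rt.two.mul (X.q_rat _ _ hy z2))).add
      (hc.mul ((Rt.two.neg).mul z1))).add Rt.zero
  · show X.RV (z.1 • x + (2 * z.2.2) • y + c • (0 : V) + t z.2.1)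
    rw [smul_zero, add_zero]
    exact ((RV.smul z1 hx).add (RV.smul (Rt.two.mul z3) hy)).add (hty _ z2).2
  · show Rt (X.q x z.2.1 + 0 + c • (2 * z.2.2) + 0)
    exact Rt.add (Rt.add (Rt.add (X.q_rat _ _ hx z2) Rt.zero) (hc.mul (Rt.two.mul z3))) Rt.zero

end Coh

end Pool.Agent.Q8.HK
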