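import Mathlib
import Pool.Agent.Q8.HK.Rat

/-!
# The Mukai pairing
-/

set_option autoImplicit false
set_option linter.unusedSimpArgs false
set_option linter.style.haveILetI false

open Module

namespace Pool.Agent.Q8.HK

variable {n : ℕ} {A V : Type} [Ring A] [Algebra ℂ A] [AddCommGroup V] [Module ℂ V]

namespace Coh

variable (X : Coh n A V)

/-- the Mukai pairing as a bilinear form -/
noncomputable def muk : LinearMap.BilinForm ℂ A :=
  ((LinearMap.mul ℂ A) ∘ₗ X.dual).compr₂ X.int

theorem muk_apply (x y : A) : X.muk x y = X.mukai x y := rfl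

theorem muk_eq (x y : A) : X.muk x y = X.int (X.dual x * y) := rfl

theorem dual_b (j : Fin X.m) : X.dual (X.b j) = Complex.I ^ (X.d j) • X.b j := by
  rw [dual, Basis.constr_basis]

theorem dual_grade {k : ℕ} {x : A} (hx : x ∈ grade X.b X.d k) :
    X.dual x = Complex.I ^ k • x := by
  conv_lhs => rw [← X.b.sum_repr x]
  conv_rhs => rw [← X.b.sum_repr x]
  rw [map_sum, Finset.smul_sum]
  refine Finset.sum_congr rfl fun j _ => ?_
  rw [map_smul, X.dual_b]
  by_cases h : X.d j = k
  · rw [h, smul_comm]
  · rw [hx j h, zero_smul, zero_smul, smul_zero]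

theorem dual_one : X.dual 1 = 1 := by
  rw [X.dual_grade X.one_mem, pow_zero, one_smul]

theorem dual_i (z : V) (x : A) : X.dual (X.i z * x) = -(X.i z * X.dual x) := by
  rw [← X.b.sum_repr x, Finset.mul_sum, map_sum, map_sum, Finset.mul_sum, ← Finset.sum_neg_distrib]
  refine Finset.sum_congr rfl fun j _ => ?_
  rw [mul_smul_comm, map_smul, map_smul, X.dual_grade (X.mul_mem _ _ _ _ (X.i_mem z) (X.b_mem j)),
    X.dual_b, mul_smul_comm, mul_smul_comm, pow_add, Complex.I_sq]
  simp only [neg_mul, one_mul, neg_smul, smul_neg]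

theorem muk_E (z : V) (x y : A) :
    X.muk (X.rho (E X.q z) x) y = - X.muk x (X.rho (E X.q z) y) := by
  rw [muk_eq, muk_eq, X.rho_E, X.rho_E, X.dual_i, neg_mul, map_neg, X.central, mul_assoc]

theorem muk_H (x y : A) :
    X.muk (X.rho (H ℂ V) x) y = - X.muk x (X.rho (H ℂ V) y) := by
  have key : ∀ j k, X.muk (X.rho (H ℂ V) (X.b j)) (X.b k) =
      - X.muk (X.b j) (X.rho (H ℂ V) (X.b k)) := by
    intro j k
    rw [X.rho_H _ _ (X.b_mem j), X.rho_H _ _ (X.b_mem k), map_smul, map_smul,
      LinearMap.smul_apply, smul_eq_mul, smul_eq_mul]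
    by_cases h : X.d j + X.d k = 4 * n
    · have h' : (X.d j : ℂ) + X.d k = 4 * n := by exact_mod_cast h
      linear_combination (X.muk (X.b j) (X.b k)) * h'
    · have h0 : X.muk (X.b j) (X.b k) = 0 := by
        rw [muk_eq, X.dual_b, smul_mul_assoc, map_smul,
          X.int_grade _ h _ (X.mul_mem _ _ _ _ (X.b_mem j) (X.b_mem k)), smul_zero]
      rw [h0]
      simp
  have h1 : X.muk ∘ₗ X.rho (H ℂ V) = -(X.muk.compl₂ (X.rho (H ℂ V))) := by
    refine X.b.ext fun j => X.b.ext fun k => ?_
    exact key j k
  exact LinearMap.congr_fun (LinearMap.congr_fun h1 x) y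

theorem dual_inj {x : A} (h : X.dual x = 0) : x = 0 := by
  apply X.b.repr.injective
  refine Finsupp.ext fun j => ?_
  have h1 := X.expand X.dual x j
  rw [h, map_zero, Finsupp.zero_apply, Finset.sum_eq_single j] at h1
  · rw [X.dual_b, map_smul, Finsupp.smul_apply, Basis.repr_self, Finsupp.single_eq_same,
      smul_eq_mul, mul_one] at h1
    rw [map_zero, Finsupp.zero_apply]
    exact (mul_eq_zero.1 h1.symm).resolve_right (pow_ne_zero _ Complex.I_ne_zero)
  · intro l _ hl
    rw [X.dual_b, map_smul, Finsupp.smul_apply, Basis.repr_self, Finsupp.single_apply,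
      if_neg hl, smul_zero, mul_zero]
  · intro h
    exact absurd (Finset.mem_univ j) h

theorem muk_left {x : A} (h : ∀ y, X.muk x y = 0) : x = 0 :=
  X.dual_inj (X.duality _ h)

theorem muk_right {y : A} (h : ∀ x, X.muk x y = 0) : y = 0 := by
  -- by graded commutativity of the product
  have h1 : ∀ x, X.int (x * y) = 0 := by
    intro x
    rw [← X.b.sum_repr x, Finset.sum_mul, map_sum]
    refine Finset.sum_eq_zero fun j _ => ?_
    have h2 := h (X.b j)
    rw [muk_eq, X.dual_b, smul_mul_assoc, map_smul, smul_eq_mul] at h2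
    rw [smul_mul_assoc, map_smul,
      (mul_eq_zero.1 h2).resolve_left (pow_ne_zero _ Complex.I_ne_zero), smul_zero]
  refine X.duality y fun x => ?_
  rw [← X.b.sum_repr x, Finset.mul_sum, map_sum]
  refine Finset.sum_eq_zero fun j _ => ?_
  rw [mul_smul_comm, map_smul]
  -- the integral of `y b_j`
  have h3 : X.int (y * X.b j) = (-1 : ℂ) ^ ((4 * n - X.d j) * X.d j) * X.int (X.b j * y) := by
    conv_lhs => rw [← X.b.sum_repr y]
    conv_rhs => rw [← X.b.sum_repr y]
    rw [Finset.sum_mul, Finset.mul_sum, map_sum, map_sum, Finset.mul_sum]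
    refine Finset.sum_congr rfl fun k _ => ?_
    rw [smul_mul_assoc, mul_smul_comm, map_smul, map_smul, smul_eq_mul, smul_eq_mul]
    by_cases hk : X.d k + X.d j = 4 * n
    · have hk' : X.d k = 4 * n - X.d j := by omega
      rw [X.comm _ _ _ _ (X.b_mem k) (X.b_mem j), map_smul, smul_eq_mul, hk']
      ring
    · rw [X.int_grade _ hk _ (X.mul_mem _ _ _ _ (X.b_mem k) (X.b_mem j)),
        X.int_grade (X.d j + X.d k) (by omega) _ (X.mul_mem _ _ _ _ (X.b_mem j) (X.b_mem k))]
      simp
  rw [h3, h1, mul_zero, smul_zero]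

theorem muk_nondeg : X.muk.Nondegenerate :=
  ⟨fun _ h => X.muk_left h, fun _ h => X.muk_right h⟩

/-- the lowering operators are skew for the Mukai pairing -/
theorem muk_F {z : V} (hz : X.q z z ≠ 0) (x y : A) :
    X.muk (X.rho (F X.q z) x) y = - X.muk x (X.rho (F X.q z) y) := by
  haveI := X.fin
  set f := X.rho (F X.q z) with hf
  set h := X.rho (H ℂ V) with hh
  set e := X.rho (E X.q z) with he
  obtain ⟨f', hf'⟩ : ∃ f' : Module.End ℂ A, ∀ x y, X.muk (f' x) y = X.muk x (f y) :=
    ⟨_, fun x y => LinearMap.BilinForm.isAdjointPairLeftAdjointOfNondegenerate X.muk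
      X.muk_nondeg f x y⟩
  have hef : e * f - f * e = X.q z z • h := X.EF_self z
  have hhf : h * f - f * h = (-2 : ℂ) • f := by
    rw [hh, hf, ← X.rho_lie _ _ skew_H (skew_F X.q_symm z), X.FH, map_smul]
  have hP : f + f' = 0 := by
    refine X.partner hz ?_ ?_
    · refine LinearMap.ext fun x => ?_
      rw [← sub_eq_zero]
      refine X.muk_left fun y => ?_
      have e1 := LinearMap.congr_fun hhf x
      have e2 := LinearMap.congr_fun hhf y
      simp only [LinearMap.sub_apply, Module.End.mul_apply, LinearMap.smul_apply] at e1 e2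
      have e1' := congrArg (fun t => X.muk t y) e1
      have e2' := congrArg (fun t => X.muk x t) e2
      simp only [map_sub, map_smul, LinearMap.sub_apply, LinearMap.smul_apply, smul_eq_mul]
        at e1' e2'
      simp only [LinearMap.sub_apply, Module.End.mul_apply, LinearMap.smul_apply,
        LinearMap.add_apply, map_add, map_sub, map_smul, smul_eq_mul]
      have m1 := X.muk_H (f' x) y
      have m2 := hf' x (h y)
      have m3 := hf' (h x) y
      have m4 := X.muk_H x (f y)
      have m5 := hf' x y
      rw [← hh] at m1 m4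
      linear_combination e1' + e2' + m1 - m2 - m3 - m4 + 2 * m5
    · refine LinearMap.ext fun x => ?_
      refine X.muk_left fun y => ?_
      have e1 := LinearMap.congr_fun hef x
      have e2 := LinearMap.congr_fun hef y
      simp only [LinearMap.sub_apply, Module.End.mul_apply, LinearMap.smul_apply] at e1 e2
      have e1' := congrArg (fun t => X.muk t y) e1
      have e2' := congrArg (fun t => X.muk x t) e2
      simp only [map_sub, map_smul, LinearMap.sub_apply, LinearMap.smul_apply, smul_eq_mul]
        at e1' e2'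
      simp only [LinearMap.sub_apply, Module.End.mul_apply, LinearMap.smul_apply,
        LinearMap.add_apply, map_add, map_sub, map_smul, smul_eq_mul]
      have m1 := X.muk_E z (f' x) y
      have m2 := hf' x (e y)
      have m3 := hf' (e x) y
      have m4 := X.muk_E z x (f y)
      have m5 := X.muk_H x y
      rw [← he] at m1 m4
      rw [← hh] at m5
      linear_combination e1' + e2' + m1 - m2 - m3 - m4 + X.q z z * m5
  have h1 := hf' x y
  have h2 : f' x = - f x := by
    have := LinearMap.congr_fun hP x
    rw [LinearMap.add_apply, LinearMap.zero_apply] at this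
    exact eq_neg_of_add_eq_zero_right this
  rw [h2, map_neg, LinearMap.neg_apply] at h1
  rw [← h1, neg_neg]

/-- exponentials of skew operators are isometries -/
theorem muk_ex {f : Module.End ℂ A} {N : ℕ} (hN : f ^ N = 0)
    (hf : ∀ x y, X.muk (f x) y = - X.muk x (f y)) (x y : A) :
    X.muk (ex ℂ N f x) (ex ℂ N f y) = X.muk x y := by
  have h1 : ∀ k x y, X.muk ((f ^ k) x) y = X.muk x (((-f) ^ k) y) := by
    intro k
    induction k with
    | zero => intro x y; rfl
    | succ k ih =>
      intro x y
      rw [pow_succ, Module.End.mul_apply, ih, hf, pow_succ', Module.End.mul_apply,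
        LinearMap.neg_apply, map_neg]
  have h2 : ∀ x y, X.muk (ex ℂ N f x) y = X.muk x (ex ℂ N (-f) y) := by
    intro x y
    simp only [ex, LinearMap.sum_apply, LinearMap.smul_apply, map_sum, map_smul, h1]
  rw [h2, ← Module.End.mul_apply, ex_neg_mul hN, Module.End.one_apply]

end Coh

end Pool.Agent.Q8.HK
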