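import Mathlib
import Pool.Agent.Q8.HK.Muk

/-!
# Moving rational isotropic lines by unipotent Hodge isometries
-/

set_option autoImplicit false
set_option linter.unusedSimpArgs false
set_option linter.style.haveILetI false

open Module

namespace Pool.Agent.Q8.HK

variable {n : ℕ} {A V : Type} [Ring A] [Algebra ℂ A] [AddCommGroup V] [Module ℂ V]

namespace Coh

variable (X : Coh n A V)

/-- rational classes of Hodge type `(1,1)` -/
def NS (x : V) : Prop := IsRat X.b (X.i x) ∧ X.q x X.s = 0 ∧ X.q x X.s' = 0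

/-- A ring of endomorphisms of the cohomology (such as the ring of algebraic correspondences)
which contains the rational scalars, the multiplications by rational `(1,1)`-classes and the
dual Lefschetz operator of the ample class. -/
structure LefRing (R : Subring (Module.End ℂ A)) : Prop where
  scalar : ∀ r : ℚ, (r : ℂ) • (1 : Module.End ℂ A) ∈ R
  mul : ∀ x, X.NS x → LinearMap.mulLeft ℂ (X.i x) ∈ R
  dualLef : X.rho (F X.q X.l) ∈ R

variable {X}

theorem LefRing.smul {R : Subring (Module.End ℂ A)} (hR : X.LefRing R) {c : ℂ} (hc : Rt c)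
    {f : Module.End ℂ A} (hf : f ∈ R) : c • f ∈ R := by
  obtain ⟨r, rfl⟩ := hc
  have h := R.mul_mem (hR.scalar r) hf
  rwa [smul_mul_assoc, one_mul] at h

theorem LefRing.ex {R : Subring (Module.End ℂ A)} (hR : X.LefRing R)
    {f : Module.End ℂ A} (hf : f ∈ R) (N : ℕ) : ex ℂ N f ∈ R := by
  refine R.sum_mem fun k _ => hR.smul (Rt.inv (Rt.nat _)) (R.pow_mem hf k)

theorem ex_rat {f : Module.End ℂ A} (hf : ∀ x, IsRat X.b x → IsRat X.b (f x)) (N : ℕ) (x : A)
    (hx : IsRat X.b x) : IsRat X.b (Pool.Agent.Q8.HK.ex ℂ N f x) := by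
  rw [HK.ex, LinearMap.sum_apply]
  refine IsRat.sum _ _ fun k hk => ?_
  rw [LinearMap.smul_apply]
  refine IsRat.smul (Rt.inv (Rt.nat _)) ?_
  clear hk
  induction k with
  | zero => exact hx
  | succ k ih =>
    rw [pow_succ', Module.End.mul_apply]
    exact hf _ ih

variable (X)

/-- intertwiners which are rational, compatible with the Hodge structures, isometric for the
Mukai pairing and lie in a given ring of correspondences -/
structure Good (R : Subring (Module.End ℂ A)) (P : Intw X X) : Prop where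
  lam : P.lam = 1
  rat : ∀ x, IsRat X.b x → IsRat X.b (P.u x)
  rat' : ∀ x, IsRat X.b x → IsRat X.b (P.u.symm x)
  ratg : ∀ z, X.RE z → X.RE (P.g z)
  ratg' : ∀ z, X.RE z → X.RE (P.g.symm z)
  s : P.g (vv ℂ X.s) = vv ℂ X.s
  s' : P.g (vv ℂ X.s') = vv ℂ X.s'
  muk : ∀ x y, X.muk (P.u x) (P.u y) = X.muk x y
  mem : P.u.toLinearMap ∈ R
  mem' : P.u.symm.toLinearMap ∈ R

variable {X}

theorem Good.trans {R : Subring (Module.End ℂ A)} {P Q : Intw X X} (hP : X.Good R P)
    (hQ : X.Good R Q) : X.Good R (P.trans Q) where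
  lam := by
    show Q.lam * P.lam = 1
    rw [hP.lam, hQ.lam, one_mul]
  rat x hx := hQ.rat _ (hP.rat x hx)
  rat' x hx := hP.rat' _ (hQ.rat' x hx)
  ratg z hz := hQ.ratg _ (hP.ratg z hz)
  ratg' z hz := hP.ratg' _ (hQ.ratg' z hz)
  s := by
    show Q.g (P.g (vv ℂ X.s)) = _
    rw [hP.s, hQ.s]
  s' := by
    show Q.g (P.g (vv ℂ X.s')) = _
    rw [hP.s', hQ.s']
  muk x y := by
    show X.muk (Q.u (P.u x)) (Q.u (P.u y)) = _
    rw [hQ.muk, hP.muk]
  mem := R.mul_mem hQ.mem hP.mem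
  mem' := R.mul_mem hP.mem' hQ.mem'

theorem Good.symm {R : Subring (Module.End ℂ A)} {P : Intw X X} (hP : X.Good R P) :
    X.Good R P.symm where
  lam := by
    show P.lam⁻¹ = 1
    rw [hP.lam, inv_one]
  rat := hP.rat'
  rat' := hP.rat
  ratg := hP.ratg'
  ratg' := hP.ratg
  s := by
    show P.g.symm (vv ℂ X.s) = _
    conv_lhs => rw [← hP.s]
    rw [LinearEquiv.symm_apply_apply]
  s' := by
    show P.g.symm (vv ℂ X.s') = _
    conv_lhs => rw [← hP.s']
    rw [LinearEquiv.symm_apply_apply]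
  muk x y := by
    show X.muk (P.u.symm x) (P.u.symm y) = _
    rw [← hP.muk, LinearEquiv.apply_symm_apply, LinearEquiv.apply_symm_apply]
  mem := hP.mem'
  mem' := hP.mem

variable (X)

theorem rho_E_mul (x : V) : X.rho (E X.q x) = LinearMap.mulLeft ℂ (X.i x) :=
  LinearMap.ext fun y => X.rho_E x y

theorem expE_symm (x : V) (z : ℂ × V × ℂ) : (X.expE x).g.symm z = (X.expE (-x)).g z := by
  rw [LinearEquiv.symm_apply_eq, expE_g, expE_g]
  simp only [map_neg, map_add, map_smul, LinearMap.neg_apply, smul_eq_mul]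
  refine Prod.ext rfl (Prod.ext ?_ ?_)
  · simp
  · simp only
    ring

theorem expF_symm (x : V) (z : ℂ × V × ℂ) : (X.expF x).g.symm z = (X.expF (-x)).g z := by
  rw [LinearEquiv.symm_apply_eq, expF_g, expF_g]
  simp only [map_neg, map_add, map_smul, LinearMap.neg_apply, smul_eq_mul]
  refine Prod.ext ?_ (Prod.ext ?_ rfl)
  · simp only
    ring
  · simp

theorem good_E {R : Subring (Module.End ℂ A)} (hR : X.LefRing R) {x : V} (hx : X.NS x) :
    X.Good R (X.expE x) where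
  lam := rfl
  rat y hy := by
    refine ex_rat (f := X.rho (E X.q x)) (fun z hz => ?_) _ y hy
    rw [X.rho_E]
    exact X.mul_rat _ _ hx.1 hz
  rat' y hy := by
    refine ex_rat (f := -X.rho (E X.q x)) (fun z hz => ?_) _ y hy
    rw [LinearMap.neg_apply, X.rho_E]
    exact IsRat.neg (X.mul_rat _ _ hx.1 hz)
  ratg z hz := by
    rw [expE_g]
    exact ⟨hz.1, RV.add hz.2.1 (RV.smul hz.1 hx.1),
      (hz.2.2.add (X.q_rat _ _ hx.1 hz.2.1)).add
        ((hz.1.mul (X.q_rat _ _ hx.1 hx.1)).div Rt.two)⟩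
  ratg' z hz := by
    have hx' : IsRat X.b (X.i (-x)) := by
      rw [map_neg]
      exact IsRat.neg hx.1
    rw [expE_symm, expE_g]
    exact ⟨hz.1, RV.add hz.2.1 (RV.smul hz.1 hx'),
      (hz.2.2.add (X.q_rat _ _ hx' hz.2.1)).add
        ((hz.1.mul (X.q_rat _ _ hx' hx')).div Rt.two)⟩
  s := by
    rw [expE_g]
    simp [vv, hx.2.1]
  s' := by
    rw [expE_g]
    simp [vv, hx.2.2]
  muk y z := X.muk_ex (X.nilE x) (X.muk_E x) y z
  mem := by
    refine hR.ex (f := X.rho (E X.q x)) ?_ _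
    rw [rho_E_mul]
    exact hR.mul x hx
  mem' := by
    refine hR.ex (f := -X.rho (E X.q x)) ?_ _
    rw [rho_E_mul]
    exact R.neg_mem (hR.mul x hx)

theorem F_smul (c : ℂ) (x : V) : F X.q (c • x) = c • F X.q x := by
  refine LinearMap.ext fun z => ?_
  simp only [F_apply, LinearMap.smul_apply, map_smul, smul_eq_mul, Prod.smul_mk, smul_smul,
    mul_zero, Prod.mk.injEq, and_true]
  refine ⟨by ring, ?_⟩
  congr 1
  ring

theorem rl (c : ℂ) (hc : Rt c) : IsRat X.b (X.i (c • X.l)) := by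
  rw [map_smul]
  exact IsRat.smul hc X.l_rat

theorem good_F {R : Subring (Module.End ℂ A)} (hR : X.LefRing R) {c : ℂ} (hc : Rt c) :
    X.Good R (X.expF (c • X.l)) where
  lam := rfl
  rat y hy := by
    refine ex_rat (f := X.rho (F X.q (c • X.l))) (fun z hz => ?_) _ y hy
    exact X.rho_rat _ _ (X.rl c hc) hz
  rat' y hy := by
    refine ex_rat (f := -X.rho (F X.q (c • X.l))) (fun z hz => ?_) _ y hy
    rw [LinearMap.neg_apply]
    exact IsRat.neg (X.rho_rat _ _ (X.rl c hc) hz)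
  ratg z hz := by
    have h := X.rl c hc
    rw [expF_g]
    exact ⟨(hz.1.add (Rt.two.mul (X.q_rat _ _ h hz.2.1))).add
        ((Rt.two.mul hz.2.2).mul (X.q_rat _ _ h h)),
      RV.add hz.2.1 (RV.smul (Rt.two.mul hz.2.2) h), hz.2.2⟩
  ratg' z hz := by
    have h : IsRat X.b (X.i (-(c • X.l))) := by
      rw [map_neg]
      exact IsRat.neg (X.rl c hc)
    rw [expF_symm, expF_g]
    exact ⟨(hz.1.add (Rt.two.mul (X.q_rat _ _ h hz.2.1))).add
        ((Rt.two.mul hz.2.2).mul (X.q_rat _ _ h h)),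
      RV.add hz.2.1 (RV.smul (Rt.two.mul hz.2.2) h), hz.2.2⟩
  s := by
    rw [expF_g]
    simp [vv, X.l_s]
  s' := by
    rw [expF_g]
    simp [vv, X.l_s']
  muk y z := by
    refine X.muk_ex (X.nilF _) (fun x y => ?_) y z
    rw [F_smul, map_smul, LinearMap.smul_apply, LinearMap.smul_apply, map_smul, map_smul,
      LinearMap.smul_apply, X.muk_F X.l_l, smul_neg]
  mem := by
    refine hR.ex (f := X.rho (F X.q (c • X.l))) ?_ _
    rw [F_smul, map_smul]
    exact hR.smul hc hR.dualLef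
  mem' := by
    refine hR.ex (f := -X.rho (F X.q (c • X.l))) ?_ _
    rw [F_smul, map_smul]
    exact R.neg_mem (hR.smul hc hR.dualLef)

/-- `exp(e_x) α` -/
theorem expE_al (x : V) : (X.expE x).g (al ℂ V) = (1, x, X.q x x / 2) := by
  rw [expE_g]
  simp [al]

theorem expE_be (x : V) : (X.expE x).g (be ℂ V) = be ℂ V := by
  rw [expE_g]
  simp [be]

/-- vectors of `NS`-type of the extended Mukai space -/
def NSE (z : ℂ × V × ℂ) : Prop :=
  X.RE z ∧ bil X.q z (vv ℂ X.s) = 0 ∧ bil X.q z (vv ℂ X.s') = 0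

theorem NSE.ns {z : ℂ × V × ℂ} (hz : X.NSE z) : X.NS z.2.1 := by
  obtain ⟨h1, h2, h3⟩ := hz
  refine ⟨h1.2.1, ?_, ?_⟩
  · rw [bil_apply] at h2
    simp only [vv, mul_zero, sub_zero] at h2
    exact h2
  · rw [bil_apply] at h3
    simp only [vv, mul_zero, sub_zero] at h3
    exact h3

theorem NS.smul {x : V} {c : ℂ} (hc : Rt c) (hx : X.NS x) : X.NS (c • x) := by
  refine ⟨?_, ?_, ?_⟩
  · rw [map_smul]
    exact IsRat.smul hc hx.1
  · rw [map_smul, LinearMap.smul_apply, hx.2.1, smul_zero]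
  · rw [map_smul, LinearMap.smul_apply, hx.2.2, smul_zero]

theorem ns_l : X.NS X.l := ⟨X.l_rat, X.l_s, X.l_s'⟩

/-- isotropic vectors with nonzero first coordinate -/
theorem iso_eq {z : ℂ × V × ℂ} (h0 : bil X.q z z = 0) (h1 : z.1 ≠ 0) :
    (X.expE (z.1⁻¹ • z.2.1)).g (al ℂ V) = z.1⁻¹ • z := by
  rw [expE_al]
  rw [bil_apply] at h0
  refine Prod.ext ?_ (Prod.ext ?_ ?_)
  · simp [h1]
  · simp
  · simp only [Prod.smul_snd, smul_eq_mul, map_smul, LinearMap.smul_apply]
    field_simp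
    linear_combination h0

/-- moving `β` to a rational isotropic vector of `NS`-type with nonzero first coordinate -/
theorem move_one {R : Subring (Module.End ℂ A)} (hR : X.LefRing R) {z : ℂ × V × ℂ}
    (hz : X.NSE z) (h0 : bil X.q z z = 0) (h1 : z.1 ≠ 0) :
    ∃ P : Intw X X, X.Good R P ∧ ∃ d : ℂ, d ≠ 0 ∧ P.g (be ℂ V) = d • z := by
  have hl := X.l_l
  have hql : Rt (X.q X.l X.l) := X.q_rat _ _ X.l_rat X.l_rat
  have hns : X.NS (z.1⁻¹ • z.2.1) := NS.smul X hz.1.1.inv (NSE.ns X hz)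
  have hns2 : X.NS (-(X.q X.l X.l)⁻¹ • X.l) := NS.smul X hql.inv.neg X.ns_l
  refine ⟨((X.expF ((1 : ℂ) • X.l)).trans (X.expE (-(X.q X.l X.l)⁻¹ • X.l))).trans
    (X.expE (z.1⁻¹ • z.2.1)), ((X.good_F hR Rt.one).trans (X.good_E hR hns2)).trans
    (X.good_E hR hns), 2 * X.q X.l X.l * z.1⁻¹,
    mul_ne_zero (mul_ne_zero two_ne_zero hl) (inv_ne_zero h1), ?_⟩
  have e1 : (X.expE (-(X.q X.l X.l)⁻¹ • X.l)).g ((X.expF ((1 : ℂ) • X.l)).g (be ℂ V)) =
      (2 * X.q X.l X.l) • al ℂ V := by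
    rw [one_smul, expF_g, expE_g]
    simp only [be, al, map_zero, mul_zero, zero_add, mul_one, one_mul]
    refine Prod.ext ?_ (Prod.ext ?_ ?_)
    · simp
    · simp only [Prod.smul_snd, Prod.smul_fst, smul_zero, smul_smul]
      have : 2 * X.q X.l X.l * -(X.q X.l X.l)⁻¹ = (-2 : ℂ) := by field_simp
      rw [this]
      module
    · simp only [map_smul, LinearMap.smul_apply, smul_eq_mul, Prod.smul_snd, mul_zero]
      field_simp
      ring
  show (X.expE (z.1⁻¹ • z.2.1)).g ((X.expE (-(X.q X.l X.l)⁻¹ • X.l)).g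
    ((X.expF ((1 : ℂ) • X.l)).g (be ℂ V))) = _
  rw [e1, map_smul, X.iso_eq h0 h1, smul_smul]

/-- moving `β` to a nonzero rational isotropic vector of `NS`-type -/
theorem move_two {R : Subring (Module.End ℂ A)} (hR : X.LefRing R) {z : ℂ × V × ℂ}
    (hz : X.NSE z) (h0 : bil X.q z z = 0) (hne : z ≠ 0) :
    ∃ P : Intw X X, X.Good R P ∧ ∃ d : ℂ, d ≠ 0 ∧ P.g (be ℂ V) = d • z := by
  by_cases h1 : z.1 = 0
  · have hzv := NSE.ns X hz
    obtain ⟨t, ht, hne1⟩ : ∃ t : ℂ, Rt t ∧ ((X.expF (t • X.l)).g z).1 ≠ 0 := by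
      by_contra hcon
      push Not at hcon
      have e1 := hcon 1 Rt.one
      have e2 := hcon (-1) Rt.one.neg
      rw [expF_g] at e1 e2
      simp only [h1, map_smul, LinearMap.smul_apply, smul_eq_mul, zero_add, one_smul] at e1 e2
      have hb : z.2.2 * X.q X.l X.l = 0 := by linear_combination (e1 + e2) / 4
      have hb0 := (mul_eq_zero.1 hb).resolve_right X.l_l
      have hlv : X.q X.l z.2.1 = 0 := by
        rw [hb0] at e1
        linear_combination e1 / 2
      have hvv : X.q z.2.1 z.2.1 = 0 := by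
        rw [bil_apply, h1, hb0] at h0
        linear_combination h0
      have hv0 := X.index _ hzv.1 hzv.2.1 hzv.2.2 hlv hvv
      apply hne
      exact Prod.ext h1 (Prod.ext hv0 hb0)
    have hG := X.good_F hR ht
    set Q := X.expF (t • X.l) with hQ
    have hz' : X.NSE (Q.g z) := by
      refine ⟨hG.ratg z hz.1, ?_, ?_⟩
      · rw [← hG.s, Q.sim, hz.2.1, mul_zero]
      · rw [← hG.s', Q.sim, hz.2.2, mul_zero]
    obtain ⟨P, hP, d, hd, hPd⟩ := X.move_one hR hz' (by rw [Q.sim, h0, mul_zero]) hne1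
    refine ⟨P.trans Q.symm, hP.trans hG.symm, d, hd, ?_⟩
    show Q.g.symm (P.g (be ℂ V)) = _
    rw [hPd, map_smul, LinearEquiv.symm_apply_apply]
  · exact X.move_one hR hz h0 h1

/-- moving the pair of lines of `α`, `β` -/
theorem move {R : Subring (Module.End ℂ A)} (hR : X.LefRing R) {za zb : ℂ × V × ℂ}
    (ha : X.NSE za) (hb : X.NSE zb) (ha0 : bil X.q za za = 0) (hb0 : bil X.q zb zb = 0)
    (hab : bil X.q za zb ≠ 0) :
    ∃ P : Intw X X, X.Good R P ∧ (∃ c : ℂ, c ≠ 0 ∧ P.g (al ℂ V) = c • za) ∧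
      ∃ d : ℂ, d ≠ 0 ∧ P.g (be ℂ V) = d • zb := by
  have hne : zb ≠ 0 := by
    rintro rfl
    rw [map_zero] at hab
    exact hab rfl
  obtain ⟨P, hP, d, hd, hPd⟩ := X.move_two hR hb hb0 hne
  set z := P.g.symm za with hz
  have hPz : P.g z = za := P.g.apply_symm_apply za
  have h1 : z.1 ≠ 0 := by
    intro h1
    have h2 := P.sim z (be ℂ V)
    rw [hPz, hPd, map_smul, smul_eq_mul, bil_apply X.q z, h1] at h2
    simp only [be, map_zero] at h2
    have h3 : d * bil X.q za zb = 0 := by linear_combination h2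
    exact mul_ne_zero hd hab h3
  have hzN : X.NSE z := by
    refine ⟨hP.ratg' _ ha.1, ?_, ?_⟩
    · have h2 := P.sim z (vv ℂ X.s)
      rw [hPz, hP.s, ha.2.1, hP.lam, one_mul] at h2
      exact h2.symm
    · have h2 := P.sim z (vv ℂ X.s')
      rw [hPz, hP.s', ha.2.2, hP.lam, one_mul] at h2
      exact h2.symm
  have hz0 : bil X.q z z = 0 := by
    have h2 := P.sim z z
    rw [hPz, ha0, hP.lam, one_mul] at h2
    exact h2.symm
  have hns : X.NS (z.1⁻¹ • z.2.1) := NS.smul X hzN.1.1.inv (NSE.ns X hzN)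
  refine ⟨(X.expE (z.1⁻¹ • z.2.1)).trans P, (X.good_E hR hns).trans hP,
    ⟨z.1⁻¹, inv_ne_zero h1, ?_⟩, d, hd, ?_⟩
  · show P.g ((X.expE (z.1⁻¹ • z.2.1)).g (al ℂ V)) = _
    rw [X.iso_eq hz0 h1, map_smul, hPz]
  · show P.g ((X.expE (z.1⁻¹ • z.2.1)).g (be ℂ V)) = _
    rw [X.expE_be, hPd]

end Coh

end Pool.Agent.Q8.HK
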