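import Mathlib
import Pool.Agent.Q8.HK.Unip

/-!
# The main theorem
-/

set_option autoImplicit false
set_option linter.unusedSimpArgs false
set_option linter.style.haveILetI false

open Module

namespace Pool.Agent.Q8.HK

variable {n : ℕ} {A V : Type} [Ring A] [Algebra ℂ A] [AddCommGroup V] [Module ℂ V]
variable {B U : Type} [Ring B] [Algebra ℂ B] [AddCommGroup U] [Module ℂ U]

namespace Coh

variable (X : Coh n A V)

theorem H_rat {x : A} (hx : IsRat X.b x) : IsRat X.b (X.rho (H ℂ V) x) := by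
  intro j
  rw [X.H_repr]
  exact Rt.mul ((Rt.nat _).sub (Rt.two.mul (Rt.nat _))) (hx j)

theorem exists_rat_bil {w : ℂ × V × ℂ} (hw : w ≠ 0) : ∃ z, X.RE z ∧ bil X.q w z ≠ 0 := by
  by_contra hcon
  push Not at hcon
  apply hw
  refine bil_nondeg X.q_nondeg w fun y => ?_
  have h0 : X.RV (0 : V) := by
    rw [RV, map_zero]
    exact IsRat.zero
  have h1 := hcon (al ℂ V) ⟨Rt.one, h0, Rt.zero⟩
  have h2 := hcon (be ℂ V) ⟨Rt.zero, h0, Rt.one⟩
  have h3 : ∀ v, bil X.q w (vv ℂ v) = 0 := by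
    intro v
    have h4 := X.span_rat (X.q w.2.1) (fun v hv => ?_) v
    · rw [bil_apply]
      simp only [vv, mul_zero, sub_zero]
      exact h4
    · have h5 := hcon (vv ℂ v) ⟨Rt.zero, hv, Rt.zero⟩
      rw [bil_apply] at h5
      simp only [vv, mul_zero, sub_zero] at h5
      exact h5
  rw [ext_eta y, map_add, map_add, map_smul, map_smul, h1, h2, h3, smul_zero, smul_zero,
    add_zero, add_zero]

end Coh

section lines

variable {X : Coh n A V} {Y : Coh n B U}

/-- an intertwiner respecting the lines of `α` and `β` is a multiple of a ring isomorphism -/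
theorem Intw.ring (P : Intw X Y) {a d : ℂ} (ha : P.g (al ℂ V) = a • al ℂ U)
    (hb : P.g (be ℂ V) = d • be ℂ U) :
    (∀ x, P.u (X.rho (H ℂ V) x) = Y.rho (H ℂ U) (P.u x)) ∧
    ∀ y, ∃ y', ∀ x, P.u (y * x) = y' * P.u x := by
  have had : a * d = P.lam := by
    have h := P.sim (al ℂ V) (be ℂ V)
    rw [ha, hb] at h
    simp only [bil_apply, al, be, map_zero, Prod.smul_fst, Prod.smul_snd, smul_zero,
      smul_eq_mul] at h
    simp at h
    exact h
  have ha0 : a ≠ 0 := by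
    rintro rfl
    apply P.lam_ne
    rw [← had, zero_mul]
  have hd0 : d ≠ 0 := by
    rintro rfl
    apply P.lam_ne
    rw [← had, mul_zero]
  have hV : ∀ v, P.g (vv ℂ v) = vv ℂ (P.g (vv ℂ v)).2.1 := by
    intro v
    have h1 := P.sim (vv ℂ v) (al ℂ V)
    have h2 := P.sim (vv ℂ v) (be ℂ V)
    rw [ha, map_smul] at h1
    rw [hb, map_smul] at h2
    simp only [bil_apply, al, be, map_zero, vv] at h1 h2
    simp [ha0, hd0] at h1 h2
    refine Prod.ext ?_ (Prod.ext rfl ?_)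
    · exact h2
    · exact h1
  have hV' : ∀ w, ∃ v, P.g (vv ℂ v) = vv ℂ w := by
    intro w
    refine ⟨(P.g.symm (vv ℂ w)).2.1, ?_⟩
    have h0 : P.g (P.g.symm (vv ℂ w)) = vv ℂ w := P.g.apply_symm_apply _
    have h1 := P.sim (P.g.symm (vv ℂ w)) (al ℂ V)
    have h2 := P.sim (P.g.symm (vv ℂ w)) (be ℂ V)
    rw [ha, map_smul, h0] at h1
    rw [hb, map_smul, h0] at h2
    simp only [bil_apply, al, be, map_zero, vv] at h1 h2
    simp [P.lam_ne] at h1 h2
    have h3 : P.g.symm (vv ℂ w) = vv ℂ (P.g.symm (vv ℂ w)).2.1 :=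
      Prod.ext h2 (Prod.ext rfl h1)
    rw [← h3, h0]
  have hH : cj P.u (X.rho (H ℂ V)) = Y.rho (H ℂ U) := by
    rw [← W_H X.q, ← W_H Y.q, map_smul, map_smul, cj_smul, P.eqv, ha, hb, W_smul_left,
      W_smul_right, map_smul, map_smul, smul_smul, smul_smul, smul_smul]
    congr 1
    rw [← had]
    field_simp
  have hE : ∀ v, cj P.u (X.rho (E X.q v)) = a⁻¹ • Y.rho (E Y.q (P.g (vv ℂ v)).2.1) := by
    intro v
    rw [← W_E X.q, ← W_E Y.q, P.eqv, hb, hV v, W_smul_left, map_smul, smul_smul]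
    have : P.lam⁻¹ * d = a⁻¹ := by
      rw [← had]
      field_simp
    rw [this]
    rfl
  refine ⟨fun x => ?_, fun y => ?_⟩
  · have h := LinearMap.congr_fun hH (P.u x)
    rw [cj_apply, LinearEquiv.symm_apply_apply] at h
    exact h
  · have hy : LinearMap.mulLeft ℂ y ∈ Coh.LA A := (Coh.mem_LA _).2 ⟨y, fun x => rfl⟩
    have h1 : cj P.u (LinearMap.mulLeft ℂ y) ∈ Coh.LA B := by
      refine Y.MM_fix (P.mm _ (X.le_gen _ hy)) fun w => ?_
      obtain ⟨v, hv⟩ := hV' w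
      have h2 := hE v
      rw [hv] at h2
      have h3 : Y.rho (E Y.q w) = a • cj P.u (X.rho (E X.q v)) := by
        rw [h2, smul_smul, mul_inv_cancel₀ ha0, one_smul]
        rfl
      have h4 := congrArg (cj P.u) (X.LA_E v _ hy)
      rw [cj_sub, cj_mul, cj_mul] at h4
      rw [h3, smul_mul_assoc, mul_smul_comm]
      have h5 : cj P.u (0 : Module.End ℂ A) = 0 := by
        refine LinearMap.ext fun z => ?_
        simp [cj_apply]
      rw [h5] at h4
      have h6 := congrArg (fun t => a • t) h4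
      simp only [smul_zero] at h6
      rw [smul_sub] at h6
      exact h6
    obtain ⟨y', hy'⟩ := (Coh.mem_LA _).1 h1
    refine ⟨y', fun x => ?_⟩
    have h2 := hy' (P.u x)
    rw [cj_apply, LinearEquiv.symm_apply_apply] at h2
    exact h2

/-- the lines of `Φ⁻¹ α` and `Φ⁻¹ β` are rational -/
theorem Intw.lines (P : Intw X Y) (h1 : ∀ x, IsRat X.b x ↔ IsRat Y.b (P.u x))
    (hs : P.g (vv ℂ X.s) = vv ℂ Y.s) {t : ℂ} (hs' : P.g (vv ℂ X.s') = t • vv ℂ Y.s') :
    ∃ (za zb : ℂ × V × ℂ), X.NSE za ∧ X.NSE zb ∧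
      (∃ c : ℂ, c ≠ 0 ∧ P.g za = c • al ℂ U) ∧ (∃ c : ℂ, c ≠ 0 ∧ P.g zb = c • be ℂ U) := by
  set α' := P.g.symm (al ℂ U) with hα'
  set β' := P.g.symm (be ℂ U) with hβ'
  have hgα : P.g α' = al ℂ U := P.g.apply_symm_apply _
  have hgβ : P.g β' = be ℂ U := P.g.apply_symm_apply _
  have bab : bil Y.q (al ℂ U) (be ℂ U) = -1 := by simp [bil_apply, al, be]
  have baa : bil Y.q (al ℂ U) (al ℂ U) = 0 := by simp [bil_apply, al]
  have bbb : bil Y.q (be ℂ U) (be ℂ U) = 0 := by simp [bil_apply, be]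
  have iab : P.lam * bil X.q α' β' = -1 := by rw [← P.sim, hgα, hgβ, bab]
  have iba : P.lam * bil X.q β' α' = -1 := by rw [bil_symm X.q_symm, iab]
  have iaa : bil X.q α' α' = 0 := by
    have h := P.sim α' α'
    rw [hgα, baa] at h
    exact (mul_eq_zero.1 h.symm).resolve_left P.lam_ne
  have ibb : bil X.q β' β' = 0 := by
    have h := P.sim β' β'
    rw [hgβ, bbb] at h
    exact (mul_eq_zero.1 h.symm).resolve_left P.lam_ne
  set a : Module.End ℂ (ℂ × V × ℂ) := P.lam • W X.q α' β' with ha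
  have hskew : Skew X.q a := Skew.smul _ (skew_W X.q_symm _ _)
  have hrho : ∀ x, IsRat X.b x → IsRat X.b (X.rho a x) := by
    intro x hx
    have h2 := P.symm.eqv (al ℂ U) (be ℂ U)
    have h3 : X.rho a = cj P.symm.u (Y.rho (W Y.q (al ℂ U) (be ℂ U))) := by
      rw [h2, ha, map_smul]
      congr 1
      show P.lam = (P.lam⁻¹)⁻¹
      rw [inv_inv]
    rw [h3, cj_apply]
    show IsRat X.b (P.u.symm (Y.rho (W Y.q (al ℂ U) (be ℂ U)) (P.u x)))
    rw [h1, LinearEquiv.apply_symm_apply]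
    have h4 : Y.rho (W Y.q (al ℂ U) (be ℂ U)) (P.u x) =
        (2 : ℂ)⁻¹ • Y.rho (H ℂ U) (P.u x) := by
      rw [← W_H Y.q, map_smul, LinearMap.smul_apply, smul_smul, inv_mul_cancel₀ two_ne_zero,
        one_smul]
    rw [h4]
    exact IsRat.smul Rt.two.inv (Y.H_rat ((h1 x).1 hx))
  have hra := X.rat_of_rho hskew hrho
  have ea : ∀ z, a z = (P.lam * bil X.q β' z) • α' - (P.lam * bil X.q α' z) • β' := by
    intro z
    rw [ha, LinearMap.smul_apply, W_apply, smul_sub, smul_smul, smul_smul]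
  have eaa : a α' = -α' := by
    rw [ea, iba, iaa, mul_zero, zero_smul, sub_zero, neg_one_smul]
  have eab : a β' = β' := by
    rw [ea, ibb, iab, mul_zero, zero_smul, zero_sub, neg_one_smul, neg_neg]
  have e1 : ∀ z, a (a z) + a z = (-(2 * P.lam * bil X.q α' z)) • β' := by
    intro z
    rw [ea z, map_sub, map_smul, map_smul, eaa, eab]
    module
  have e2 : ∀ z, a (a z) + (-1 : ℂ) • a z = (-(2 * P.lam * bil X.q β' z)) • α' := by
    intro z
    rw [ea z, map_sub, map_smul, map_smul, eaa, eab]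
    module
  have hα0 : α' ≠ 0 := by
    intro h
    rw [h, map_zero, LinearMap.zero_apply, mul_zero] at iab
    norm_num at iab
  have hβ0 : β' ≠ 0 := by
    intro h
    rw [h, map_zero, mul_zero] at iab
    norm_num at iab
  obtain ⟨z1, hz1, hz1'⟩ := X.exists_rat_bil hα0
  obtain ⟨z2, hz2, hz2'⟩ := X.exists_rat_bil hβ0
  -- orthogonality to `σ` and `σ̄`
  have oα : bil X.q α' (vv ℂ X.s) = 0 := by
    have h := P.sim α' (vv ℂ X.s)
    rw [hgα, hs] at h
    have h' : bil Y.q (al ℂ U) (vv ℂ Y.s) = 0 := by simp [bil_apply, al, vv]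
    rw [h'] at h
    exact (mul_eq_zero.1 h.symm).resolve_left P.lam_ne
  have oα' : bil X.q α' (vv ℂ X.s') = 0 := by
    have h := P.sim α' (vv ℂ X.s')
    rw [hgα, hs', map_smul] at h
    have h' : bil Y.q (al ℂ U) (vv ℂ Y.s') = 0 := by simp [bil_apply, al, vv]
    rw [h', smul_zero] at h
    exact (mul_eq_zero.1 h.symm).resolve_left P.lam_ne
  have oβ : bil X.q β' (vv ℂ X.s) = 0 := by
    have h := P.sim β' (vv ℂ X.s)
    rw [hgβ, hs] at h
    have h' : bil Y.q (be ℂ U) (vv ℂ Y.s) = 0 := by simp [bil_apply, be, vv]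
    rw [h'] at h
    exact (mul_eq_zero.1 h.symm).resolve_left P.lam_ne
  have oβ' : bil X.q β' (vv ℂ X.s') = 0 := by
    have h := P.sim β' (vv ℂ X.s')
    rw [hgβ, hs', map_smul] at h
    have h' : bil Y.q (be ℂ U) (vv ℂ Y.s') = 0 := by simp [bil_apply, be, vv]
    rw [h', smul_zero] at h
    exact (mul_eq_zero.1 h.symm).resolve_left P.lam_ne
  refine ⟨(-(2 * P.lam * bil X.q β' z2)) • α', (-(2 * P.lam * bil X.q α' z1)) • β',
    ⟨?_, ?_, ?_⟩, ⟨?_, ?_, ?_⟩, ⟨-(2 * P.lam * bil X.q β' z2), ?_, ?_⟩,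
    ⟨-(2 * P.lam * bil X.q α' z1), ?_, ?_⟩⟩
  · rw [← e2]
    exact Coh.RE.add (hra _ (hra _ hz2)) (Coh.RE.smul Rt.one.neg (hra _ hz2))
  · rw [map_smul, LinearMap.smul_apply, oα, smul_zero]
  · rw [map_smul, LinearMap.smul_apply, oα', smul_zero]
  · rw [← e1]
    exact Coh.RE.add (hra _ (hra _ hz1)) (hra _ hz1)
  · rw [map_smul, LinearMap.smul_apply, oβ, smul_zero]
  · rw [map_smul, LinearMap.smul_apply, oβ', smul_zero]
  · exact neg_ne_zero.2 (mul_ne_zero (mul_ne_zero two_ne_zero P.lam_ne) hz2')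
  · rw [map_smul, hgα]
  · exact neg_ne_zero.2 (mul_ne_zero (mul_ne_zero two_ne_zero P.lam_ne) hz1')
  · rw [map_smul, hgβ]

/-- **Main theorem.** A derived equivalence, composed with a rational Hodge automorphism in any
ring of correspondences containing the Lefschetz operators, is a rational multiple of a graded
ring isomorphism. -/
theorem DerEq.main (D : DerEq X Y) {R : Subring (Module.End ℂ A)} (hR : X.LefRing R) :
    ∃ (G : A ≃ₐ[ℂ] B) (c : ℂ) (T T' : Module.End ℂ A), c ≠ 0 ∧ Rt c ∧ T ∈ R ∧ T' ∈ R ∧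
      T * T' = 1 ∧ T' * T = 1 ∧ (∀ x, c • G x = D.Φ (T x)) ∧
      (∀ k x, x ∈ grade X.b X.d k ↔ G x ∈ grade Y.b Y.d k) ∧
      (∀ x, IsRat X.b x ↔ IsRat Y.b (G x)) ∧ (∀ x, G (X.eta x) = Y.eta (G x)) ∧
      ((∀ x y, Y.mukai (D.Φ x) (D.Φ y) = X.mukai x y) →
        ∀ x, Y.int (G x) = (c ^ 2)⁻¹ * X.int x) := by
  obtain ⟨P, hP, hs, t, hs'⟩ := D.intw
  have hPr : ∀ x, IsRat X.b x ↔ IsRat Y.b (P.u x) := by
    intro x
    rw [hP]
    exact D.rat x
  obtain ⟨za, zb, hza, hzb, ⟨ca, hca, hga⟩, ⟨cb, hcb, hgb⟩⟩ := P.lines hPr hs hs'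
  have baa : bil X.q za za = 0 := by
    have h := P.sim za za
    rw [hga, map_smul, map_smul, LinearMap.smul_apply] at h
    have h' : bil Y.q (al ℂ U) (al ℂ U) = 0 := by simp [bil_apply, al]
    rw [h', smul_zero, smul_zero] at h
    exact (mul_eq_zero.1 h.symm).resolve_left P.lam_ne
  have bbb : bil X.q zb zb = 0 := by
    have h := P.sim zb zb
    rw [hgb, map_smul, map_smul, LinearMap.smul_apply] at h
    have h' : bil Y.q (be ℂ U) (be ℂ U) = 0 := by simp [bil_apply, be]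
    rw [h', smul_zero, smul_zero] at h
    exact (mul_eq_zero.1 h.symm).resolve_left P.lam_ne
  have bab : bil X.q za zb ≠ 0 := by
    intro h0
    have h := P.sim za zb
    rw [hga, hgb, map_smul, map_smul, LinearMap.smul_apply, h0, mul_zero] at h
    have h' : bil Y.q (al ℂ U) (be ℂ U) = -1 := by simp [bil_apply, al, be]
    rw [h', smul_eq_mul, smul_eq_mul] at h
    have h2 : ca * cb = 0 := by linear_combination -h
    exact mul_ne_zero hca hcb h2
  obtain ⟨Q, hQ, ⟨c1, hc1, hQa⟩, ⟨c2, hc2, hQb⟩⟩ := X.move hR hza hzb baa bbb bab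
  set M := Q.trans P with hM
  have hMu : ∀ x, M.u x = D.Φ (Q.u x) := fun x => hP _
  have hMa : M.g (al ℂ V) = (c1 * ca) • al ℂ U := by
    show P.g (Q.g (al ℂ V)) = _
    rw [hQa, map_smul, hga, smul_smul]
  have hMb : M.g (be ℂ V) = (c2 * cb) • be ℂ U := by
    show P.g (Q.g (be ℂ V)) = _
    rw [hQb, map_smul, hgb, smul_smul]
  obtain ⟨hH, hL⟩ := M.ring hMa hMb
  obtain ⟨c, hc, G, hG⟩ := ring_of M.u hH hL
  have hQr : ∀ x, IsRat X.b x ↔ IsRat X.b (Q.u x) := by
    intro x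
    refine ⟨hQ.rat x, fun h => ?_⟩
    have := hQ.rat' _ h
    rwa [LinearEquiv.symm_apply_apply] at this
  have hMr : ∀ x, IsRat X.b x ↔ IsRat Y.b (M.u x) := by
    intro x
    rw [hMu, ← D.rat, ← hQr]
  have hcr : Rt c := by
    have h := (hMr 1).1 X.one_rat
    rw [hG, map_one] at h
    exact Y.rt_of_one h
  have hGH : ∀ x, G (X.rho (H ℂ V) x) = Y.rho (H ℂ U) (G x) := by
    intro x
    have h := hH x
    rw [hG, hG, map_smul] at h
    exact smul_right_injective _ hc h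
  refine ⟨G, c, Q.u.toLinearMap, Q.u.symm.toLinearMap, hc, hcr, hQ.mem, hQ.mem', ?_, ?_, ?_,
    ?_, ?_, ?_, ?_⟩
  · exact LinearMap.ext fun x => Q.u.apply_symm_apply x
  · exact LinearMap.ext fun x => Q.u.symm_apply_apply x
  · intro x
    rw [← hG, hMu]
    rfl
  · exact fun k x => grade_iff X Y G.toLinearEquiv hGH k x
  · intro x
    rw [hMr, hG]
    refine ⟨fun h => ?_, fun h => IsRat.smul hcr h⟩
    have h2 := IsRat.smul hcr.inv h
    rwa [smul_smul, inv_mul_cancel₀ hc, one_smul] at h2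
  · intro x
    have h1 : Q.u (X.eta x) = X.eta (Q.u x) := by
      have h2 := Q.eqv (vv ℂ X.s) (vv ℂ X.s')
      rw [hQ.s, hQ.s', hQ.lam, inv_one, one_smul] at h2
      have h3 := LinearMap.congr_fun h2 (Q.u x)
      rw [cj_apply, LinearEquiv.symm_apply_apply] at h3
      rw [X.eta_eq, LinearMap.smul_apply, LinearMap.smul_apply, map_smul, h3]
    have h4 : M.u (X.eta x) = Y.eta (M.u x) := by
      rw [hMu, hMu, h1, D.hodge]
    rw [hG, hG, map_smul] at h4
    exact smul_right_injective _ hc h4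
  · intro hmuk x
    have h1 : ∀ x y, Y.muk (M.u x) (M.u y) = X.muk x y := by
      intro x y
      rw [hMu, hMu, Y.muk_apply, hmuk, ← X.muk_apply, hQ.muk]
    have h2 := h1 1 x
    rw [hG, hG, map_one, map_smul, map_smul, LinearMap.smul_apply, Y.muk_eq, X.muk_eq,
      Y.dual_one, X.dual_one, one_mul, one_mul, smul_eq_mul, smul_eq_mul] at h2
    rw [← h2]
    field_simp

end lines

end Pool.Agent.Q8.HK
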