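import Mathlib
import Pool.Agent.Q8.HK.Main

/-!
# The unconditional version

The dual Lefschetz operators needed to move the lines are obtained by conjugating
multiplication operators with the derived equivalence.
-/

set_option autoImplicit false
set_option linter.unusedSimpArgs false
set_option linter.style.haveILetI false

open Module

namespace Pool.Agent.Q8.HK

variable {n : ℕ} {A V : Type} [Ring A] [Algebra ℂ A] [AddCommGroup V] [Module ℂ V]
variable {B U : Type} [Ring B] [Algebra ℂ B] [AddCommGroup U] [Module ℂ U]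

namespace Coh

variable (X : Coh n A V)

/-- A ring of endomorphisms of the cohomology (such as the ring of algebraic correspondences)
which contains the rational scalars and the multiplications by rational `(1,1)`-classes. -/
structure DivRing (R : Subring (Module.End ℂ A)) : Prop where
  scalar : ∀ r : ℚ, (r : ℂ) • (1 : Module.End ℂ A) ∈ R
  mul : ∀ x, X.NS x → LinearMap.mulLeft ℂ (X.i x) ∈ R

variable {X}

theorem DivRing.smul {R : Subring (Module.End ℂ A)} (hR : X.DivRing R) {c : ℂ} (hc : Rt c)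
    {f : Module.End ℂ A} (hf : f ∈ R) : c • f ∈ R := by
  obtain ⟨r, rfl⟩ := hc
  have h := R.mul_mem (hR.scalar r) hf
  rwa [smul_mul_assoc, one_mul] at h

theorem DivRing.ex {R : Subring (Module.End ℂ A)} (hR : X.DivRing R)
    {f : Module.End ℂ A} (hf : f ∈ R) (N : ℕ) : HK.ex ℂ N f ∈ R := by
  refine R.sum_mem fun k _ => hR.smul (Rt.inv (Rt.nat _)) (R.pow_mem hf k)

variable (X)

theorem good_E' {R : Subring (Module.End ℂ A)} (hR : X.DivRing R) {x : V} (hx : X.NS x) :
    X.Good R (X.expE x) where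
  lam := rfl
  rat y hy := by
    refine ex_rat (f := X.rho (E X.q x)) (fun z hz => ?_) _ y hy
    rw [X.rho_E]
    exact X.mul_rat _ _ hx.1 hz
  rat' y hy := by
    refine ex_rat (f := -X.rho (E X.q x)) (fun z hz => ?_) _ y hy
    rw [LinearMap.neg_apply, X.rho_E]
    exact IsRat.neg (X.mul_rat _ _ hx.1 hz)
  ratg z hz := by
    rw [expE_g]
    exact ⟨hz.1, RV.add hz.2.1 (RV.smul hz.1 hx.1),
      (hz.2.2.add (X.q_rat _ _ hx.1 hz.2.1)).add
        ((hz.1.mul (X.q_rat _ _ hx.1 hx.1)).div Rt.two)⟩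
  ratg' z hz := by
    have hx' : IsRat X.b (X.i (-x)) := by
      rw [map_neg]
      exact IsRat.neg hx.1
    rw [expE_symm, expE_g]
    exact ⟨hz.1, RV.add hz.2.1 (RV.smul hz.1 hx'),
      (hz.2.2.add (X.q_rat _ _ hx' hz.2.1)).add
        ((hz.1.mul (X.q_rat _ _ hx' hx')).div Rt.two)⟩
  s := by
    rw [expE_g]
    simp [vv, hx.2.1]
  s' := by
    rw [expE_g]
    simp [vv, hx.2.2]
  muk y z := X.muk_ex (X.nilE x) (X.muk_E x) y z
  mem := by
    refine hR.ex (f := X.rho (E X.q x)) ?_ _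
    rw [rho_E_mul]
    exact hR.mul x hx
  mem' := by
    refine hR.ex (f := -X.rho (E X.q x)) ?_ _
    rw [rho_E_mul]
    exact R.neg_mem (hR.mul x hx)

theorem F_add (x y : V) : F X.q (x + y) = F X.q x + F X.q y := by
  refine LinearMap.ext fun z => ?_
  simp only [F_apply, LinearMap.add_apply, map_add, smul_add, Prod.mk_add_mk, add_zero,
    Prod.mk.injEq, and_true]
  ring

/-- all lowering operators are skew for the Mukai pairing -/
theorem muk_F' (v : V) (x y : A) :
    X.muk (X.rho (F X.q v) x) y = - X.muk x (X.rho (F X.q v) y) := by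
  by_cases hv : X.q v v = 0
  · obtain ⟨w, hw⟩ := X.nonisotropic
    obtain ⟨t, ht⟩ : ∃ t : ℂ, X.q (v + t • w) (v + t • w) ≠ 0 := by
      by_contra hcon
      push Not at hcon
      have h1 := hcon 1
      have h2 := hcon 2
      simp only [map_add, map_smul, LinearMap.add_apply, LinearMap.smul_apply, smul_eq_mul, hv]
        at h1 h2
      rw [X.q_symm w v] at h1 h2
      apply hw
      linear_combination h2 / 2 - h1
    have h1 := X.muk_F ht x y
    have h2 := X.muk_F hw x y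
    rw [X.F_add, X.F_smul, map_add, map_smul] at h1
    simp only [LinearMap.add_apply, LinearMap.smul_apply, map_add, map_smul, smul_eq_mul] at h1
    rw [h2] at h1
    linear_combination h1
  · exact X.muk_F hv x y

theorem good_F' {R : Subring (Module.End ℂ A)} (hR : X.DivRing R) {x : V} (hx : X.NS x)
    (hF : X.rho (F X.q x) ∈ R) : X.Good R (X.expF x) where
  lam := rfl
  rat y hy := ex_rat (f := X.rho (F X.q x)) (fun z hz => X.rho_rat _ _ hx.1 hz) _ y hy
  rat' y hy := by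
    refine ex_rat (f := -X.rho (F X.q x)) (fun z hz => ?_) _ y hy
    rw [LinearMap.neg_apply]
    exact IsRat.neg (X.rho_rat _ _ hx.1 hz)
  ratg z hz := by
    rw [expF_g]
    exact ⟨(hz.1.add (Rt.two.mul (X.q_rat _ _ hx.1 hz.2.1))).add
        ((Rt.two.mul hz.2.2).mul (X.q_rat _ _ hx.1 hx.1)),
      RV.add hz.2.1 (RV.smul (Rt.two.mul hz.2.2) hx.1), hz.2.2⟩
  ratg' z hz := by
    have h : IsRat X.b (X.i (-x)) := by
      rw [map_neg]
      exact IsRat.neg hx.1
    rw [expF_symm, expF_g]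
    exact ⟨(hz.1.add (Rt.two.mul (X.q_rat _ _ h hz.2.1))).add
        ((Rt.two.mul hz.2.2).mul (X.q_rat _ _ h h)),
      RV.add hz.2.1 (RV.smul (Rt.two.mul hz.2.2) h), hz.2.2⟩
  s := by
    rw [expF_g]
    simp [vv, hx.2.1]
  s' := by
    rw [expF_g]
    simp [vv, hx.2.2]
  muk y z := X.muk_ex (X.nilF _) (X.muk_F' x) y z
  mem := hR.ex hF _
  mem' := hR.ex (R.neg_mem hF) _

/-- membership of conjugates -/
theorem Good.conj_mem {R : Subring (Module.End ℂ A)} {P : Intw X X} (hP : X.Good R P)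
    {x y : ℂ × V × ℂ} (h : X.rho (W X.q (P.g x) (P.g y)) ∈ R) : X.rho (W X.q x y) ∈ R := by
  have h1 := P.eqv x y
  rw [hP.lam, inv_one, one_smul] at h1
  rw [← h1] at h
  have h2 : X.rho (W X.q x y) = P.u.symm.toLinearMap * cj P.u (X.rho (W X.q x y)) *
      P.u.toLinearMap := by
    refine LinearMap.ext fun z => ?_
    simp [cj_apply]
  rw [h2]
  exact R.mul_mem (R.mul_mem hP.mem' h) hP.mem

/-- moving `β` to a rational isotropic vector whose unipotent radical lies in `R` -/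
theorem move_beta {R : Subring (Module.End ℂ A)} (hR : X.DivRing R) {zb : ℂ × V × ℂ}
    (hb : X.NSE zb) (hb0 : bil X.q zb zb = 0) (hne : zb ≠ 0)
    (hK : ∀ z, X.NSE z → bil X.q zb z = 0 → X.rho (W X.q zb z) ∈ R) :
    ∃ P : Intw X X, X.Good R P ∧ ∃ d : ℂ, d ≠ 0 ∧ P.g (be ℂ V) = d • zb := by
  have hnsb := NSE.ns X hb
  by_cases h1 : zb.1 = 0
  · by_cases h2 : zb.2.1 = 0
    · -- `zb` is a multiple of `β`
      have h0 : X.NS 0 := by
        refine ⟨?_, ?_, ?_⟩
        · rw [map_zero]; exact IsRat.zero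
        · rw [map_zero, LinearMap.zero_apply]
        · rw [map_zero, LinearMap.zero_apply]
      have h3 : zb.2.2 ≠ 0 := by
        intro h3
        exact hne (Prod.ext h1 (Prod.ext h2 h3))
      refine ⟨X.expE 0, X.good_E' hR h0, zb.2.2⁻¹, inv_ne_zero h3, ?_⟩
      rw [X.expE_be]
      refine Prod.ext ?_ (Prod.ext ?_ ?_)
      · simp [be, h1]
      · simp [be, h2]
      · simp [be, h3]
    · -- `zb = v + b β` with `v` isotropic
      set v := zb.2.1 with hv
      have hvv : X.q v v = 0 := by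
        rw [bil_apply, h1] at hb0
        linear_combination hb0
      have hlv : X.q X.l v ≠ 0 := by
        intro h3
        exact h2 (X.index v hnsb.1 hnsb.2.1 hnsb.2.2 h3 hvv)
      have hlvr : Rt (X.q X.l v) := X.q_rat _ _ X.l_rat hnsb.1
      set x := (X.q X.l v)⁻¹ • X.l with hx
      have hxns : X.NS x := NS.smul X hlvr.inv X.ns_l
      have hxv : X.q x v = 1 := by
        rw [hx, map_smul, LinearMap.smul_apply, smul_eq_mul, inv_mul_cancel₀ hlv]
      have hbr : Rt zb.2.2 := hb.1.2.2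
      have hns1 : X.NS (zb.2.2 • x) := NS.smul X hbr hxns
      have hG1 := X.good_E' hR hns1
      have e1 : (X.expE (zb.2.2 • x)).g (vv ℂ v) = zb := by
        rw [expE_g]
        refine Prod.ext ?_ (Prod.ext ?_ ?_)
        · simp [vv, h1]
        · simp [vv, hv]
        · simp [vv, hxv]
      -- the lowering operator of `v` lies in `R`
      have hα : X.NSE (al ℂ V) := by
        refine ⟨⟨Rt.one, ?_, Rt.zero⟩, ?_, ?_⟩
        · show IsRat X.b (X.i 0)
          rw [map_zero]; exact IsRat.zero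
        · simp [bil_apply, al, vv]
        · simp [bil_apply, al, vv]
      have hz : X.NSE ((X.expE (zb.2.2 • x)).g (al ℂ V)) := by
        refine ⟨hG1.ratg _ hα.1, ?_, ?_⟩
        · rw [← hG1.s, Intw.sim, hα.2.1, mul_zero]
        · rw [← hG1.s', Intw.sim, hα.2.2, mul_zero]
      have hz0 : bil X.q zb ((X.expE (zb.2.2 • x)).g (al ℂ V)) = 0 := by
        have h5 : bil X.q ((X.expE (zb.2.2 • x)).g (vv ℂ v))
            ((X.expE (zb.2.2 • x)).g (al ℂ V)) = 0 := by
          rw [Intw.sim]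
          simp [bil_apply, al, vv]
        rw [e1] at h5
        exact h5
      have hW := hK _ hz hz0
      have hW2 : X.rho (W X.q ((X.expE (zb.2.2 • x)).g (vv ℂ v))
          ((X.expE (zb.2.2 • x)).g (al ℂ V))) ∈ R := by
        rw [e1]
        exact hW
      have hW' : X.rho (W X.q (vv ℂ v) (al ℂ V)) ∈ R := hG1.conj_mem X hW2
      have hF : ∀ c : ℂ, Rt c → X.rho (F X.q (c • v)) ∈ R := by
        intro c hc
        rw [X.F_smul, ← W_F X.q, W_swap, smul_neg, map_smul, map_neg, map_smul]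
        exact hR.smul hc (R.neg_mem (hR.smul Rt.two hW'))
      have hns2 : X.NS ((2 : ℂ)⁻¹ • v) := NS.smul X Rt.two.inv hnsb
      have hns3 : X.NS (-(1 : ℂ) • x) := NS.smul X Rt.one.neg hxns
      refine ⟨((X.expF ((2 : ℂ)⁻¹ • v)).trans (X.expE (-(1 : ℂ) • x))).trans
        (X.expE (zb.2.2 • x)), ((X.good_F' hR hns2 (hF _ Rt.two.inv)).trans
        (X.good_E' hR hns3)).trans hG1, 1, one_ne_zero, ?_⟩
      show (X.expE (zb.2.2 • x)).g ((X.expE (-(1 : ℂ) • x)).g
        ((X.expF ((2 : ℂ)⁻¹ • v)).g (be ℂ V))) = _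
      have e2 : (X.expE (-(1 : ℂ) • x)).g ((X.expF ((2 : ℂ)⁻¹ • v)).g (be ℂ V)) =
          vv ℂ v := by
        rw [expF_g, expE_g]
        refine Prod.ext ?_ (Prod.ext ?_ ?_)
        · simp [be, vv, hvv]
        · simp [be, vv, hvv]
        · simp [be, vv, hvv, hxv]
      rw [e2, e1, one_smul]
  · -- `zb` has a nonzero first coordinate: the ring contains all lowering operators
    have hns1 : X.NS (zb.1⁻¹ • zb.2.1) := NS.smul X hb.1.1.inv hnsb
    have hG1 := X.good_E' hR hns1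
    have e1 : (X.expE (zb.1⁻¹ • zb.2.1)).g (al ℂ V) = zb.1⁻¹ • zb := X.iso_eq hb0 h1
    have hl : X.rho (F X.q X.l) ∈ R := by
      have hv : X.NSE (vv ℂ X.l) := by
        refine ⟨⟨Rt.zero, X.l_rat, Rt.zero⟩, ?_, ?_⟩
        · simp [bil_apply, vv, X.l_s]
        · simp [bil_apply, vv, X.l_s']
      have hz : X.NSE ((X.expE (zb.1⁻¹ • zb.2.1)).g (vv ℂ X.l)) := by
        refine ⟨hG1.ratg _ hv.1, ?_, ?_⟩
        · rw [← hG1.s, Intw.sim, hv.2.1, mul_zero]
        · rw [← hG1.s', Intw.sim, hv.2.2, mul_zero]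
      have e1' : zb = zb.1 • (X.expE (zb.1⁻¹ • zb.2.1)).g (al ℂ V) := by
        rw [e1, smul_smul, mul_inv_cancel₀ h1, one_smul]
      have hz0 : bil X.q zb ((X.expE (zb.1⁻¹ • zb.2.1)).g (vv ℂ X.l)) = 0 := by
        have h5 : bil X.q ((X.expE (zb.1⁻¹ • zb.2.1)).g (al ℂ V))
            ((X.expE (zb.1⁻¹ • zb.2.1)).g (vv ℂ X.l)) = 0 := by
          rw [Intw.sim]
          simp [bil_apply, al, vv]
        rw [e1, map_smul, LinearMap.smul_apply, smul_eq_mul] at h5
        exact (mul_eq_zero.1 h5).resolve_left (inv_ne_zero h1)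
      have hW := hK _ hz hz0
      have hW2 : X.rho (W X.q ((X.expE (zb.1⁻¹ • zb.2.1)).g (al ℂ V))
          ((X.expE (zb.1⁻¹ • zb.2.1)).g (vv ℂ X.l))) ∈ R := by
        conv =>
          arg 2
          rw [e1]
        rw [W_smul_left, map_smul]
        exact hR.smul hb.1.1.inv hW
      have hW' : X.rho (W X.q (al ℂ V) (vv ℂ X.l)) ∈ R := hG1.conj_mem X hW2
      rw [← W_F X.q, map_smul]
      exact hR.smul Rt.two hW'
    exact X.move_two (R := R) ⟨hR.scalar, hR.mul, hl⟩ hb hb0 hne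

/-- moving the pair of lines of `α`, `β` -/
theorem move' {R : Subring (Module.End ℂ A)} (hR : X.DivRing R) {za zb : ℂ × V × ℂ}
    (ha : X.NSE za) (hb : X.NSE zb) (ha0 : bil X.q za za = 0) (hb0 : bil X.q zb zb = 0)
    (hab : bil X.q za zb ≠ 0)
    (hK : ∀ z, X.NSE z → bil X.q zb z = 0 → X.rho (W X.q zb z) ∈ R) :
    ∃ P : Intw X X, X.Good R P ∧ (∃ c : ℂ, c ≠ 0 ∧ P.g (al ℂ V) = c • za) ∧
      ∃ d : ℂ, d ≠ 0 ∧ P.g (be ℂ V) = d • zb := by
  have hne : zb ≠ 0 := by
    rintro rfl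
    rw [map_zero] at hab
    exact hab rfl
  obtain ⟨P, hP, d, hd, hPd⟩ := X.move_beta hR hb hb0 hne hK
  set z := P.g.symm za with hz
  have hPz : P.g z = za := P.g.apply_symm_apply za
  have h1 : z.1 ≠ 0 := by
    intro h1
    have h2 := P.sim z (be ℂ V)
    rw [hPz, hPd, map_smul, smul_eq_mul, bil_apply X.q z, h1] at h2
    simp only [be, map_zero] at h2
    have h3 : d * bil X.q za zb = 0 := by linear_combination h2
    exact mul_ne_zero hd hab h3
  have hzN : X.NSE z := by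
    refine ⟨hP.ratg' _ ha.1, ?_, ?_⟩
    · have h2 := P.sim z (vv ℂ X.s)
      rw [hPz, hP.s, ha.2.1, hP.lam, one_mul] at h2
      exact h2.symm
    · have h2 := P.sim z (vv ℂ X.s')
      rw [hPz, hP.s', ha.2.2, hP.lam, one_mul] at h2
      exact h2.symm
  have hz0 : bil X.q z z = 0 := by
    have h2 := P.sim z z
    rw [hPz, ha0, hP.lam, one_mul] at h2
    exact h2.symm
  have hns : X.NS (z.1⁻¹ • z.2.1) := NS.smul X hzN.1.1.inv (NSE.ns X hzN)
  refine ⟨(X.expE (z.1⁻¹ • z.2.1)).trans P, (X.good_E' hR hns).trans hP,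
    ⟨z.1⁻¹, inv_ne_zero h1, ?_⟩, d, hd, ?_⟩
  · show P.g ((X.expE (z.1⁻¹ • z.2.1)).g (al ℂ V)) = _
    rw [X.iso_eq hz0 h1, map_smul, hPz]
  · show P.g ((X.expE (z.1⁻¹ • z.2.1)).g (be ℂ V)) = _
    rw [X.expE_be, hPd]

end Coh

end Pool.Agent.Q8.HK
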