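import Mathlib
import Pool.Agent.Q8.HK.Uncond

/-!
# The main theorem without hypothesis on the dual Lefschetz operators
-/

set_option autoImplicit false
set_option linter.unusedSimpArgs false
set_option linter.style.haveILetI false

open Module

namespace Pool.Agent.Q8.HK

variable {n : ℕ} {A V : Type} [Ring A] [Algebra ℂ A] [AddCommGroup V] [Module ℂ V]
variable {B U : Type} [Ring B] [Algebra ℂ B] [AddCommGroup U] [Module ℂ U]

namespace Coh

variable (X : Coh n A V)

/-- rational endomorphisms -/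
def RO (f : Module.End ℂ A) : Prop := ∀ x, IsRat X.b x → IsRat X.b (f x)

variable {X}

theorem RO.add {f g : Module.End ℂ A} (hf : X.RO f) (hg : X.RO g) : X.RO (f + g) :=
  fun x hx => IsRat.add (hf x hx) (hg x hx)

theorem RO.neg {f : Module.End ℂ A} (hf : X.RO f) : X.RO (-f) :=
  fun x hx => IsRat.neg (hf x hx)

theorem RO.sub {f g : Module.End ℂ A} (hf : X.RO f) (hg : X.RO g) : X.RO (f - g) :=
  fun x hx => IsRat.sub (hf x hx) (hg x hx)

theorem RO.smul {f : Module.End ℂ A} {c : ℂ} (hc : Rt c) (hf : X.RO f) : X.RO (c • f) :=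
  fun x hx => IsRat.smul hc (hf x hx)

theorem RO.mul {f g : Module.End ℂ A} (hf : X.RO f) (hg : X.RO g) : X.RO (f * g) :=
  fun x hx => hf _ (hg x hx)

variable (X)

theorem ro_E {v : V} (hv : X.RV v) : X.RO (X.rho (E X.q v)) := by
  intro x hx
  rw [X.rho_E]
  exact X.mul_rat _ _ hv hx

theorem ro_F {v : V} (hv : X.RV v) : X.RO (X.rho (F X.q v)) := fun x hx => X.rho_rat v x hv hx

theorem ro_H : X.RO (X.rho (H ℂ V)) := fun _ hx => X.H_rat hx

theorem ro_S {v w : V} (hv : X.RV v) (hw : X.RV w) : X.RO (X.rho (S (rot X.q v w))) := by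
  have h := X.rho_lie _ _ (skew_E X.q_symm v) (skew_F X.q_symm w)
  rw [EF X.q X.q_symm, map_add, map_smul, map_smul] at h
  have h2 : X.rho (S (rot X.q v w)) = (2 : ℂ)⁻¹ • ((X.rho (E X.q v) * X.rho (F X.q w) -
      X.rho (F X.q w) * X.rho (E X.q v)) - X.q v w • X.rho (H ℂ V)) := by
    rw [← h, add_sub_cancel_left, smul_smul, inv_mul_cancel₀ two_ne_zero, one_smul]
  rw [h2]
  exact RO.smul Rt.two.inv ((((X.ro_E hv).mul (X.ro_F hw)).sub
    ((X.ro_F hw).mul (X.ro_E hv))).sub (RO.smul (X.q_rat _ _ hv hw) X.ro_H))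

/-- the operators `W z z'` with rational `z`, `z'` are rational -/
theorem ro_W {z z' : ℂ × V × ℂ} (hz : X.RE z) (hz' : X.RE z') : X.RO (X.rho (W X.q z z')) := by
  obtain ⟨z1, z2, z3⟩ := hz
  obtain ⟨w1, w2, w3⟩ := hz'
  have hH : X.RO (X.rho (W X.q (al ℂ V) (be ℂ V))) := by
    have h := RO.smul (X := X) Rt.two.inv X.ro_H
    rw [← W_H X.q, map_smul, smul_smul, inv_mul_cancel₀ two_ne_zero, one_smul] at h
    exact h
  have hF : ∀ v, X.RV v → X.RO (X.rho (W X.q (al ℂ V) (vv ℂ v))) := by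
    intro v hv
    have h := RO.smul (X := X) Rt.two.inv (X.ro_F hv)
    rw [← W_F X.q, map_smul, smul_smul, inv_mul_cancel₀ two_ne_zero, one_smul] at h
    exact h
  have hE : ∀ v, X.RV v → X.RO (X.rho (W X.q (be ℂ V) (vv ℂ v))) := by
    intro v hv
    rw [W_E]
    exact X.ro_E hv
  have hS : ∀ v w, X.RV v → X.RV w → X.RO (X.rho (W X.q (vv ℂ v) (vv ℂ w))) := by
    intro v w hv hw
    rw [W_V]
    exact X.ro_S hv hw
  have h0 : ∀ z, X.rho (W X.q z z) = 0 := by
    intro z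
    have h : W X.q z z = 0 := by
      refine LinearMap.ext fun x => ?_
      rw [W_apply, sub_self, LinearMap.zero_apply]
    rw [h, map_zero]
  have hsw : ∀ z z', X.RO (X.rho (W X.q z z')) → X.RO (X.rho (W X.q z' z)) := by
    intro z z' h
    rw [W_swap, map_neg]
    exact h.neg
  have hzero : X.RO 0 := fun x _ => IsRat.zero
  have key : ∀ y, X.RO (X.rho (W X.q y (al ℂ V))) → X.RO (X.rho (W X.q y (vv ℂ z'.2.1))) →
      X.RO (X.rho (W X.q y (be ℂ V))) → X.RO (X.rho (W X.q y z')) := by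
    intro y h1 h2 h3
    have e : X.rho (W X.q y z') = z'.1 • X.rho (W X.q y (al ℂ V)) +
        X.rho (W X.q y (vv ℂ z'.2.1)) + z'.2.2 • X.rho (W X.q y (be ℂ V)) := by
      conv_lhs => rw [ext_eta z']
      rw [W_add_right, W_add_right, W_smul_right, W_smul_right, map_add, map_add, map_smul,
        map_smul]
    rw [e]
    exact ((RO.smul w1 h1).add h2).add (RO.smul w3 h3)
  have e : X.rho (W X.q z z') = z.1 • X.rho (W X.q (al ℂ V) z') +
      X.rho (W X.q (vv ℂ z.2.1) z') + z.2.2 • X.rho (W X.q (be ℂ V) z') := by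
    conv_lhs => rw [ext_eta z]
    rw [W_add_left, W_add_left, W_smul_left, W_smul_left, map_add, map_add, map_smul, map_smul]
  rw [e]
  refine ((RO.smul z1 ?_).add ?_).add (RO.smul z3 ?_)
  · refine key _ ?_ (hF _ w2) hH
    rw [h0]; exact hzero
  · exact key _ (hsw _ _ (hF _ z2)) (hS _ _ z2 w2) (hsw _ _ (hE _ z2))
  · refine key _ (hsw _ _ hH) (hE _ w2) ?_
    rw [h0]; exact hzero

end Coh

section lines

variable {X : Coh n A V} {Y : Coh n B U}

/-- the unipotent radical of the parabolic of the line of `Φ⁻¹ β` consists of the conjugates of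
multiplication operators -/
theorem Intw.radical (P : Intw X Y) (h1 : ∀ x, IsRat X.b x ↔ IsRat Y.b (P.u x))
    (hs : P.g (vv ℂ X.s) = vv ℂ Y.s) {t : ℂ} (hs' : P.g (vv ℂ X.s') = t • vv ℂ Y.s')
    {zb : ℂ × V × ℂ} (hzb : X.NSE zb) {c : ℂ} (hc : P.g zb = c • be ℂ U)
    {R : Subring (Module.End ℂ A)}
    (hR : ∀ y, Y.NS y → cj P.u.symm (LinearMap.mulLeft ℂ (Y.i y)) ∈ R)
    (z : ℂ × V × ℂ) (hz : X.NSE z) (h0 : bil X.q zb z = 0) (hc0 : c ≠ 0) :
    X.rho (W X.q zb z) ∈ R := by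
  have ht : t ≠ 0 := by
    rintro rfl
    rw [zero_smul] at hs'
    have h2 := P.g.map_eq_zero_iff.1 hs'
    have h3 := congrArg (fun z : ℂ × V × ℂ => z.2.1) h2
    have h4 : X.s' = 0 := h3
    have h5 := X.s_s'
    rw [h4, map_zero] at h5
    exact h5 rfl
  set y0 := (P.g z).2.1 with hy0
  have h2 : (P.g z).1 = 0 := by
    have h := P.sim zb z
    rw [h0, mul_zero, hc, map_smul, LinearMap.smul_apply, bil_apply] at h
    simp only [be, map_zero, LinearMap.zero_apply, zero_mul, one_mul, zero_sub, sub_zero,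
      smul_eq_mul] at h
    have h' : c * (P.g z).1 = 0 := by linear_combination -h
    exact (mul_eq_zero.1 h').resolve_left hc0
  have hgz : P.g z = vv ℂ y0 + (P.g z).2.2 • be ℂ U := by
    conv_lhs => rw [ext_eta (P.g z), h2, zero_smul, zero_add]
  have hWb : W Y.q (be ℂ U) (be ℂ U) = 0 := by
    refine LinearMap.ext fun x => ?_
    rw [W_apply, sub_self, LinearMap.zero_apply]
  have hcj : cj P.u (X.rho (W X.q zb z)) = LinearMap.mulLeft ℂ (Y.i ((P.lam⁻¹ * c) • y0)) := by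
    rw [P.eqv, hc, hgz, W_add_right, W_smul_right, W_smul_left, W_smul_left, hWb, smul_zero,
      smul_zero, add_zero, W_E, map_smul, smul_smul]
    refine LinearMap.ext fun x => ?_
    rw [LinearMap.smul_apply, Y.rho_E, LinearMap.mulLeft_apply, map_smul, smul_mul_assoc]
  have hy : Y.NS ((P.lam⁻¹ * c) • y0) := by
    refine ⟨?_, ?_, ?_⟩
    · have h3 := LinearMap.congr_fun hcj 1
      rw [LinearMap.mulLeft_apply, mul_one, cj_apply] at h3
      rw [← h3, ← h1]
      refine X.ro_W hzb.1 hz.1 _ ?_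
      rw [h1, LinearEquiv.apply_symm_apply]
      exact Y.one_rat
    · have h3 := P.sim z (vv ℂ X.s)
      rw [hz.2.1, mul_zero, hs, bil_apply] at h3
      simp only [vv, mul_zero, sub_zero] at h3
      rw [map_smul, LinearMap.smul_apply, hy0, h3, smul_zero]
    · have h3 := P.sim z (vv ℂ X.s')
      rw [hz.2.2, mul_zero, hs', map_smul, bil_apply] at h3
      simp only [vv, mul_zero, sub_zero, smul_eq_mul] at h3
      rw [map_smul, LinearMap.smul_apply, hy0, (mul_eq_zero.1 h3).resolve_left ht, smul_zero]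
  have h3 := hR _ hy
  rw [← hcj, cj_symm] at h3
  exact h3

/-- **Main theorem.** Let `R` be a ring of endomorphisms of `H^*(X)` containing the rational
scalars, the multiplications by rational `(1,1)`-classes of `X` and the conjugates
`Φ⁻¹ L_y Φ` of the multiplications by rational `(1,1)`-classes of `Y`. Then `Φ ∘ T` is a
rational multiple of a graded ring isomorphism for some unit `T` of `R`. -/
theorem DerEq.free (D : DerEq X Y) {R : Subring (Module.End ℂ A)} (hR : X.DivRing R)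
    (hR' : ∀ y, Y.NS y → cj D.Φ.symm (LinearMap.mulLeft ℂ (Y.i y)) ∈ R) :
    ∃ (G : A ≃ₐ[ℂ] B) (c : ℂ) (T T' : Module.End ℂ A), c ≠ 0 ∧ Rt c ∧ T ∈ R ∧ T' ∈ R ∧
      T * T' = 1 ∧ T' * T = 1 ∧ (∀ x, c • G x = D.Φ (T x)) ∧
      (∀ k x, x ∈ grade X.b X.d k ↔ G x ∈ grade Y.b Y.d k) ∧
      (∀ x, IsRat X.b x ↔ IsRat Y.b (G x)) ∧ (∀ x, G (X.eta x) = Y.eta (G x)) ∧
      ((∀ x y, Y.mukai (D.Φ x) (D.Φ y) = X.mukai x y) →
        ∀ x, Y.int (G x) = (c ^ 2)⁻¹ * X.int x) := by
  obtain ⟨P, hP, hs, t, hs'⟩ := D.intw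
  have hPe : P.u = D.Φ := LinearEquiv.ext hP
  have hPr : ∀ x, IsRat X.b x ↔ IsRat Y.b (P.u x) := by
    intro x
    rw [hP]
    exact D.rat x
  obtain ⟨za, zb, hza, hzb, ⟨ca, hca, hga⟩, ⟨cb, hcb, hgb⟩⟩ := P.lines hPr hs hs'
  have baa : bil X.q za za = 0 := by
    have h := P.sim za za
    rw [hga, map_smul, map_smul, LinearMap.smul_apply] at h
    have h' : bil Y.q (al ℂ U) (al ℂ U) = 0 := by simp [bil_apply, al]
    rw [h', smul_zero, smul_zero] at h
    exact (mul_eq_zero.1 h.symm).resolve_left P.lam_ne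
  have bbb : bil X.q zb zb = 0 := by
    have h := P.sim zb zb
    rw [hgb, map_smul, map_smul, LinearMap.smul_apply] at h
    have h' : bil Y.q (be ℂ U) (be ℂ U) = 0 := by simp [bil_apply, be]
    rw [h', smul_zero, smul_zero] at h
    exact (mul_eq_zero.1 h.symm).resolve_left P.lam_ne
  have bab : bil X.q za zb ≠ 0 := by
    intro h0
    have h := P.sim za zb
    rw [hga, hgb, map_smul, map_smul, LinearMap.smul_apply, h0, mul_zero] at h
    have h' : bil Y.q (al ℂ U) (be ℂ U) = -1 := by simp [bil_apply, al, be]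
    rw [h', smul_eq_mul, smul_eq_mul] at h
    have h2 : ca * cb = 0 := by linear_combination -h
    exact mul_ne_zero hca hcb h2
  rw [← hPe] at hR'
  obtain ⟨Q, hQ, ⟨c1, hc1, hQa⟩, ⟨c2, hc2, hQb⟩⟩ := X.move' hR hza hzb baa bbb bab
    (fun z hz h0 => P.radical hPr hs hs' hzb hgb hR' z hz h0 hcb)
  set M := Q.trans P with hM
  have hMu : ∀ x, M.u x = D.Φ (Q.u x) := fun x => hP _
  have hMa : M.g (al ℂ V) = (c1 * ca) • al ℂ U := by
    show P.g (Q.g (al ℂ V)) = _
    rw [hQa, map_smul, hga, smul_smul]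
  have hMb : M.g (be ℂ V) = (c2 * cb) • be ℂ U := by
    show P.g (Q.g (be ℂ V)) = _
    rw [hQb, map_smul, hgb, smul_smul]
  obtain ⟨hH, hL⟩ := M.ring hMa hMb
  obtain ⟨c, hc, G, hG⟩ := ring_of M.u hH hL
  have hQr : ∀ x, IsRat X.b x ↔ IsRat X.b (Q.u x) := by
    intro x
    refine ⟨hQ.rat x, fun h => ?_⟩
    have := hQ.rat' _ h
    rwa [LinearEquiv.symm_apply_apply] at this
  have hMr : ∀ x, IsRat X.b x ↔ IsRat Y.b (M.u x) := by
    intro x
    rw [hMu, ← D.rat, ← hQr]
  have hcr : Rt c := by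
    have h := (hMr 1).1 X.one_rat
    rw [hG, map_one] at h
    exact Y.rt_of_one h
  have hGH : ∀ x, G (X.rho (H ℂ V) x) = Y.rho (H ℂ U) (G x) := by
    intro x
    have h := hH x
    rw [hG, hG, map_smul] at h
    exact smul_right_injective _ hc h
  refine ⟨G, c, Q.u.toLinearMap, Q.u.symm.toLinearMap, hc, hcr, hQ.mem, hQ.mem', ?_, ?_, ?_,
    ?_, ?_, ?_, ?_⟩
  · exact LinearMap.ext fun x => Q.u.apply_symm_apply x
  · exact LinearMap.ext fun x => Q.u.symm_apply_apply x
  · intro x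
    rw [← hG, hMu]
    rfl
  · exact fun k x => grade_iff X Y G.toLinearEquiv hGH k x
  · intro x
    rw [hMr, hG]
    refine ⟨fun h => ?_, fun h => IsRat.smul hcr h⟩
    have h2 := IsRat.smul hcr.inv h
    rwa [smul_smul, inv_mul_cancel₀ hc, one_smul] at h2
  · intro x
    have h1 : Q.u (X.eta x) = X.eta (Q.u x) := by
      have h2 := Q.eqv (vv ℂ X.s) (vv ℂ X.s')
      rw [hQ.s, hQ.s', hQ.lam, inv_one, one_smul] at h2
      have h3 := LinearMap.congr_fun h2 (Q.u x)
      rw [cj_apply, LinearEquiv.symm_apply_apply] at h3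
      rw [X.eta_eq, LinearMap.smul_apply, LinearMap.smul_apply, map_smul, h3]
    have h4 : M.u (X.eta x) = Y.eta (M.u x) := by
      rw [hMu, hMu, h1, D.hodge]
    rw [hG, hG, map_smul] at h4
    exact smul_right_injective _ hc h4
  · intro hmuk x
    have h1 : ∀ x y, Y.muk (M.u x) (M.u y) = X.muk x y := by
      intro x y
      rw [hMu, hMu, Y.muk_apply, hmuk, ← X.muk_apply, hQ.muk]
    have h2 := h1 1 x
    rw [hG, hG, map_one, map_smul, map_smul, LinearMap.smul_apply, Y.muk_eq, X.muk_eq,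
      Y.dual_one, X.dual_one, one_mul, one_mul, smul_eq_mul, smul_eq_mul] at h2
    rw [← h2]
    field_simp

end lines

end Pool.Agent.Q8.HK
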