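import Mathlib
import Pool.Agent.Q8.HK.Free

/-!
# Algebraic correspondences
-/

set_option autoImplicit false

open Module

namespace Pool.Agent.Q8.HK

variable {n : ℕ} {A V : Type} [Ring A] [Algebra ℂ A] [AddCommGroup V] [Module ℂ V]
variable {B U : Type} [Ring B] [Algebra ℂ B] [AddCommGroup U] [Module ℂ U]

/-- The operators on cohomology defined by algebraic classes (of all degrees) on `X × X`,
`Y × Y`, `X × Y` and `Y × X`. -/
structure AlgCorr (X : Coh n A V) (Y : Coh n B U) where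
  XX : Subring (Module.End ℂ A)
  YY : Subring (Module.End ℂ B)
  XY : AddSubgroup (A →ₗ[ℂ] B)
  YX : AddSubgroup (B →ₗ[ℂ] A)
  /-- rational multiples of the diagonal -/
  scalar : ∀ r : ℚ, (r : ℂ) • (1 : Module.End ℂ A) ∈ XX
  /-- the push-forwards of divisor classes to the diagonal -/
  divX : ∀ x, X.NS x → LinearMap.mulLeft ℂ (X.i x) ∈ XX
  divY : ∀ y, Y.NS y → LinearMap.mulLeft ℂ (Y.i y) ∈ YY
  XY_XX : ∀ f ∈ XY, ∀ g ∈ XX, f ∘ₗ g ∈ XY
  YY_XY : ∀ f ∈ YY, ∀ g ∈ XY, f ∘ₗ g ∈ XY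
  YX_XY : ∀ f ∈ YX, ∀ g ∈ XY, f ∘ₗ g ∈ XX
  XX_YX : ∀ f ∈ XX, ∀ g ∈ YX, f ∘ₗ g ∈ YX

variable {X : Coh n A V} {Y : Coh n B U}

/-- **Derived equivalent hyper-Kähler varieties have isomorphic cohomology rings, by algebraic
correspondences.** -/
theorem DerEq.algebraic (D : DerEq X Y) (C : AlgCorr X Y) (h : D.Φ.toLinearMap ∈ C.XY)
    (h' : D.Φ.symm.toLinearMap ∈ C.YX) :
    ∃ G : A ≃ₐ[ℂ] B, G.toLinearMap ∈ C.XY ∧ G.symm.toLinearMap ∈ C.YX ∧
      (∀ k x, x ∈ grade X.b X.d k ↔ G x ∈ grade Y.b Y.d k) ∧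
      (∀ x, IsRat X.b x ↔ IsRat Y.b (G x)) ∧ (∀ x, G (X.eta x) = Y.eta (G x)) ∧
      ((∀ x y, Y.mukai (D.Φ x) (D.Φ y) = X.mukai x y) →
        ∃ r : ℚ, r ≠ 0 ∧ ∀ x, Y.int (G x) = (r : ℂ) ^ 2 * X.int x) := by
  have hR : X.DivRing C.XX := ⟨C.scalar, C.divX⟩
  obtain ⟨G, c, T, T', hc, hcr, hT, hT', h1, h2, hG, hgr, hrat, hH, hm⟩ :=
    D.free hR (fun y hy => C.YX_XY _ h' _ (C.YY_XY _ (C.divY y hy) _ h))
  obtain ⟨r, hr⟩ := hcr
  have hr0 : r ≠ 0 := by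
    rintro rfl
    exact hc (by rw [hr]; simp)
  refine ⟨G, ?_, ?_, hgr, hrat, hH, fun hmuk => ⟨r⁻¹, inv_ne_zero hr0, fun x => ?_⟩⟩
  · have e : G.toLinearMap = D.Φ.toLinearMap ∘ₗ
        (((r⁻¹ : ℚ) : ℂ) • (1 : Module.End ℂ A) * T : Module.End ℂ A) := by
      refine LinearMap.ext fun x => ?_
      have h3 := hG x
      show G x = D.Φ ((((r⁻¹ : ℚ) : ℂ) • (1 : Module.End ℂ A) * T) x)
      rw [smul_mul_assoc, one_mul, LinearMap.smul_apply, map_smul, ← h3, smul_smul, hr]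
      push_cast
      rw [inv_mul_cancel₀ (by rw [← hr]; exact hc), one_smul]
    rw [e]
    exact C.XY_XX _ h _ (C.XX.mul_mem (C.scalar _) hT)
  · have e : G.symm.toLinearMap =
        ((((r : ℚ) : ℂ) • (1 : Module.End ℂ A) * T' : Module.End ℂ A)) ∘ₗ
          D.Φ.symm.toLinearMap := by
      refine LinearMap.ext fun y => ?_
      show G.symm y = (((r : ℂ)) • (1 : Module.End ℂ A) * T') (D.Φ.symm y)
      rw [smul_mul_assoc, one_mul, LinearMap.smul_apply, ← hr]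
      have h3 := hG (G.symm y)
      rw [G.apply_symm_apply] at h3
      have h4 : D.Φ.symm y = c⁻¹ • T (G.symm y) := by
        apply D.Φ.injective
        rw [LinearEquiv.apply_symm_apply, map_smul, ← h3, smul_smul, inv_mul_cancel₀ hc, one_smul]
      rw [h4, map_smul, ← Module.End.mul_apply, h2, Module.End.one_apply, smul_smul,
        mul_inv_cancel₀ hc, one_smul]
    rw [e]
    exact C.XX_YX _ (C.XX.mul_mem (C.scalar _) hT') _ h'
  · rw [hm hmuk, hr]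
    push_cast
    rw [inv_pow]

end Pool.Agent.Q8.HK
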