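import Mathlib
import Pool.Agent.Q8.HK.Free

/-!
# Automorphisms of the cohomology ring which rescale the integral
-/

set_option autoImplicit false
set_option linter.unusedSimpArgs false
set_option linter.style.haveILetI false

open Module

namespace Pool.Agent.Q8.HK

variable {n : ℕ} {A V : Type} [Ring A] [Algebra ℂ A] [AddCommGroup V] [Module ℂ V]
variable {B U : Type} [Ring B] [Algebra ℂ B] [AddCommGroup U] [Module ℂ U]

namespace Coh

variable (X : Coh n A V)

/-- scaling by `t^{k/2}` on `H^k` -/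
noncomputable def sc (t : ℂ) : A →ₗ[ℂ] A := X.b.constr ℂ fun j => t ^ (X.d j / 2) • X.b j

theorem sc_grade (t : ℂ) {k : ℕ} {x : A} (hx : x ∈ grade X.b X.d k) :
    X.sc t x = t ^ (k / 2) • x := by
  conv_lhs => rw [← X.b.sum_repr x]
  conv_rhs => rw [← X.b.sum_repr x]
  rw [map_sum, Finset.smul_sum]
  refine Finset.sum_congr rfl fun j _ => ?_
  rw [map_smul, sc, Basis.constr_basis]
  by_cases h : X.d j = k
  · rw [h, smul_comm]
  · rw [hx j h, zero_smul, zero_smul, smul_zero]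

theorem sc_repr (t : ℂ) (x : A) (j : Fin X.m) :
    X.b.repr (X.sc t x) j = t ^ (X.d j / 2) * X.b.repr x j := by
  rw [X.expand, Finset.sum_eq_single j]
  · rw [sc, Basis.constr_basis, map_smul, Finsupp.smul_apply, Basis.repr_self,
      Finsupp.single_eq_same, smul_eq_mul, mul_one, mul_comm]
  · intro l _ hl
    rw [sc, Basis.constr_basis, map_smul, Finsupp.smul_apply, Basis.repr_self,
      Finsupp.single_apply, if_neg hl, smul_zero, mul_zero]
  · intro h
    exact absurd (Finset.mem_univ j) h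

theorem sc_sc {t s : ℂ} (h : t * s = 1) (x : A) : X.sc t (X.sc s x) = x := by
  apply X.b.repr.injective
  refine Finsupp.ext fun j => ?_
  rw [sc_repr, sc_repr, ← mul_assoc, ← mul_pow, h, one_pow, one_mul]

theorem sc_mul (hd : ∀ j, Even (X.d j)) (t : ℂ) (x y : A) :
    X.sc t (x * y) = X.sc t x * X.sc t y := by
  have h1 : ∀ j k, X.sc t (X.b j * X.b k) = X.sc t (X.b j) * X.sc t (X.b k) := by
    intro j k
    rw [X.sc_grade t (X.mul_mem _ _ _ _ (X.b_mem j) (X.b_mem k)), X.sc_grade t (X.b_mem j),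
      X.sc_grade t (X.b_mem k), smul_mul_smul_comm, ← pow_add]
    congr 2
    obtain ⟨a, ha⟩ := hd j
    obtain ⟨b, hb⟩ := hd k
    omega
  have h2 : ∀ j, X.sc t (X.b j * y) = X.sc t (X.b j) * X.sc t y := by
    intro j
    conv_lhs => rw [← X.b.sum_repr y]
    conv_rhs => rw [← X.b.sum_repr y]
    simp only [Finset.mul_sum, map_sum, mul_smul_comm, map_smul, h1]
  conv_lhs => rw [← X.b.sum_repr x]
  conv_rhs => rw [← X.b.sum_repr x]
  simp only [Finset.sum_mul, map_sum, smul_mul_assoc, map_smul, h2]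

/-- rescaling automorphisms of the cohomology ring without odd cohomology -/
theorem exists_sc (hd : ∀ j, Even (X.d j)) {t : ℚ} (ht : t ≠ 0) :
    ∃ f : A ≃ₐ[ℂ] A, (∀ k x, x ∈ grade X.b X.d k ↔ f x ∈ grade X.b X.d k) ∧
      (∀ x, IsRat X.b x ↔ IsRat X.b (f x)) ∧ (∀ x, f (X.eta x) = X.eta (f x)) ∧
      ∀ x, X.int (f x) = (t : ℂ) ^ (2 * n) * X.int x := by
  have ht' : (t : ℂ) ≠ 0 := by exact_mod_cast ht
  have h1 : (t : ℂ) * (t : ℂ)⁻¹ = 1 := mul_inv_cancel₀ ht'
  have h2 : (t : ℂ)⁻¹ * (t : ℂ) = 1 := inv_mul_cancel₀ ht'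
  let l : A ≃ₗ[ℂ] A := LinearEquiv.ofLinearMap (X.sc t) (X.sc (t : ℂ)⁻¹)
    (LinearMap.ext fun x => X.sc_sc h1 x) (LinearMap.ext fun x => X.sc_sc h2 x)
  have hl : ∀ x, l x = X.sc t x := fun x => rfl
  let f : A ≃ₐ[ℂ] A := AlgEquiv.ofLinearEquiv l (by
    rw [hl, X.sc_grade _ X.one_mem]
    simp) (fun x y => by rw [hl, hl, hl, X.sc_mul hd])
  have hf : ∀ x, f x = X.sc t x := fun x => rfl
  refine ⟨f, fun k x => ?_, fun x => ?_, fun x => ?_, fun x => ?_⟩
  · constructor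
    · intro hx j hj
      rw [hf, X.sc_repr, hx j hj, mul_zero]
    · intro hx j hj
      have h3 := hx j hj
      rw [hf, X.sc_repr] at h3
      exact (mul_eq_zero.1 h3).resolve_left (pow_ne_zero _ ht')
  · constructor
    · intro hx j
      rw [hf, X.sc_repr]
      exact Rt.mul ⟨t ^ (X.d j / 2), by push_cast; rfl⟩ (hx j)
    · intro hx j
      have h3 := hx j
      rw [hf, X.sc_repr] at h3
      have h4 : X.b.repr x j = (t : ℂ)⁻¹ ^ (X.d j / 2) *
          ((t : ℂ) ^ (X.d j / 2) * X.b.repr x j) := by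
        rw [← mul_assoc, ← mul_pow, h2, one_pow, one_mul]
      rw [h4]
      exact Rt.mul ⟨t⁻¹ ^ (X.d j / 2), by push_cast; rfl⟩ h3
  · rw [hf, hf]
    have hdeg : X.DegOp 0 X.eta := by
      refine DegOp.of_comm X ?_
      rw [eta_eq, mul_smul_comm, smul_mul_assoc]
      have h3 := X.rho_lie _ _ skew_H (skew_W X.q_symm (vv ℂ X.s) (vv ℂ X.s'))
      rw [W_lie X.q skew_H] at h3
      have h4 : ∀ v : V, H ℂ V (vv ℂ v) = 0 := by
        intro v; simp [H_apply, vv]
      have h5 : ∀ z, W X.q 0 z = 0 := by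
        intro z; refine LinearMap.ext fun x => ?_; simp [W_apply]
      rw [h4, h4, W_swap X.q _ 0, h5, h5, neg_zero, add_zero, map_zero] at h3
      refine (smul_sub _ _ _).symm.trans ?_
      rw [← h3]
      simp
    apply X.b.repr.injective
    refine Finsupp.ext fun j => ?_
    rw [X.sc_repr, X.expand X.eta, X.expand X.eta (X.sc t x), Finset.mul_sum]
    refine Finset.sum_congr rfl fun k _ => ?_
    rw [X.sc_repr]
    by_cases hk : (X.d j : ℤ) = X.d k + 0
    · have : X.d j = X.d k := by omega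
      rw [this]
      ring
    · rw [hdeg j k hk]
      ring
  · rw [hf]
    conv_lhs => rw [← X.b.sum_repr x]
    conv_rhs => rw [← X.b.sum_repr x]
    rw [map_sum, map_sum, map_sum, Finset.mul_sum]
    refine Finset.sum_congr rfl fun j _ => ?_
    rw [map_smul, X.sc_grade _ (X.b_mem j), map_smul, map_smul, map_smul, smul_eq_mul,
      smul_eq_mul, smul_eq_mul]
    by_cases hj : X.d j = 4 * n
    · rw [hj]
      have : 4 * n / 2 = 2 * n := by omega
      rw [this]
      ring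
    · rw [X.int_grade _ hj _ (X.b_mem j)]
      ring

/-! ### Tori of isotropic vectors -/

theorem ratu_E {x : V} (hx : X.RV x) (y : A) : IsRat X.b y ↔ IsRat X.b ((X.expE x).u y) := by
  constructor
  · intro hy
    exact ex_rat (f := X.rho (E X.q x)) (X.ro_E hx) _ y hy
  · intro hy
    have h := ex_rat (f := -X.rho (E X.q x)) (RO.neg (X.ro_E hx)) (2 * n + 1) _ hy
    have h2 : HK.ex ℂ (2 * n + 1) (-X.rho (E X.q x)) ((X.expE x).u y) = y :=
      (X.expE x).u.symm_apply_apply y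
    rwa [h2] at h

theorem ratu_F {x : V} (hx : X.RV x) (y : A) : IsRat X.b y ↔ IsRat X.b ((X.expF x).u y) := by
  constructor
  · intro hy
    exact ex_rat (f := X.rho (F X.q x)) (X.ro_F hx) _ y hy
  · intro hy
    have h := ex_rat (f := -X.rho (F X.q x)) (RO.neg (X.ro_F hx)) (2 * n + 1) _ hy
    have h2 : HK.ex ℂ (2 * n + 1) (-X.rho (F X.q x)) ((X.expF x).u y) = y :=
      (X.expF x).u.symm_apply_apply y
    rwa [h2] at h

/-- a Weyl element of a hyperbolic plane -/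
noncomputable def wt (u v : V) (t : ℂ) : Intw X X :=
  ((X.expE (t • u)).trans (X.expF ((-(t⁻¹ / 2)) • v))).trans (X.expE (t • u))

theorem wt_rat {u v : V} (hu : X.RV u) (hv : X.RV v) {t : ℂ} (ht : Rt t) (y : A) :
    IsRat X.b y ↔ IsRat X.b ((X.wt u v t).u y) := by
  have h1 : X.RV (t • u) := RV.smul ht hu
  have h2 : X.RV ((-(t⁻¹ / 2)) • v) := RV.smul (ht.inv.div Rt.two).neg hv
  show _ ↔ IsRat X.b ((X.expE (t • u)).u ((X.expF ((-(t⁻¹ / 2)) • v)).u ((X.expE (t • u)).u y)))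
  rw [← X.ratu_E h1, ← X.ratu_F h2, ← X.ratu_E h1]

theorem wt_lam (u v : V) (t : ℂ) : (X.wt u v t).lam = 1 := by
  show (1 : ℂ) * (1 * 1) = 1
  norm_num

theorem wt_u {u v : V} (huu : X.q u u = 0) (huv : X.q u v = 1) (hvv : X.q v v = 0)
    {t : ℂ} (ht : t ≠ 0) : (X.wt u v t).g (vv ℂ u) = -t⁻¹ • al ℂ V := by
  show (X.expE (t • u)).g ((X.expF ((-(t⁻¹ / 2)) • v)).g ((X.expE (t • u)).g (vv ℂ u))) = _
  have hvu : X.q v u = 1 := by rw [X.q_symm, huv]
  simp only [expE_g, expF_g, vv, al]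
  refine Prod.ext ?_ (Prod.ext ?_ ?_)
  · simp [huu, huv, hvv, hvu]
    ring
  · simp [huu, huv, hvv, hvu, smul_smul]
    have : 2 * (t⁻¹ / 2) * t = (1 : ℂ) := by field_simp
    rw [this, one_smul]
    abel
  · simp [huu, huv, hvv, hvu]

theorem wt_v {u v : V} (huu : X.q u u = 0) (huv : X.q u v = 1) (hvv : X.q v v = 0)
    {t : ℂ} (ht : t ≠ 0) : (X.wt u v t).g (vv ℂ v) = t • be ℂ V := by
  show (X.expE (t • u)).g ((X.expF ((-(t⁻¹ / 2)) • v)).g ((X.expE (t • u)).g (vv ℂ v))) = _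
  have hvu : X.q v u = 1 := by rw [X.q_symm, huv]
  simp only [expE_g, expF_g, vv, be]
  refine Prod.ext ?_ (Prod.ext ?_ ?_)
  · simp [huu, huv, hvv, hvu]
  · simp [huu, huv, hvv, hvu, smul_smul]
    have : 2 * t * (t⁻¹ / 2) = (1 : ℂ) := by field_simp
    rw [this, one_smul]
    abel
  · simp [huu, huv, hvv, hvu]
    right
    field_simp
    ring

end Coh

/-- intertwiners respecting the lines of `α` and `β`, on the second cohomology -/
theorem Intw.ring2 {X : Coh n A V} {Y : Coh n B U} (P : Intw X Y) {a d : ℂ}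
    (ha : P.g (al ℂ V) = a • al ℂ U) (hb : P.g (be ℂ V) = d • be ℂ U) :
    (∀ v, P.g (vv ℂ v) = vv ℂ (P.g (vv ℂ v)).2.1) ∧
    ∀ v x, P.u (X.i v * x) = a⁻¹ • (Y.i (P.g (vv ℂ v)).2.1 * P.u x) := by
  have had : a * d = P.lam := by
    have h := P.sim (al ℂ V) (be ℂ V)
    rw [ha, hb] at h
    simp only [bil_apply, al, be, map_zero, Prod.smul_fst, Prod.smul_snd, smul_zero,
      smul_eq_mul] at h
    simp at h
    exact h
  have ha0 : a ≠ 0 := by
    rintro rfl
    apply P.lam_ne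
    rw [← had, zero_mul]
  have hd0 : d ≠ 0 := by
    rintro rfl
    apply P.lam_ne
    rw [← had, mul_zero]
  have hV : ∀ v, P.g (vv ℂ v) = vv ℂ (P.g (vv ℂ v)).2.1 := by
    intro v
    have h1 := P.sim (vv ℂ v) (al ℂ V)
    have h2 := P.sim (vv ℂ v) (be ℂ V)
    rw [ha, map_smul] at h1
    rw [hb, map_smul] at h2
    simp only [bil_apply, al, be, map_zero, vv] at h1 h2
    simp [ha0, hd0] at h1 h2
    refine Prod.ext ?_ (Prod.ext rfl ?_)
    · exact h2
    · exact h1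
  refine ⟨hV, fun v x => ?_⟩
  have hE : cj P.u (X.rho (E X.q v)) = a⁻¹ • Y.rho (E Y.q (P.g (vv ℂ v)).2.1) := by
    rw [← W_E X.q, ← W_E Y.q, P.eqv, hb, hV v, W_smul_left, map_smul, smul_smul]
    have : P.lam⁻¹ * d = a⁻¹ := by
      rw [← had]
      field_simp
    rw [this]
    rfl
  have h := LinearMap.congr_fun hE (P.u x)
  rw [cj_apply, LinearEquiv.symm_apply_apply, X.rho_E, LinearMap.smul_apply, Y.rho_E] at h
  exact h

namespace Coh

variable (X : Coh n A V)

/-- rescaling automorphisms of the cohomology ring, when `H²(X, ℚ)` represents zero -/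
theorem exists_torus {u v : V} (hu : X.RV u) (hv : X.RV v) (huu : X.q u u = 0)
    (huv : X.q u v = 1) (hvv : X.q v v = 0) {t : ℚ} (ht : t ≠ 0) :
    ∃ f : A ≃ₐ[ℂ] A, (∀ k x, x ∈ grade X.b X.d k ↔ f x ∈ grade X.b X.d k) ∧
      (∀ x, IsRat X.b x ↔ IsRat X.b (f x)) ∧
      ∀ x, X.int (f x) = (t : ℂ) ^ (2 * n) * X.int x := by
  have ht' : (t : ℂ) ≠ 0 := by exact_mod_cast ht
  set M := (X.wt u v 1).symm.trans (X.wt u v t) with hM
  have hMa : M.g (al ℂ V) = (t : ℂ)⁻¹ • al ℂ V := by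
    show (X.wt u v t).g ((X.wt u v 1).g.symm (al ℂ V)) = _
    have h1 : (X.wt u v 1).g.symm (al ℂ V) = (-1 : ℂ) • vv ℂ u := by
      rw [LinearEquiv.symm_apply_eq, map_smul, X.wt_u huu huv hvv one_ne_zero, smul_smul]
      norm_num
    rw [h1, map_smul, X.wt_u huu huv hvv ht', smul_smul]
    norm_num
  have hMb : M.g (be ℂ V) = (t : ℂ) • be ℂ V := by
    show (X.wt u v t).g ((X.wt u v 1).g.symm (be ℂ V)) = _
    have h1 : (X.wt u v 1).g.symm (be ℂ V) = vv ℂ v := by
      rw [LinearEquiv.symm_apply_eq, X.wt_v huu huv hvv one_ne_zero, one_smul]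
    rw [h1, X.wt_v huu huv hvv ht']
  have hlam : M.lam = 1 := by
    show (X.wt u v t).lam * (X.wt u v 1).lam⁻¹ = 1
    rw [X.wt_lam, X.wt_lam]
    norm_num
  obtain ⟨hH, hL⟩ := M.ring hMa hMb
  obtain ⟨hV, hE⟩ := M.ring2 hMa hMb
  obtain ⟨c, hc, G, hG⟩ := ring_of M.u hH hL
  have hMr : ∀ x, IsRat X.b x ↔ IsRat X.b (M.u x) := by
    intro x
    show _ ↔ IsRat X.b ((X.wt u v t).u ((X.wt u v 1).u.symm x))
    rw [← X.wt_rat hu hv ⟨t, rfl⟩, X.wt_rat hu hv Rt.one ((X.wt u v 1).u.symm x),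
      LinearEquiv.apply_symm_apply]
  have hcr : Rt c := by
    have h := (hMr 1).1 X.one_rat
    rw [hG, map_one] at h
    exact X.rt_of_one h
  have hGH : ∀ x, G (X.rho (H ℂ V) x) = X.rho (H ℂ V) (G x) := by
    intro x
    have h := hH x
    rw [hG, hG, map_smul] at h
    exact smul_right_injective _ hc h
  refine ⟨G, fun k x => grade_iff X X G.toLinearEquiv hGH k x, fun x => ?_, ?_⟩
  · rw [hMr, hG]
    refine ⟨fun h => ?_, fun h => IsRat.smul hcr h⟩
    have h2 := IsRat.smul hcr.inv h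
    rwa [smul_smul, inv_mul_cancel₀ hc, one_smul] at h2
  · obtain ⟨κ, -, hκ⟩ := exists_kappa X X G hGH
    obtain ⟨x, hx⟩ := X.nonisotropic
    have h1 : G (X.i x) = (t : ℂ) • X.i (M.g (vv ℂ x)).2.1 := by
      have h := hE x 1
      rw [mul_one, hG, hG, map_one, inv_inv, mul_smul_comm, mul_one, smul_comm] at h
      exact smul_right_injective _ hc h
    have h2 : X.q (M.g (vv ℂ x)).2.1 (M.g (vv ℂ x)).2.1 = X.q x x := by
      have h := M.sim (vv ℂ x) (vv ℂ x)
      rw [hV x, hlam, one_mul] at h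
      simp only [bil_apply, vv, mul_zero, sub_zero] at h
      exact h
    have h3 : κ = (t : ℂ) ^ (2 * n) := by
      have h4 := hκ (X.i x ^ (2 * n))
      rw [map_pow, h1, smul_pow, map_smul, X.fujiki, X.fujiki, h2, smul_eq_mul] at h4
      have h5 : (X.c : ℂ) * X.q x x ^ n ≠ 0 :=
        mul_ne_zero (by exact_mod_cast X.c_ne) (pow_ne_zero _ hx)
      exact mul_right_cancel₀ h5 h4.symm
    intro y
    rw [hκ, h3]

/-- an isotropic vector gives a hyperbolic pair -/
theorem exists_hyp {u : V} (hu : X.RV u) (hu0 : u ≠ 0) (huu : X.q u u = 0) :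
    ∃ v, X.RV v ∧ X.q u v = 1 ∧ X.q v v = 0 := by
  obtain ⟨w, hw, hw0⟩ : ∃ w, X.RV w ∧ X.q u w ≠ 0 := by
    by_contra hcon
    push Not at hcon
    apply hu0
    exact X.q_nondeg u fun y => X.span_rat (X.q u) hcon y
  have h1 : Rt (X.q u w) := X.q_rat _ _ hu hw
  have h2 : Rt (X.q w w) := X.q_rat _ _ hw hw
  refine ⟨(X.q u w)⁻¹ • w + (-(X.q w w / (2 * (X.q u w) ^ 2))) • u,
    (RV.smul h1.inv hw).add (RV.smul ?_ hu), ?_, ?_⟩
  · rw [pow_two]
    exact (h2.div (Rt.two.mul (h1.mul h1))).neg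
  · simp only [map_add, map_smul, smul_eq_mul, huu]
    field_simp
    ring
  · simp only [map_add, map_smul, smul_eq_mul, huu, LinearMap.add_apply, LinearMap.smul_apply]
    rw [X.q_symm w u]
    field_simp
    ring

end Coh

end Pool.Agent.Q8.HK
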