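import Mathlib
import Pool.Agent.Q8.HK.Scal

/-!
# Isomorphisms of Frobenius algebras
-/

set_option autoImplicit false
set_option linter.unusedSimpArgs false
set_option linter.style.haveILetI false

open Module

namespace Pool.Agent.Q8.HK

variable {n : ℕ} {A V : Type} [Ring A] [Algebra ℂ A] [AddCommGroup V] [Module ℂ V]
variable {B U : Type} [Ring B] [Algebra ℂ B] [AddCommGroup U] [Module ℂ U]

/-- isomorphisms of graded algebras respecting the rational structures -/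
def RatIso (X : Coh n A V) (Y : Coh n B U) (f : A ≃ₐ[ℂ] B) : Prop :=
  (∀ k x, x ∈ grade X.b X.d k ↔ f x ∈ grade Y.b Y.d k) ∧
    ∀ x, IsRat X.b x ↔ IsRat Y.b (f x)

/-- `H^*(X, ℚ)` and `H^*(Y, ℚ)` are isomorphic as graded Frobenius algebras. -/
def FrobIso (X : Coh n A V) (Y : Coh n B U) : Prop :=
  ∃ f : A ≃ₐ[ℂ] B, RatIso X Y f ∧ ∀ x, Y.int (f x) = X.int x

/-- `H^*(X, ℚ)` and `H^*(Y, ℚ)` are isomorphic as graded Frobenius algebras, by an isomorphism
of Hodge structures. -/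
def HodgeFrobIso (X : Coh n A V) (Y : Coh n B U) : Prop :=
  ∃ f : A ≃ₐ[ℂ] B, RatIso X Y f ∧ (∀ x, f (X.eta x) = Y.eta (f x)) ∧
    ∀ x, Y.int (f x) = X.int x

/-- the discriminant of the Beauville–Bogomolov–Fujiki form in a basis -/
noncomputable def Coh.disc (X : Coh n A V) {p : ℕ} (e : Basis (Fin p) ℂ V) : ℂ :=
  (Matrix.of fun i j => X.q (e i) (e j)).det

variable {X : Coh n A V} {Y : Coh n B U}

theorem RatIso.deg {f : A ≃ₐ[ℂ] B} (hf : RatIso X Y f) (x : A) :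
    f (X.rho (H ℂ V) x) = Y.rho (H ℂ U) (f x) := by
  have h : (f.toLinearEquiv.toLinearMap ∘ₗ X.rho (H ℂ V)) =
      (Y.rho (H ℂ U) ∘ₗ f.toLinearEquiv.toLinearMap) := by
    refine X.b.ext fun j => ?_
    show f (X.rho (H ℂ V) (X.b j)) = Y.rho (H ℂ U) (f (X.b j))
    rw [X.rho_H _ _ (X.b_mem j), map_smul, Y.rho_H _ _ ((hf.1 _ _).1 (X.b_mem j))]
  exact LinearMap.congr_fun h x

/-- the similitude on `H²` defined by a graded rational isomorphism -/
theorem RatIso.sim {f : A ≃ₐ[ℂ] B} (hf : RatIso X Y f) :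
    ∃ (g : V ≃ₗ[ℂ] U) (lam : ℚ), lam ≠ 0 ∧ (∀ v, Y.i (g v) = f (X.i v)) ∧
      (∀ v w, Y.q (g v) (g w) = (lam : ℂ) * X.q v w) ∧
      ∀ κ : ℂ, (∀ x, Y.int (f x) = κ * X.int x) → (Y.c : ℂ) * (lam : ℂ) ^ n = κ * X.c := by
  obtain ⟨g, hg⟩ := exists_g X Y f.toLinearEquiv hf.deg
  have hg' : ∀ v, Y.i (g v) = f (X.i v) := hg
  obtain ⟨lam, hl, hs⟩ := exists_sim X Y f hf.deg g hg'
  have hlr : Rt lam := by
    have h1 := hs X.l X.l
    have h2 : Y.RV (g X.l) := by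
      rw [Coh.RV, hg', ← hf.2]
      exact X.l_rat
    have h3 : lam = Y.q (g X.l) (g X.l) / X.q X.l X.l := by
      rw [h1, mul_div_cancel_right₀ _ X.l_l]
    rw [h3]
    exact Rt.div (Y.q_rat _ _ h2 h2) (X.q_rat _ _ X.l_rat X.l_rat)
  obtain ⟨r, rfl⟩ := hlr
  refine ⟨g, r, fun h => hl (by rw [h]; simp), hg', hs, fun κ hκ => ?_⟩
  obtain ⟨x, hx⟩ := X.nonisotropic
  have h1 := hκ (X.i x ^ (2 * n))
  rw [map_pow, ← hg', Y.fujiki, X.fujiki, hs, mul_pow] at h1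
  have h2 : X.q x x ^ n ≠ 0 := pow_ne_zero _ hx
  apply mul_right_cancel₀ h2
  linear_combination h1

theorem RatIso.trans {C T : Type} [Ring C] [Algebra ℂ C] [AddCommGroup T] [Module ℂ T]
    {Z : Coh n C T} {f : A ≃ₐ[ℂ] B} {f' : B ≃ₐ[ℂ] C} (hf : RatIso X Y f) (hf' : RatIso Y Z f') :
    RatIso X Z (f.trans f') :=
  ⟨fun k x => (hf.1 k x).trans (hf'.1 k _), fun x => (hf.2 x).trans (hf'.2 _)⟩

/-- the arithmetic behind the rescaling -/
theorem arith {n : ℕ} {cX cY lam μ s r : ℚ} (hcX : cX ≠ 0) (hμ : μ ≠ 0)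
    (h1 : cX = μ ^ n * cY) (h2 : lam = μ * s ^ 2) (h3 : cY * lam ^ n = r ^ 2 * cX) :
    (s⁻¹) ^ (2 * n) * r ^ 2 = 1 ∨ s = 0 := by
  by_cases hs : s = 0
  · exact Or.inr hs
  · left
    have hcY : cY ≠ 0 := by
      rintro rfl
      exact hcX (by rw [h1, mul_zero])
    have h4 : s ^ (2 * n) = r ^ 2 := by
      rw [h1, h2, mul_pow] at h3
      have h5 : μ ^ n * cY ≠ 0 := mul_ne_zero (pow_ne_zero _ hμ) hcY
      apply mul_left_cancel₀ h5
      rw [pow_mul]
      linear_combination h3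
    rw [← h4, ← mul_pow, inv_mul_cancel₀ hs, one_pow]

/-- adjusting the integral -/
theorem frob_of {G : A ≃ₐ[ℂ] B} (hG : RatIso X Y G) {r : ℚ}
    (hr : ∀ x, Y.int (G x) = (r : ℂ) ^ 2 * X.int x) {lam : ℚ}
    (hlam : (Y.c : ℂ) * (lam : ℂ) ^ n = (r : ℂ) ^ 2 * X.c) {μ s : ℚ} (hμ : μ ≠ 0) (hs : s ≠ 0)
    (h1 : X.c = μ ^ n * Y.c) (h2 : lam = μ * s ^ 2) :
    ((∃ u, u ≠ 0 ∧ IsRat Y.b (Y.i u) ∧ Y.q u u = 0) → FrobIso X Y) ∧
    ((∀ j, Even (Y.d j)) → (∀ x, G (X.eta x) = Y.eta (G x)) → HodgeFrobIso X Y) ∧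
    ((∀ j, Even (Y.d j)) → FrobIso X Y) := by
  have h3 : Y.c * lam ^ n = r ^ 2 * X.c := by exact_mod_cast hlam
  have h4 := (arith X.c_ne hμ h1 h2 h3).resolve_right hs
  have h5 : (((s⁻¹ : ℚ) : ℂ)) ^ (2 * n) * (r : ℂ) ^ 2 = 1 := by exact_mod_cast h4
  refine ⟨?_, ?_, ?_⟩
  · rintro ⟨u, hu0, hu, huu⟩
    obtain ⟨v, hv, huv, hvv⟩ := Y.exists_hyp hu hu0 huu
    obtain ⟨f, hf1, hf2, hf3⟩ := Y.exists_torus hu hv huu huv hvv (inv_ne_zero hs)
    refine ⟨G.trans f, hG.trans ⟨hf1, hf2⟩, fun x => ?_⟩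
    show Y.int (f (G x)) = _
    rw [hf3, hr, ← mul_assoc, h5, one_mul]
  · intro hd hH
    obtain ⟨f, hf1, hf2, hf4, hf3⟩ := Y.exists_sc hd (inv_ne_zero hs)
    refine ⟨G.trans f, hG.trans ⟨hf1, hf2⟩, fun x => ?_, fun x => ?_⟩
    · show f (G (X.eta x)) = Y.eta (f (G x))
      rw [hH, hf4]
    · show Y.int (f (G x)) = _
      rw [hf3, hr, ← mul_assoc, h5, one_mul]
  · intro hd
    obtain ⟨f, hf1, hf2, hf4, hf3⟩ := Y.exists_sc hd (inv_ne_zero hs)
    refine ⟨G.trans f, hG.trans ⟨hf1, hf2⟩, fun x => ?_⟩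
    show Y.int (f (G x)) = _
    rw [hf3, hr, ← mul_assoc, h5, one_mul]

/-- discriminants under a rational similitude -/
theorem disc_sim {f : A ≃ₐ[ℂ] B} (hf : RatIso X Y f) {g : V ≃ₗ[ℂ] U}
    (hg : ∀ v, Y.i (g v) = f (X.i v)) {lam : ℚ}
    (hs : ∀ v w, Y.q (g v) (g w) = (lam : ℂ) * X.q v w) {p : ℕ} (e : Basis (Fin p) ℂ V)
    (he : ∀ j, IsRat X.b (X.i (e j))) (e' : Basis (Fin p) ℂ U)
    (he' : ∀ j, IsRat Y.b (Y.i (e' j))) :
    ∃ P : ℚ, P ≠ 0 ∧ (lam : ℂ) ^ p * X.disc e = (P : ℂ) ^ 2 * Y.disc e' := by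
  classical
  -- coordinates of rational vectors in a rational basis are rational
  have hcoord : ∀ u, Y.RV u → ∀ j, Rt (e'.repr u j) := by
    intro u hu
    have hG : ∀ j k, ∃ r : ℚ, Y.q (e' j) (e' k) = (r : ℂ) :=
      fun j k => Y.q_rat _ _ (he' j) (he' k)
    choose G₀ hG₀ using hG
    set G : Matrix (Fin p) (Fin p) ℚ := G₀ with hGdef
    have hinj : Function.Injective (Matrix.mulVecLin G) := by
      rw [injective_iff_map_eq_zero]
      intro c hc
      have h1 : ∀ j, Y.q (e' j) (∑ k, (c k : ℂ) • e' k) = 0 := by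
        intro j
        have h2 := congrFun hc j
        simp only [Matrix.mulVecLin_apply, Matrix.mulVec, dotProduct, Pi.zero_apply] at h2
        rw [map_sum]
        have h3 : (∑ k, ((G j k * c k : ℚ) : ℂ)) = 0 := by
          rw [← Rat.cast_sum, h2, Rat.cast_zero]
        rw [← h3]
        refine Finset.sum_congr rfl fun k _ => ?_
        rw [map_smul, hG₀, smul_eq_mul, mul_comm]
        push_cast
        rfl
      have h4 : ∑ k, (c k : ℂ) • e' k = 0 := by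
        refine Y.q_nondeg _ fun y => ?_
        rw [Y.q_symm]
        have h7 : Y.q y = ∑ j, e'.repr y j • Y.q (e' j) := by
          conv_lhs => rw [← e'.sum_repr y]
          rw [map_sum]
          simp only [map_smul]
        rw [h7, LinearMap.sum_apply]
        refine Finset.sum_eq_zero fun j _ => ?_
        rw [LinearMap.smul_apply, h1, smul_zero]
      funext k
      have h6 := congrArg (fun x => e'.repr x k) h4
      simp only [map_sum, map_smul, Basis.repr_self, Finsupp.finsetSum_apply,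
        Finsupp.smul_apply, Finsupp.single_apply, smul_eq_mul, map_zero, Finsupp.zero_apply]
        at h6
      rw [Finset.sum_eq_single k] at h6
      · simp only [if_true, mul_one] at h6
        exact_mod_cast h6
      · intro l _ hl
        rw [if_neg hl, mul_zero]
      · intro h
        exact absurd (Finset.mem_univ k) h
    have hunit : IsUnit G := by
      rw [← Matrix.mulVec_injective_iff_isUnit]
      exact hinj
    have hinv : G⁻¹ * G = 1 :=
      Matrix.nonsing_inv_mul G ((Matrix.isUnit_iff_isUnit_det G).1 hunit)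
    set c : Fin p → ℂ := fun j => e'.repr u j with hc
    have hgy : ∀ j, ∑ k, (G j k : ℂ) * c k = Y.q (e' j) u := by
      intro j
      conv_rhs => rw [← e'.sum_repr u]
      rw [map_sum]
      refine Finset.sum_congr rfl fun k _ => ?_
      rw [map_smul, hG₀, smul_eq_mul, mul_comm]
    intro k
    have h1 : c k = ∑ j, ((G⁻¹ k j : ℚ) : ℂ) * Y.q (e' j) u := by
      have h2 : ∀ l, ∑ j, ((G⁻¹ k j : ℚ) : ℂ) * (G j l : ℂ) = if k = l then 1 else 0 := by
        intro l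
        have h3 := congrFun (congrFun hinv k) l
        rw [Matrix.mul_apply, Matrix.one_apply] at h3
        have h4 : ((∑ j, G⁻¹ k j * G j l : ℚ) : ℂ) = if k = l then 1 else 0 := by
          rw [h3]
          split_ifs <;> simp
        rw [← h4]
        push_cast
        rfl
      simp only [← hgy, Finset.mul_sum]
      rw [Finset.sum_comm, Finset.sum_eq_single k]
      · simp only [← mul_assoc]
        rw [← Finset.sum_mul, h2, if_pos rfl, one_mul]
      · intro l _ hl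
        simp only [← mul_assoc]
        rw [← Finset.sum_mul, h2, if_neg (Ne.symm hl), zero_mul]
      · intro h
        exact absurd (Finset.mem_univ k) h
    show Rt (c k)
    rw [h1]
    exact Rt.sum _ _ fun j _ => Rt.mul ⟨_, rfl⟩ (Y.q_rat _ _ (he' j) hu)
  have hge : ∀ j, Y.RV (g (e j)) := by
    intro j
    rw [Coh.RV, hg, ← hf.2]
    exact he j
  have hP : ∀ i j, ∃ r : ℚ, e'.repr (g (e j)) i = (r : ℂ) := fun i j => hcoord _ (hge j) i
  choose P hP using hP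
  set PC : Matrix (Fin p) (Fin p) ℂ := Matrix.of fun i j => e'.repr (g (e j)) i with hPC
  set PQ : Matrix (Fin p) (Fin p) ℚ := Matrix.of P with hPQ
  have hmap : PC = PQ.map (fun r : ℚ => (r : ℂ)) := by
    ext i j
    simp [hPC, hPQ, hP]
  have hdet : PC.det = ((PQ.det : ℚ) : ℂ) := by
    rw [hmap]
    exact ((Rat.castHom ℂ).map_det PQ).symm
  have hgram : (lam : ℂ) • (Matrix.of fun i j => X.q (e i) (e j)) =
      PC.transpose * (Matrix.of fun i j => Y.q (e' i) (e' j)) * PC := by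
    ext i j
    rw [Matrix.smul_apply, Matrix.of_apply, smul_eq_mul, ← hs]
    conv_lhs => rw [← e'.sum_repr (g (e i)), ← e'.sum_repr (g (e j))]
    rw [Matrix.mul_apply]
    simp only [Matrix.mul_apply, Matrix.transpose_apply, Matrix.of_apply, hPC, map_sum, map_smul,
      LinearMap.sum_apply, LinearMap.smul_apply, smul_eq_mul, Finset.mul_sum, Finset.sum_mul]
    refine Finset.sum_congr rfl fun k _ => Finset.sum_congr rfl fun l _ => ?_
    ring
  have hdet2 := congrArg Matrix.det hgram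
  rw [Matrix.det_smul, Matrix.det_mul, Matrix.det_mul, Matrix.det_transpose, Fintype.card_fin,
    hdet] at hdet2
  have hPu : PQ.det ≠ 0 := by
    intro h0
    have h1 : PC.det ≠ 0 := by
      have h2 : PC = LinearMap.toMatrix e e' g.toLinearMap := by
        ext i j
        rw [LinearMap.toMatrix_apply]
        rfl
      rw [h2]
      have h3 : LinearMap.toMatrix e e' g.toLinearMap * LinearMap.toMatrix e' e g.symm.toLinearMap
          = 1 := by
        rw [← LinearMap.toMatrix_comp e' e e', LinearEquiv.comp_symm, LinearMap.toMatrix_id]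
      intro h4
      have h5 := congrArg Matrix.det h3
      rw [Matrix.det_mul, h4, zero_mul, Matrix.det_one] at h5
      exact zero_ne_one h5
    apply h1
    rw [hdet, h0]
    simp
  refine ⟨PQ.det, hPu, ?_⟩
  rw [Coh.disc, Coh.disc, hdet2]
  ring

theorem disc_ne (X : Coh n A V) {p : ℕ} (e : Basis (Fin p) ℂ V) : X.disc e ≠ 0 := by
  intro h0
  obtain ⟨c, hc0, hc⟩ := Matrix.exists_mulVec_eq_zero_iff.2 h0
  apply hc0
  have h1 : ∑ k, c k • e k = 0 := by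
    refine X.q_nondeg _ fun y => ?_
    rw [X.q_symm]
    have h7 : X.q y = ∑ j, e.repr y j • X.q (e j) := by
      conv_lhs => rw [← e.sum_repr y]
      rw [map_sum]
      simp only [map_smul]
    rw [h7, LinearMap.sum_apply]
    refine Finset.sum_eq_zero fun j _ => ?_
    have h2 := congrFun hc j
    simp only [Matrix.mulVec, dotProduct, Matrix.of_apply, Pi.zero_apply] at h2
    rw [LinearMap.smul_apply, map_sum]
    simp only [map_smul, smul_eq_mul]
    have h3 : ∑ x, c x * X.q (e j) (e x) = 0 := by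
      rw [← h2]
      exact Finset.sum_congr rfl fun k _ => mul_comm _ _
    rw [h3, mul_zero]
  funext k
  have h6 := congrArg (fun x => e.repr x k) h1
  simp only [map_sum, map_smul, Basis.repr_self, Finsupp.finsetSum_apply,
    Finsupp.smul_apply, Finsupp.single_apply, smul_eq_mul, map_zero, Finsupp.zero_apply] at h6
  rw [Finset.sum_eq_single k] at h6
  · simpa using h6
  · intro l _ hl
    rw [if_neg hl, mul_zero]
  · intro h
    exact absurd (Finset.mem_univ k) h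

/-- the part of the criterion valid for all dimensions -/
theorem frob_nec (h : FrobIso X Y) : ∃ μ : ℚ, μ ≠ 0 ∧ X.c = μ ^ n * Y.c := by
  obtain ⟨f, hf, hi⟩ := h
  obtain ⟨g, lam, hl, -, -, hk⟩ := hf.sim
  have h1 := hk 1 (fun x => by rw [hi, one_mul])
  refine ⟨lam, hl, ?_⟩
  have h2 : (Y.c : ℂ) * (lam : ℂ) ^ n = (X.c : ℂ) := by rw [h1, one_mul]
  have h3 : Y.c * lam ^ n = X.c := by exact_mod_cast h2
  rw [← h3]; ring

/-- **Frobenius criterion, `n` odd.** -/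
theorem frob_odd_n {G : A ≃ₐ[ℂ] B} (hG : RatIso X Y G) (hH : ∀ x, G (X.eta x) = Y.eta (G x))
    {r : ℚ} (hr0 : r ≠ 0) (hr : ∀ x, Y.int (G x) = (r : ℂ) ^ 2 * X.int x) (hn : Odd n) :
    ((∃ u, u ≠ 0 ∧ IsRat Y.b (Y.i u) ∧ Y.q u u = 0) →
      (FrobIso X Y ↔ ∃ μ : ℚ, X.c = μ ^ n * Y.c)) ∧
    ((∀ j, Even (Y.d j)) → (HodgeFrobIso X Y ↔ ∃ μ : ℚ, X.c = μ ^ n * Y.c)) := by
  have key : ∀ μ : ℚ, X.c = μ ^ n * Y.c → ∃ (lam s : ℚ), μ ≠ 0 ∧ s ≠ 0 ∧ lam = μ * s ^ 2 ∧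
      (Y.c : ℂ) * (lam : ℂ) ^ n = (r : ℂ) ^ 2 * X.c := by
    intro μ hμ
    obtain ⟨g, lam, hl, -, -, hk⟩ := hG.sim
    have hμ0 : μ ≠ 0 := by
      rintro rfl
      apply X.c_ne
      rw [hμ, zero_pow X.n_pos.ne', zero_mul]
    have h1 := hk _ hr
    have h2 : Y.c * lam ^ n = r ^ 2 * X.c := by exact_mod_cast h1
    obtain ⟨m, hm⟩ := hn
    set ν := lam / μ with hν
    have hν0 : ν ≠ 0 := div_ne_zero hl hμ0
    have hνn : ν ^ n = r ^ 2 := by
      rw [hμ] at h2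
      have hYc := Y.c_ne
      rw [hν, div_pow, div_eq_iff (pow_ne_zero _ hμ0)]
      apply mul_left_cancel₀ hYc
      rw [h2]; ring
    refine ⟨lam, r / ν ^ m, hμ0, div_ne_zero hr0 (pow_ne_zero _ hν0), ?_, h1⟩
    have h3 : (r / ν ^ m) ^ 2 = ν := by
      rw [div_pow, ← hνn, hm, ← pow_mul, pow_succ, mul_comm m 2,
        mul_div_cancel_left₀ _ (pow_ne_zero _ hν0)]
    rw [h3, hν]
    field_simp
  constructor
  · intro hu
    constructor
    · intro h
      obtain ⟨μ, -, h1⟩ := frob_nec h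
      exact ⟨μ, h1⟩
    · rintro ⟨μ, hμ⟩
      obtain ⟨lam, s, hμ0, hs, h1, h2⟩ := key μ hμ
      exact (frob_of hG hr h2 hμ0 hs hμ h1).1 hu
  · intro hd
    constructor
    · rintro ⟨f, hf, -, hi⟩
      obtain ⟨μ, -, h1⟩ := frob_nec ⟨f, hf, hi⟩
      exact ⟨μ, h1⟩
    · rintro ⟨μ, hμ⟩
      obtain ⟨lam, s, hμ0, hs, h1, h2⟩ := key μ hμ
      exact (frob_of hG hr h2 hμ0 hs hμ h1).2.1 hd hH

/-- **Frobenius criterion, `b₂` odd.** -/
theorem frob_odd_b {G : A ≃ₐ[ℂ] B} (hG : RatIso X Y G) (hH : ∀ x, G (X.eta x) = Y.eta (G x))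
    {r : ℚ} (hr : ∀ x, Y.int (G x) = (r : ℂ) ^ 2 * X.int x) {p : ℕ} (hp : Odd p)
    (e : Basis (Fin p) ℂ V) (he : ∀ j, IsRat X.b (X.i (e j))) (e' : Basis (Fin p) ℂ U)
    (he' : ∀ j, IsRat Y.b (Y.i (e' j))) :
    ((∃ u, u ≠ 0 ∧ IsRat Y.b (Y.i u) ∧ Y.q u u = 0) →
      (FrobIso X Y ↔ ∃ μ s : ℚ, s ≠ 0 ∧ X.c = μ ^ n * Y.c ∧
        (μ : ℂ) * X.disc e * Y.disc e' = (s : ℂ) ^ 2)) ∧
    ((∀ j, Even (Y.d j)) → (HodgeFrobIso X Y ↔ ∃ μ s : ℚ, s ≠ 0 ∧ X.c = μ ^ n * Y.c ∧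
        (μ : ℂ) * X.disc e * Y.disc e' = (s : ℂ) ^ 2)) := by
  obtain ⟨m, hm⟩ := hp
  -- a similitude factor, up to squares
  have dd : ∀ {f : A ≃ₐ[ℂ] B} (_ : RatIso X Y f) {g : V ≃ₗ[ℂ] U} {lam : ℚ} (_ : lam ≠ 0)
      (_ : ∀ v, Y.i (g v) = f (X.i v))
      (_ : ∀ v w, Y.q (g v) (g w) = (lam : ℂ) * X.q v w),
      ∃ s : ℚ, s ≠ 0 ∧ (lam : ℂ) * X.disc e * Y.disc e' = (s : ℂ) ^ 2 := by
    intro f hf g lam hl hg hs
    obtain ⟨P, hP, h1⟩ := disc_sim hf hg hs e he e' he'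
    have hr1 : Rt (Y.disc e') := by
      rw [Coh.disc, Matrix.det_apply]
      refine Rt.sum _ _ fun σ _ => ?_
      have h2 : Rt (∏ i, (Matrix.of fun i j => Y.q (e' i) (e' j)) (σ i) i) := by
        have h3 : ∀ t : Finset (Fin p),
            Rt (∏ i ∈ t, (Matrix.of fun i j => Y.q (e' i) (e' j)) (σ i) i) := by
          intro t
          classical
          induction t using Finset.induction_on with
          | empty => exact Rt.one
          | insert a t ha ih =>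
            rw [Finset.prod_insert ha]
            exact Rt.mul (Y.q_rat _ _ (he' _) (he' _)) ih
        exact h3 Finset.univ
      rcases Int.units_eq_one_or (Equiv.Perm.sign σ) with h | h
      · rw [h, one_smul]; exact h2
      · rw [h]
        have : ((-1 : ℤˣ) • ∏ i, (Matrix.of fun i j => Y.q (e' i) (e' j)) (σ i) i) =
            -∏ i, (Matrix.of fun i j => Y.q (e' i) (e' j)) (σ i) i := by
          rw [Units.neg_smul, one_smul]
        rw [this]
        exact h2.neg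
    obtain ⟨δ, hδ⟩ := hr1
    have hδ0 : δ ≠ 0 := by
      intro h
      exact disc_ne Y e' (by rw [hδ, h]; simp)
    refine ⟨P * δ / lam ^ m, div_ne_zero (mul_ne_zero hP hδ0) (pow_ne_zero _ hl), ?_⟩
    have hl' : (lam : ℂ) ≠ 0 := by exact_mod_cast hl
    have hpow : (lam : ℂ) ^ p = ((lam : ℂ) ^ m) ^ 2 * lam := by
      rw [hm]; ring
    rw [hpow, hδ] at h1
    rw [hδ]
    push_cast
    rw [div_pow, mul_pow, eq_div_iff (pow_ne_zero 2 (pow_ne_zero m hl'))]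
    linear_combination (δ : ℂ) * h1
  have hXd := disc_ne X e
  have hYd := disc_ne Y e'
  have key : ∀ μ s : ℚ, s ≠ 0 → X.c = μ ^ n * Y.c →
      (μ : ℂ) * X.disc e * Y.disc e' = (s : ℂ) ^ 2 →
      ∃ (lam s : ℚ), μ ≠ 0 ∧ s ≠ 0 ∧ lam = μ * s ^ 2 ∧
      (Y.c : ℂ) * (lam : ℂ) ^ n = (r : ℂ) ^ 2 * X.c := by
    intro μ s hs hμ hds
    obtain ⟨g, lam, hl, hg, hsim, hk⟩ := hG.sim
    obtain ⟨t, ht, htd⟩ := dd hG hl hg hsim
    have hμ0 : μ ≠ 0 := by
      rintro rfl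
      apply X.c_ne
      rw [hμ, zero_pow X.n_pos.ne', zero_mul]
    refine ⟨lam, t / s, hμ0, div_ne_zero ht hs, ?_, hk _ hr⟩
    have hs' : (s : ℂ) ≠ 0 := by exact_mod_cast hs
    have h5 : (lam : ℂ) * (s : ℂ) ^ 2 = (μ : ℂ) * (t : ℂ) ^ 2 := by
      rw [← hds, ← htd]; ring
    have h6 : lam * s ^ 2 = μ * t ^ 2 := by exact_mod_cast h5
    field_simp
    exact h6
  have nec : FrobIso X Y → ∃ μ s : ℚ, s ≠ 0 ∧ X.c = μ ^ n * Y.c ∧
        (μ : ℂ) * X.disc e * Y.disc e' = (s : ℂ) ^ 2 := by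
    rintro ⟨f, hf, hi⟩
    obtain ⟨g, lam, hl, hg, hsim, hk⟩ := hf.sim
    obtain ⟨t, ht, htd⟩ := dd hf hl hg hsim
    have h1 := hk 1 (fun x => by rw [hi, one_mul])
    have h2 : (Y.c : ℂ) * (lam : ℂ) ^ n = (X.c : ℂ) := by rw [h1, one_mul]
    have h3 : Y.c * lam ^ n = X.c := by exact_mod_cast h2
    exact ⟨lam, t, ht, by rw [← h3]; ring, htd⟩
  constructor
  · intro hu
    refine ⟨nec, ?_⟩
    rintro ⟨μ, s, hs, hμ, hds⟩
    obtain ⟨lam, s, hμ0, hs, h1, h2⟩ := key μ s hs hμ hds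
    exact (frob_of hG hr h2 hμ0 hs hμ h1).1 hu
  · intro hd
    constructor
    · rintro ⟨f, hf, -, hi⟩
      exact nec ⟨f, hf, hi⟩
    · rintro ⟨μ, s, hs, hμ, hds⟩
      obtain ⟨lam, s, hμ0, hs, h1, h2⟩ := key μ s hs hμ hds
      exact (frob_of hG hr h2 hμ0 hs hμ h1).2.1 hd hH

end Pool.Agent.Q8.HK
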