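import Mathlib
import Pool.Agent.Q8.HK.Frob

/-!
# Rational cohomology algebras of derived equivalent hyper-Kähler varieties
-/

set_option autoImplicit false

open Module

namespace Pool.Agent.Q8.HK

variable {n : ℕ} {A V : Type} [Ring A] [Algebra ℂ A] [AddCommGroup V] [Module ℂ V]
variable {B U : Type} [Ring B] [Algebra ℂ B] [AddCommGroup U] [Module ℂ U]
variable {X : Coh n A V} {Y : Coh n B U}

/-- rational cohomology algebras of derived equivalent hyper-Kähler varieties -/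
theorem DerEq.rings (D : DerEq X Y) :
    ∃ G : A ≃ₐ[ℂ] B, RatIso X Y G ∧ (∀ x, G (X.eta x) = Y.eta (G x)) ∧
      ((∀ x y, Y.mukai (D.Φ x) (D.Φ y) = X.mukai x y) →
        ∃ r : ℚ, r ≠ 0 ∧ ∀ x, Y.int (G x) = (r : ℂ) ^ 2 * X.int x) := by
  obtain ⟨G, c, T, T', hc, hcr, -, -, -, -, -, hgr, hrat, hH, hm⟩ :=
    D.free (R := ⊤) ⟨fun _ => trivial, fun _ _ => trivial⟩ (fun _ _ => trivial)
  refine ⟨G, ⟨hgr, hrat⟩, hH, fun hmuk => ?_⟩
  obtain ⟨r, hr⟩ := hcr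
  have hr0 : r ≠ 0 := by
    rintro rfl
    exact hc (by rw [hr]; simp)
  refine ⟨r⁻¹, inv_ne_zero hr0, fun x => ?_⟩
  rw [hm hmuk, hr]
  push_cast
  rw [inv_pow]

end Pool.Agent.Q8.HK
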